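import Pool.Agent.Work.MP_1ddc88_an.Stmts

/-!
# MP_1ddc88_an, item AN: the averaging operator is at distance less than 1 from its projection
-/

set_option autoImplicit false

open Filter Topology
open scoped ENNReal Classical

namespace Pool.Agent.Work.MP_1ddc88_an

noncomputable section

namespace IAN

theorem deg_sum (X : Expander) (i : ℕ) (v : Fin (X.N i)) :
    (∑ w, if (X.G i).Adj v w then (1 : ℝ) else 0) ≤ X.D := by
  rw [Finset.sum_boole]
  have h := X.deg i v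
  rw [Set.ncard_eq_toFinset_card'] at h
  have h2 : ({w | (X.G i).Adj v w} : Set (Fin (X.N i))).toFinset =
      Finset.univ.filter (fun w => (X.G i).Adj v w) := by
    ext w
    simp
  rw [h2] at h
  exact_mod_cast h

theorem c_le (X : Expander) : X.c ≤ 4 * X.D := by
  obtain ⟨i, hi⟩ := (X.big.eventually_ge_atTop 2).exists
  have hp0 : 0 < X.N i := by omega
  have hp1 : 1 < X.N i := by omega
  set a : Fin (X.N i) := ⟨0, hp0⟩ with ha
  set b : Fin (X.N i) := ⟨1, hp1⟩ with hb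
  have hab : a ≠ b := by
    intro h
    have := congrArg Fin.val h
    simp [ha, hb] at this
  let f : Fin (X.N i) → ℝ := fun v => (if v = a then 1 else 0) - (if v = b then 1 else 0)
  have hf0 : ∑ v, f v = 0 := by
    simp only [f, Finset.sum_sub_distrib, Finset.sum_ite_eq', Finset.mem_univ, if_true]
    ring
  have hf2 : ∑ v, f v ^ 2 = 2 := by
    have e : ∀ v, f v ^ 2 = (if v = a then 1 else 0) + (if v = b then 1 else 0) := by
      intro v
      simp only [f]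
      by_cases h1 : v = a
      · have h2 : v ≠ b := by rw [h1]; exact hab
        simp [h1, hab]
      · by_cases h2 : v = b
        · simp [h2, hab.symm]
        · simp [h1, h2]
    simp only [e, Finset.sum_add_distrib, Finset.sum_ite_eq', Finset.mem_univ, if_true]
    norm_num
  have hg := X.gap i f hf0
  rw [hf2] at hg
  have hle : ∀ v w, (if (X.G i).Adj v w then (f v - f w) ^ 2 else 0) ≤
      2 * f v ^ 2 * (if (X.G i).Adj v w then (1 : ℝ) else 0) +
      2 * f w ^ 2 * (if (X.G i).Adj w v then (1 : ℝ) else 0) := by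
    intro v w
    by_cases h : (X.G i).Adj v w
    · rw [if_pos h, if_pos h, if_pos h.symm]
      nlinarith [sq_nonneg (f v + f w)]
    · rw [if_neg h, if_neg h, if_neg (fun h' => h h'.symm)]
      simp
  have hA : ∑ v, ∑ w, 2 * f v ^ 2 * (if (X.G i).Adj v w then (1 : ℝ) else 0) ≤
      4 * (X.D : ℝ) := by
    have h1 : ∀ v, ∑ w, 2 * f v ^ 2 * (if (X.G i).Adj v w then (1 : ℝ) else 0) ≤
        2 * f v ^ 2 * (X.D : ℝ) := by
      intro v
      rw [← Finset.mul_sum]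
      exact mul_le_mul_of_nonneg_left (deg_sum X i v) (by positivity)
    refine (Finset.sum_le_sum fun v _ => h1 v).trans (le_of_eq ?_)
    rw [← Finset.sum_mul, ← Finset.mul_sum, hf2]
    ring
  have hB : ∑ v, ∑ w, 2 * f w ^ 2 * (if (X.G i).Adj w v then (1 : ℝ) else 0) ≤
      4 * (X.D : ℝ) := by
    rw [Finset.sum_comm]
    exact hA
  have hC : ∑ v, ∑ w, (if (X.G i).Adj v w then (f v - f w) ^ 2 else 0) ≤ 8 * (X.D : ℝ) := by
    refine (Finset.sum_le_sum fun v _ => Finset.sum_le_sum fun w _ => hle v w).trans ?_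
    have e : ∑ v, ∑ w, (2 * f v ^ 2 * (if (X.G i).Adj v w then (1 : ℝ) else 0) +
        2 * f w ^ 2 * (if (X.G i).Adj w v then (1 : ℝ) else 0)) =
        ∑ v, ∑ w, 2 * f v ^ 2 * (if (X.G i).Adj v w then (1 : ℝ) else 0) +
        ∑ v, ∑ w, 2 * f w ^ 2 * (if (X.G i).Adj w v then (1 : ℝ) else 0) := by
      rw [← Finset.sum_add_distrib]
      refine Finset.sum_congr rfl fun v _ => ?_
      rw [← Finset.sum_add_distrib]
    rw [e]
    linarith
  have := hg.trans hC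
  linarith

theorem lam_lt (X : Expander) : |1 - X.c / (4 * (X.D + 1))| < 1 := by
  have hD : (0 : ℝ) ≤ X.D := Nat.cast_nonneg _
  have hpos : (0 : ℝ) < 4 * (X.D + 1) := by positivity
  have h1 : 0 < X.c / (4 * (X.D + 1)) := div_pos X.c_pos hpos
  have h2 : X.c / (4 * (X.D + 1)) < 2 := by
    rw [div_lt_iff₀ hpos]
    have := c_le X
    linarith
  rw [abs_lt]
  constructor <;> linarith

/-- The fibres of `p ↦ (i, m, k)`. -/
def e (X : Expander) (i m k : ℕ) :
    Fin (X.N i) ≃ {p : Ix X // (p.1.1.1, p.1.2, p.2) = (i, m, k)} :=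
  Equiv.ofBijective (fun v => ⟨((⟨i, v⟩, m), k), rfl⟩) (by
    constructor
    · intro v w h
      have h1 := congrArg Subtype.val h
      simp only [Prod.mk.injEq, Sigma.mk.injEq, heq_eq_eq, true_and, and_true] at h1
      exact h1
    · rintro ⟨⟨⟨⟨j, v⟩, m'⟩, k'⟩, h⟩
      simp only [Prod.mk.injEq] at h
      obtain ⟨rfl, rfl, rfl⟩ := h
      exact ⟨v, rfl⟩)

theorem e_val (X : Expander) (i m k : ℕ) (v : Fin (X.N i)) :
    (e X i m k v).1 = ((⟨i, v⟩, m), k) := rfl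

end IAN

theorem pr_AN (h1 : St_Slice) (h2 : St_Fib) (h3 : St_PavF) (h4 : St_AF) : St_AN := by
  intro X
  refine ⟨|1 - X.c / (4 * (X.D + 1))|, abs_nonneg _, IAN.lam_lt X, ?_⟩
  refine h2 (Ix X) (ℕ × ℕ × ℕ) (fun p => (p.1.1.1, p.1.2, p.2)) _ _ (abs_nonneg _) ?_
  rintro ξ ⟨i, m, k⟩
  have hval : ∀ v : Fin (X.N i), (kerOp (kA X) - Pav X) ξ ((⟨i, v⟩, m), k) =
      if k = 0 then ξ ((⟨i, v⟩, m), 0) - (2 * (X.D + 1) : ℂ)⁻¹ *
        (∑ w, if (X.G i).Adj v w then ξ ((⟨i, v⟩, m), 0) - ξ ((⟨i, w⟩, m), 0) else 0) -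
        (X.N i : ℂ)⁻¹ * ∑ w : Fin (X.N i), ξ ((⟨i, w⟩, m), 0) else 0 := by
    intro v
    have e1 : (kerOp (kA X) - Pav X) ξ ((⟨i, v⟩, m), k) =
        kerOp (kA X) ξ ((⟨i, v⟩, m), k) - Pav X ξ ((⟨i, v⟩, m), k) := by simp
    rw [e1, (h4 X).2, (h3 X).2]
    by_cases hk : k = 0
    · rw [if_pos hk, if_pos hk, if_pos hk]
    · rw [if_neg hk, if_neg hk, if_neg hk, sub_zero]
  have hL : ∑' p : {p : Ix X // (p.1.1.1, p.1.2, p.2) = (i, m, k)},
      ‖(kerOp (kA X) - Pav X) ξ p‖ ^ 2 =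
      ∑ v : Fin (X.N i), ‖(kerOp (kA X) - Pav X) ξ ((⟨i, v⟩, m), k)‖ ^ 2 := by
    rw [← (IAN.e X i m k).tsum_eq, tsum_fintype]
    rfl
  have hR : ∑' p : {p : Ix X // (p.1.1.1, p.1.2, p.2) = (i, m, k)}, ‖ξ p‖ ^ 2 =
      ∑ v : Fin (X.N i), ‖ξ ((⟨i, v⟩, m), k)‖ ^ 2 := by
    rw [← (IAN.e X i m k).tsum_eq, tsum_fintype]
    rfl
  have key : ∑ v : Fin (X.N i), ‖(kerOp (kA X) - Pav X) ξ ((⟨i, v⟩, m), k)‖ ^ 2 ≤
      |1 - X.c / (4 * (X.D + 1))| ^ 2 * ∑ v : Fin (X.N i), ‖ξ ((⟨i, v⟩, m), k)‖ ^ 2 := by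
    rw [sq_abs]
    by_cases hk : k = 0
    · subst hk
      refine le_trans (le_of_eq ?_) (h1 X i (fun v => ξ ((⟨i, v⟩, m), 0)))
      refine Finset.sum_congr rfl fun v _ => ?_
      rw [hval v, if_pos rfl]
    · have e0 : ∑ v : Fin (X.N i), ‖(kerOp (kA X) - Pav X) ξ ((⟨i, v⟩, m), k)‖ ^ 2 = 0 := by
        refine Finset.sum_eq_zero fun v _ => ?_
        rw [hval v, if_neg hk]
        simp
      rw [e0]
      positivity
  calc _ = _ := hL
    _ ≤ _ := key
    _ = _ := by rw [hR]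

end

end Pool.Agent.Work.MP_1ddc88_an
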