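import Pool.Agent.Work.MP_1ddc88_an.Stmts

/-!
# MP_1ddc88_an, item AP: the operator `A = kerOp (kA X)`
-/

set_option autoImplicit false

open Filter Topology
open scoped ENNReal Classical

namespace Pool.Agent.Work.MP_1ddc88_an

noncomputable section

namespace IAP

/-- the projection onto one coordinate is compact -/
theorem proj_single_compact {ι : Type} (a : ι) : IsCompactOperator (proj ({a} : Set ι)) := by
  let T1 : L2 ι →L[ℂ] ℂ := lp.evalCLM ℂ (fun _ : ι => ℂ) 2 a
  let T2 : ℂ →L[ℂ] L2 ι := ContinuousLinearMap.toSpanSingleton ℂ (lp.single 2 a (1 : ℂ))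
  have h : proj ({a} : Set ι) = T2 ∘L T1 := by
    apply op_ext
    intro ξ p
    rw [proj_apply]
    have e : (T2 ∘L T1) ξ p = ξ a * (lp.single 2 a (1 : ℂ) : L2 ι) p := rfl
    rw [e]
    by_cases hp : p = a
    · subst hp
      rw [lp.single_apply_self, mul_one, if_pos (Set.mem_singleton p)]
    · rw [lp.single_apply_ne _ _ _ hp, mul_zero, if_neg (by simpa using hp)]
  have h1 : IsCompactOperator T1 := isCompactOperator_of_locallyCompactSpace_dom T1
  rw [h]
  exact h1.clm_comp T2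

theorem A_right (h3 : St_AF) (X : Expander) :
    kerOp (kA X) = kerOp (kA X) * proj {p : Ix X | p.2 = 0} := by
  apply op_ext
  rintro ξ ⟨⟨⟨i, v⟩, m⟩, k⟩
  show kerOp (kA X) ξ ((⟨i, v⟩, m), k) =
    kerOp (kA X) (proj {p : Ix X | p.2 = 0} ξ) ((⟨i, v⟩, m), k)
  rw [(h3 X).2, (h3 X).2]
  have e : ∀ w : Fin (X.N i), proj {p : Ix X | p.2 = 0} ξ ((⟨i, w⟩, m), 0) =
      ξ ((⟨i, w⟩, m), 0) := by
    intro w
    rw [proj_apply, if_pos]
    show (0 : ℕ) = 0
    rfl
  simp only [e]

theorem A_left (h3 : St_AF) (X : Expander) :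
    kerOp (kA X) = proj {p : Ix X | p.2 = 0} * kerOp (kA X) := by
  apply op_ext
  rintro ξ ⟨⟨⟨i, v⟩, m⟩, k⟩
  show kerOp (kA X) ξ ((⟨i, v⟩, m), k) =
    proj {p : Ix X | p.2 = 0} (kerOp (kA X) ξ) ((⟨i, v⟩, m), k)
  rw [proj_apply]
  by_cases hk : k = 0
  · rw [if_pos]
    exact hk
  · have hm : ¬ ((((⟨i, v⟩, m), k) : Ix X) ∈ {p : Ix X | p.2 = 0}) := fun h => hk h
    rw [if_neg hm, (h3 X).2, if_neg hk]

theorem cell_inter (X : Expander) (z : Z X) :
    cell X z ∩ {p : Ix X | p.2 = 0} = {(z, 0)} := by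
  ext p
  constructor
  · rintro ⟨h1, h2⟩
    exact Prod.ext h1 h2
  · intro h
    have h' : p = (z, 0) := h
    subst h'
    exact ⟨rfl, rfl⟩

theorem swap_zero {n : ℕ} (R : Fin n → Fin n → Prop) (hR : ∀ v w, R v w → R w v)
    (f : Fin n → ℂ) : ∑ v, ∑ w, (if R v w then f v - f w else 0) = 0 := by
  have h : ∑ v, ∑ w, (if R v w then f v - f w else 0) =
      - ∑ v, ∑ w, (if R v w then f v - f w else 0) := by
    conv_lhs => rw [Finset.sum_comm]
    rw [← Finset.sum_neg_distrib]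
    apply Finset.sum_congr rfl
    intro v _
    rw [← Finset.sum_neg_distrib]
    apply Finset.sum_congr rfl
    intro w _
    by_cases h : R v w
    · rw [if_pos h, if_pos (hR v w h)]
      ring
    · rw [if_neg h, if_neg (fun h' => h (hR w v h')), neg_zero]
  exact self_eq_neg.1 h

end IAP

open IAP in
theorem pr_AP (h1 : St_Met) (h2 : St_PavF) (h3 : St_AF) : St_AP := by
  intro X
  refine ⟨?_, ?_, ?_, ?_⟩
  · rintro ξ ⟨⟨⟨i, v⟩, m⟩, k⟩ hne
    rw [(h3 X).2] at hne
    by_cases hk : k = 0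
    · subst hk
      rw [if_pos rfl] at hne
      by_cases hv : ξ ((⟨i, v⟩, m), 0) = 0
      · by_contra hcon
        push Not at hcon
        apply hne
        have hs : (∑ w, if (X.G i).Adj v w then
            ξ ((⟨i, v⟩, m), 0) - ξ ((⟨i, w⟩, m), 0) else 0) = 0 := by
          apply Finset.sum_eq_zero
          intro w _
          by_cases hw : (X.G i).Adj v w
          · rw [if_pos hw, hv]
            by_cases hw0 : ξ ((⟨i, w⟩, m), 0) = 0
            · rw [hw0, sub_zero]
            · exfalso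
              have h := hcon ((⟨i, w⟩, m), 0) hw0
              have hd : dZ X (⟨i, v⟩, m) (⟨i, w⟩, m) = 1 := by
                have e1 : dX X ⟨i, v⟩ ⟨i, w⟩ = (X.G i).dist v w := by
                  unfold dX
                  rw [dif_pos rfl]
                unfold dZ
                rw [e1, SimpleGraph.dist_eq_one_iff_adj.2 hw]
                simp
              rw [hd] at h
              exact absurd h (lt_irrefl 1)
          · rw [if_neg hw]
        rw [hs, hv]
        simp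
      · exact ⟨((⟨i, v⟩, m), 0), hv, by
          show dZ X (⟨i, v⟩, m) (⟨i, v⟩, m) ≤ 1
          rw [(h1 X (⟨i, v⟩, m) (⟨i, v⟩, m) (⟨i, v⟩, m)).1]
          exact Nat.zero_le 1⟩
    · rw [if_neg hk] at hne
      exact absurd rfl hne
  · intro z
    constructor
    · have e : kerOp (kA X) ∘L proj (cell X z) = kerOp (kA X) ∘L proj {((z, 0) : Ix X)} := by
        have e1 : kerOp (kA X) * proj (cell X z) = kerOp (kA X) * proj {((z, 0) : Ix X)} := by
          conv_lhs => rw [A_right h3 X]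
          rw [mul_assoc, proj_mul, Set.inter_comm, cell_inter]
        exact e1
      rw [e]
      exact (proj_single_compact ((z, 0) : Ix X)).clm_comp (kerOp (kA X))
    · have e : proj (cell X z) ∘L kerOp (kA X) = proj {((z, 0) : Ix X)} ∘L kerOp (kA X) := by
        have e1 : proj (cell X z) * kerOp (kA X) = proj {((z, 0) : Ix X)} * kerOp (kA X) := by
          conv_lhs => rw [A_left h3 X]
          rw [← mul_assoc, proj_mul, cell_inter]
        exact e1
      rw [e]
      exact (proj_single_compact ((z, 0) : Ix X)).comp_clm (kerOp (kA X))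
  · apply op_ext
    rintro ξ ⟨⟨⟨i, v⟩, m⟩, k⟩
    show kerOp (kA X) (Pav X ξ) ((⟨i, v⟩, m), k) = Pav X ξ ((⟨i, v⟩, m), k)
    rw [(h3 X).2]
    by_cases hk : k = 0
    · subst hk
      rw [if_pos rfl]
      have hs : (∑ w, if (X.G i).Adj v w then
          Pav X ξ ((⟨i, v⟩, m), 0) - Pav X ξ ((⟨i, w⟩, m), 0) else 0) = 0 := by
        apply Finset.sum_eq_zero
        intro w _
        have e : Pav X ξ ((⟨i, v⟩, m), 0) = Pav X ξ ((⟨i, w⟩, m), 0) := by
          rw [(h2 X).2, (h2 X).2]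
        rw [e, sub_self, ite_self]
      rw [hs, mul_zero, sub_zero]
    · rw [if_neg hk, (h2 X).2, if_neg hk]
  · apply op_ext
    rintro ξ ⟨⟨⟨i, v⟩, m⟩, k⟩
    show Pav X (kerOp (kA X) ξ) ((⟨i, v⟩, m), k) = Pav X ξ ((⟨i, v⟩, m), k)
    rw [(h2 X).2, (h2 X).2]
    by_cases hk : k = 0
    · subst hk
      rw [if_pos rfl, if_pos rfl]
      congr 1
      show ∑ w : Fin (X.N i), kerOp (kA X) ξ ((⟨i, w⟩, m), 0) =
        ∑ w : Fin (X.N i), ξ ((⟨i, w⟩, m), 0)
      have e : ∀ w : Fin (X.N i), kerOp (kA X) ξ ((⟨i, w⟩, m), 0) =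
          ξ ((⟨i, w⟩, m), 0) - (2 * (X.D + 1) : ℂ)⁻¹ *
      (∑ u, if (X.G i).Adj w u then ξ ((⟨i, w⟩, m), 0) - ξ ((⟨i, u⟩, m), 0) else 0) := by
        intro w
        rw [(h3 X).2, if_pos rfl]
      rw [Finset.sum_congr rfl (fun w _ => e w), Finset.sum_sub_distrib, ← Finset.mul_sum,
        swap_zero (fun w u => (X.G i).Adj w u) (fun w u h => h.symm)
          (fun w => ξ ((⟨i, w⟩, m), 0)), mul_zero, sub_zero]
    · rw [if_neg hk, if_neg hk]

end

end Pool.Agent.Work.MP_1ddc88_an
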