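import Pool.Agent.Work.MP_1ddc88_an.Stmts

/-!
# MP_1ddc88_an, item AlgG: the ghost operators form an ideal
-/

set_option autoImplicit false

open Filter Topology
open scoped ENNReal Classical

namespace Pool.Agent.Work.MP_1ddc88_an

namespace IAlgG

variable (X : Expander)

theorem proj_fin (s : Finset (Z X)) :
    proj {q : Ix X | q.1 ∈ s} = ∑ z ∈ s, proj (cell X z) := by
  induction s using Finset.induction_on with
  | empty =>
    rw [Finset.sum_empty]
    have : {q : Ix X | q.1 ∈ (∅ : Finset (Z X))} = ∅ := by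
      ext q
      simp
    rw [this, proj_empty]
  | insert z s hz ih =>
    rw [Finset.sum_insert hz, ← ih]
    have h1 : {q : Ix X | q.1 ∈ insert z s} = cell X z ∪ {q : Ix X | q.1 ∈ s} := by
      ext q
      simp [cell]
    rw [h1, proj_union]
    rw [Set.disjoint_left]
    intro q hq hq'
    apply hz
    have h2 : q.1 = z := hq
    rw [← h2]
    exact hq'

theorem left (S : Op X) (R : ℕ) (hS : FinProp X R S) (z : Z X) (s : Finset (Z X))
    (hs : ∀ w, w ∈ s ↔ dZ X z w ≤ R) :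
    proj (cell X z) * S = proj (cell X z) * S * proj {q : Ix X | q.1 ∈ s} := by
  apply op_ext
  intro ξ p
  show proj (cell X z) (S ξ) p = proj (cell X z) (S (proj {q : Ix X | q.1 ∈ s} ξ)) p
  rw [proj_apply, proj_apply]
  by_cases hp : p ∈ cell X z
  · rw [if_pos hp, if_pos hp]
    have hp' : p.1 = z := hp
    by_contra hne
    have h1 : S (ξ - proj {q : Ix X | q.1 ∈ s} ξ) p ≠ 0 := by
      rw [map_sub]
      show S ξ p - S (proj {q : Ix X | q.1 ∈ s} ξ) p ≠ 0
      exact sub_ne_zero.2 hne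
    obtain ⟨q, hq, hd⟩ := hS _ _ h1
    rw [hp'] at hd
    apply hq
    show ξ q - proj {q : Ix X | q.1 ∈ s} ξ q = 0
    rw [proj_apply, if_pos (show q ∈ {q : Ix X | q.1 ∈ s} from (hs q.1).2 hd), sub_self]
  · rw [if_neg hp, if_neg hp]

theorem right (h1 : St_Met) (S : Op X) (R : ℕ) (hS : FinProp X R S) (w : Z X)
    (s : Finset (Z X)) (hs : ∀ z, z ∈ s ↔ dZ X w z ≤ R) :
    S * proj (cell X w) = proj {q : Ix X | q.1 ∈ s} * (S * proj (cell X w)) := by
  apply op_ext
  intro ξ p
  show S (proj (cell X w) ξ) p = proj {q : Ix X | q.1 ∈ s} (S (proj (cell X w) ξ)) p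
  rw [proj_apply]
  by_cases hp : p ∈ {q : Ix X | q.1 ∈ s}
  · rw [if_pos hp]
  · rw [if_neg hp]
    by_contra hne
    obtain ⟨q, hq, hd⟩ := hS _ _ hne
    apply hq
    rw [proj_apply, if_neg]
    intro hq'
    have hq2 : q.1 = w := hq'
    apply hp
    show p.1 ∈ s
    rw [hs, (h1 X w p.1 w).2.2.1, ← hq2]
    exact hd

/-- the estimate on the left -/
theorem estL (S T : Op X) (R : ℕ) (hS : FinProp X R S) (z w : Z X) (s : Finset (Z X))
    (hs : ∀ w, w ∈ s ↔ dZ X z w ≤ R) (δ : ℝ)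
    (hT : ∀ z' ∈ s, ‖proj (cell X z') * (T * proj (cell X w))‖ ≤ δ) :
    ‖proj (cell X z) * (S * T * proj (cell X w))‖ ≤ ‖S‖ * (s.card * δ) := by
  have h1 : proj (cell X z) * (S * T * proj (cell X w)) =
      proj (cell X z) * S * ∑ z' ∈ s, proj (cell X z') * (T * proj (cell X w)) := by
    rw [← Finset.sum_mul, ← proj_fin, ← mul_assoc _ (proj {q : Ix X | q.1 ∈ s}),
      ← left X S R hS z s hs]
    simp only [mul_assoc]
  rw [h1]
  refine (norm_mul_le _ _).trans ?_
  have h2 : ‖proj (cell X z) * S‖ ≤ ‖S‖ := by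
    refine (norm_mul_le _ _).trans ?_
    have := proj_norm_le (cell X z)
    have h0 := norm_nonneg S
    nlinarith
  have h3 : ‖∑ z' ∈ s, proj (cell X z') * (T * proj (cell X w))‖ ≤ s.card * δ := by
    refine (norm_sum_le _ _).trans ?_
    refine (Finset.sum_le_sum hT).trans ?_
    rw [Finset.sum_const, nsmul_eq_mul]
  exact mul_le_mul h2 h3 (norm_nonneg _) (norm_nonneg _)

/-- the estimate on the right -/
theorem estR (h1 : St_Met) (S T : Op X) (R : ℕ) (hS : FinProp X R S) (z w : Z X)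
    (s : Finset (Z X)) (hs : ∀ z, z ∈ s ↔ dZ X w z ≤ R) (δ : ℝ)
    (hT : ∀ w' ∈ s, ‖proj (cell X z) * (T * proj (cell X w'))‖ ≤ δ) :
    ‖proj (cell X z) * (T * S * proj (cell X w))‖ ≤ (s.card * δ) * ‖S‖ := by
  have h2 : proj (cell X z) * (T * S * proj (cell X w)) =
      (∑ w' ∈ s, proj (cell X z) * (T * proj (cell X w'))) * (S * proj (cell X w)) := by
    rw [← Finset.mul_sum, ← Finset.mul_sum, ← proj_fin, mul_assoc (proj (cell X z)),
      mul_assoc T (proj {q : Ix X | q.1 ∈ s}), ← right X h1 S R hS w s hs, mul_assoc T]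
  rw [h2]
  refine (norm_mul_le _ _).trans ?_
  have h3 : ‖S * proj (cell X w)‖ ≤ ‖S‖ := by
    refine (norm_mul_le _ _).trans ?_
    have := proj_norm_le (cell X w)
    have h0 := norm_nonneg S
    nlinarith
  have h4 : ‖∑ w' ∈ s, proj (cell X z) * (T * proj (cell X w'))‖ ≤ s.card * δ := by
    refine (norm_sum_le _ _).trans ?_
    refine (Finset.sum_le_sum hT).trans ?_
    rw [Finset.sum_const, nsmul_eq_mul]
  exact mul_le_mul h4 h3 (norm_nonneg _) ((norm_nonneg _).trans h4)

theorem blk_le (A : Op X) (z w : Z X) : ‖proj (cell X z) * (A * proj (cell X w))‖ ≤ ‖A‖ := by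
  refine (norm_mul_le _ _).trans ?_
  have h1 := proj_norm_le (cell X z)
  have h2 : ‖A * proj (cell X w)‖ ≤ ‖A‖ * ‖proj (cell X w)‖ := norm_mul_le _ _
  have h3 := proj_norm_le (cell X w)
  have h4 : ‖A‖ * ‖proj (cell X w)‖ ≤ ‖A‖ * 1 := mul_le_mul_of_nonneg_left h3 (norm_nonneg _)
  have h5 : ‖proj (cell X z)‖ * ‖A * proj (cell X w)‖ ≤ 1 * ‖A * proj (cell X w)‖ :=
    mul_le_mul_of_nonneg_right h1 (norm_nonneg _)
  linarith

theorem mem_ball (R : ℕ) (z : Z X) (h : {w | dZ X z w ≤ R}.Finite) (w : Z X) :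
    w ∈ h.toFinset ↔ dZ X z w ≤ R := by
  rw [Set.Finite.mem_toFinset]
  rfl

/-- the neighbourhood of a finite set -/
theorem nbh (h2 : St_Geo) (R : ℕ) (F : Finset (Z X)) :
    ∃ F' : Finset (Z X), (∀ z ∈ F, z ∈ F') ∧ ∀ z ∈ F, ∀ w, dZ X z w ≤ R → w ∈ F' := by
  obtain ⟨B, hB⟩ := h2 X R
  refine ⟨F ∪ F.biUnion fun z => (hB z).1.toFinset, fun z hz => Finset.mem_union_left _ hz, ?_⟩
  intro z hz w hw
  refine Finset.mem_union_right _ ?_
  rw [Finset.mem_biUnion]
  exact ⟨z, hz, (mem_ball X R z (hB z).1 w).2 hw⟩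

end IAlgG

theorem pr_AlgG (h1 : St_Met) (h2 : St_Geo) (h3 : St_AlgR) : St_AlgG := by
  intro X S T T' hS hT hT'
  obtain ⟨c, hc⟩ := hS
  refine ⟨⟨(h3 X T T' hT.1 hT'.1).1, ?_⟩, ⟨?_, ?_⟩, ⟨?_, ?_⟩⟩
  · intro ε hε
    obtain ⟨F, hF⟩ := hT.2 (ε / 2) (by linarith)
    obtain ⟨F', hF'⟩ := hT'.2 (ε / 2) (by linarith)
    refine ⟨F ∪ F', fun z w hzw => ?_⟩
    have a1 := hF z w (hzw.imp (fun h h' => h (Finset.mem_union_left _ h'))
      fun h h' => h (Finset.mem_union_left _ h'))
    have a2 := hF' z w (hzw.imp (fun h h' => h (Finset.mem_union_right _ h'))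
      fun h h' => h (Finset.mem_union_right _ h'))
    have a3 : proj (cell X z) ∘L (T + T') ∘L proj (cell X w) =
        proj (cell X z) ∘L T ∘L proj (cell X w) + proj (cell X z) ∘L T' ∘L proj (cell X w) := by
      show proj (cell X z) * ((T + T') * proj (cell X w)) =
        proj (cell X z) * (T * proj (cell X w)) + proj (cell X z) * (T' * proj (cell X w))
      rw [add_mul, mul_add]
    rw [a3]
    refine (norm_add_le _ _).trans ?_
    linarith
  · have e1 : S * T = (S - c • (1 : Op X)) * T + c • T := by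
      rw [sub_mul, smul_mul_assoc, one_mul, sub_add_cancel]
    rw [e1]
    exact (h3 X _ _ (h3 X _ _ hc hT.1).2.1 ((h3 X T T hT.1 hT.1).2.2.1 c)).1
  · intro ε hε
    have hT0 := norm_nonneg T
    obtain ⟨S1, ⟨⟨R, hR⟩, _⟩, hd⟩ := Metric.mem_closure_iff.1 hc (ε / (3 * (‖T‖ + 1)))
      (by positivity)
    obtain ⟨B, hB⟩ := h2 X R
    have hB0 : (0 : ℝ) ≤ B := Nat.cast_nonneg B
    have hS0 := norm_nonneg S1
    have hc0 := norm_nonneg c
    obtain ⟨F, hF⟩ := hT.2 (ε / (3 * ((‖S1‖ + 1) * (B + 1) * (‖c‖ + 1)))) (by positivity)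
    obtain ⟨F', hF1, hF2⟩ := IAlgG.nbh X h2 R F
    refine ⟨F', fun z w hzw => ?_⟩
    have hz' : ∀ z', dZ X z z' ≤ R → z' ∉ F ∨ w ∉ F := by
      intro z' hz'
      rcases hzw with h | h
      · left
        intro h'
        apply h
        refine hF2 z' h' z ?_
        rw [(h1 X z' z z).2.2.1]
        exact hz'
      · right
        intro h'
        exact h (hF1 w h')
    have hz0 : z ∉ F ∨ w ∉ F := hz' z (by rw [(h1 X z z z).1]; exact Nat.zero_le R)
    have b1 : ‖proj (cell X z) * ((S - c • (1 : Op X) - S1) * T * proj (cell X w))‖ ≤ ε / 3 := by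
      refine (IAlgG.blk_le X _ z w).trans ?_
      refine (norm_mul_le _ _).trans ?_
      rw [dist_eq_norm] at hd
      calc ‖S - c • (1 : Op X) - S1‖ * ‖T‖ ≤ ε / (3 * (‖T‖ + 1)) * (‖T‖ + 1) :=
            mul_le_mul hd.le (by linarith) hT0 (by positivity)
        _ = ε / 3 := by field_simp
    have b2 := IAlgG.estL X S1 T R hR z w (hB z).1.toFinset (IAlgG.mem_ball X R z (hB z).1)
      (ε / (3 * ((‖S1‖ + 1) * (B + 1) * (‖c‖ + 1)))) (fun z' hz'' =>
        hF z' w (hz' z' ((IAlgG.mem_ball X R z (hB z).1 z').1 hz'')))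
    have hcard : (((hB z).1.toFinset.card : ℕ) : ℝ) ≤ B := by
      have := (hB z).2
      rw [Set.ncard_eq_toFinset_card _ (hB z).1] at this
      exact_mod_cast this
    have b2' : ‖proj (cell X z) * (S1 * T * proj (cell X w))‖ ≤ ε / 3 := by
      refine b2.trans ?_
      calc ‖S1‖ * (((hB z).1.toFinset.card : ℕ) *
              (ε / (3 * ((‖S1‖ + 1) * (B + 1) * (‖c‖ + 1)))))
          ≤ (‖S1‖ + 1) * ((B + 1) * (ε / (3 * ((‖S1‖ + 1) * (B + 1) * (‖c‖ + 1))))) := by
            gcongr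
            · linarith
            · linarith
        _ = ε / 3 / (‖c‖ + 1) := by field_simp
        _ ≤ ε / 3 := div_le_self (by positivity) (by linarith)
    have b3 : ‖c • (proj (cell X z) * (T * proj (cell X w)))‖ ≤ ε / 3 := by
      rw [norm_smul]
      have h5 := hF z w hz0
      change ‖proj (cell X z) * (T * proj (cell X w))‖ ≤ _ at h5
      calc ‖c‖ * ‖proj (cell X z) * (T * proj (cell X w))‖
          ≤ (‖c‖ + 1) * (ε / (3 * ((‖S1‖ + 1) * (B + 1) * (‖c‖ + 1)))) := by
            gcongr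
            linarith
        _ = ε / 3 / ((‖S1‖ + 1) * (B + 1)) := by field_simp
        _ ≤ ε / 3 := div_le_self (by positivity) (by nlinarith)
    have e2 : proj (cell X z) ∘L (S * T) ∘L proj (cell X w) =
        proj (cell X z) * ((S - c • (1 : Op X) - S1) * T * proj (cell X w)) +
        proj (cell X z) * (S1 * T * proj (cell X w)) +
        c • (proj (cell X z) * (T * proj (cell X w))) := by
      show proj (cell X z) * (S * T * proj (cell X w)) = _
      rw [← mul_add, ← mul_smul_comm, ← mul_add, ← smul_mul_assoc, ← add_mul, ← add_mul]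
      congr 2
      rw [sub_mul, sub_mul, smul_mul_assoc, one_mul]
      abel
    rw [e2]
    refine (norm_add_le _ _).trans ?_
    have := norm_add_le (proj (cell X z) * ((S - c • (1 : Op X) - S1) * T * proj (cell X w)))
      (proj (cell X z) * (S1 * T * proj (cell X w)))
    linarith
  · have e1 : T * S = T * (S - c • (1 : Op X)) + c • T := by
      rw [mul_sub, mul_smul_comm, mul_one, sub_add_cancel]
    rw [e1]
    exact (h3 X _ _ (h3 X _ _ hT.1 hc).2.1 ((h3 X T T hT.1 hT.1).2.2.1 c)).1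
  · intro ε hε
    have hT0 := norm_nonneg T
    obtain ⟨S1, ⟨⟨R, hR⟩, _⟩, hd⟩ := Metric.mem_closure_iff.1 hc (ε / (3 * (‖T‖ + 1)))
      (by positivity)
    obtain ⟨B, hB⟩ := h2 X R
    have hB0 : (0 : ℝ) ≤ B := Nat.cast_nonneg B
    have hS0 := norm_nonneg S1
    have hc0 := norm_nonneg c
    obtain ⟨F, hF⟩ := hT.2 (ε / (3 * ((‖S1‖ + 1) * (B + 1) * (‖c‖ + 1)))) (by positivity)
    obtain ⟨F', hF1, hF2⟩ := IAlgG.nbh X h2 R F
    refine ⟨F', fun z w hzw => ?_⟩
    have hw' : ∀ w', dZ X w w' ≤ R → z ∉ F ∨ w' ∉ F := by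
      intro w' hw'
      rcases hzw with h | h
      · left
        intro h'
        exact h (hF1 z h')
      · right
        intro h'
        apply h
        refine hF2 w' h' w ?_
        rw [(h1 X w' w w).2.2.1]
        exact hw'
    have hw0 : z ∉ F ∨ w ∉ F := hw' w (by rw [(h1 X w w w).1]; exact Nat.zero_le R)
    have b1 : ‖proj (cell X z) * (T * (S - c • (1 : Op X) - S1) * proj (cell X w))‖ ≤ ε / 3 := by
      refine (IAlgG.blk_le X _ z w).trans ?_
      refine (norm_mul_le _ _).trans ?_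
      rw [dist_eq_norm] at hd
      calc ‖T‖ * ‖S - c • (1 : Op X) - S1‖ ≤ (‖T‖ + 1) * (ε / (3 * (‖T‖ + 1))) :=
            mul_le_mul (by linarith) hd.le (norm_nonneg _) (by positivity)
        _ = ε / 3 := by field_simp
    have b2 := IAlgG.estR X h1 S1 T R hR z w (hB w).1.toFinset (IAlgG.mem_ball X R w (hB w).1)
      (ε / (3 * ((‖S1‖ + 1) * (B + 1) * (‖c‖ + 1)))) (fun w' hw'' =>
        hF z w' (hw' w' ((IAlgG.mem_ball X R w (hB w).1 w').1 hw'')))
    have hcard : (((hB w).1.toFinset.card : ℕ) : ℝ) ≤ B := by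
      have := (hB w).2
      rw [Set.ncard_eq_toFinset_card _ (hB w).1] at this
      exact_mod_cast this
    have b2' : ‖proj (cell X z) * (T * S1 * proj (cell X w))‖ ≤ ε / 3 := by
      refine b2.trans ?_
      calc ((((hB w).1.toFinset.card : ℕ) : ℝ) *
              (ε / (3 * ((‖S1‖ + 1) * (B + 1) * (‖c‖ + 1))))) * ‖S1‖
          ≤ ((B + 1) * (ε / (3 * ((‖S1‖ + 1) * (B + 1) * (‖c‖ + 1))))) * (‖S1‖ + 1) := by
            gcongr
            · linarith
            · linarith
        _ = ε / 3 / (‖c‖ + 1) := by field_simp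
        _ ≤ ε / 3 := div_le_self (by positivity) (by linarith)
    have b3 : ‖c • (proj (cell X z) * (T * proj (cell X w)))‖ ≤ ε / 3 := by
      rw [norm_smul]
      have h5 := hF z w hw0
      change ‖proj (cell X z) * (T * proj (cell X w))‖ ≤ _ at h5
      calc ‖c‖ * ‖proj (cell X z) * (T * proj (cell X w))‖
          ≤ (‖c‖ + 1) * (ε / (3 * ((‖S1‖ + 1) * (B + 1) * (‖c‖ + 1)))) := by
            gcongr
            linarith
        _ = ε / 3 / ((‖S1‖ + 1) * (B + 1)) := by field_simp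
        _ ≤ ε / 3 := div_le_self (by positivity) (by nlinarith)
    have e2 : proj (cell X z) ∘L (T * S) ∘L proj (cell X w) =
        proj (cell X z) * (T * (S - c • (1 : Op X) - S1) * proj (cell X w)) +
        proj (cell X z) * (T * S1 * proj (cell X w)) +
        c • (proj (cell X z) * (T * proj (cell X w))) := by
      show proj (cell X z) * (T * S * proj (cell X w)) = _
      rw [← mul_add, ← mul_smul_comm, ← mul_add, ← smul_mul_assoc, ← add_mul, ← add_mul]
      congr 2
      rw [mul_sub, mul_sub, mul_smul_comm, mul_one]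
      abel
    rw [e2]
    refine (norm_add_le _ _).trans ?_
    have := norm_add_le (proj (cell X z) * (T * (S - c • (1 : Op X) - S1) * proj (cell X w)))
      (proj (cell X z) * (T * S1 * proj (cell X w)))
    linarith

end Pool.Agent.Work.MP_1ddc88_an
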