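import Pool.Agent.Work.MP_1ddc88_an.Stmts

/-!
# MP_1ddc88_an, item AlgK: compact operators are ghosts
-/

set_option autoImplicit false

open Filter Topology
open scoped ENNReal Classical

namespace Pool.Agent.Work.MP_1ddc88_an

noncomputable section

namespace IAlgK

theorem tail {ι : Type} (y : L2 ι) (ε : ℝ) (hε : 0 < ε) :
    ∃ F : Finset ι, ∀ F' : Finset ι, F ⊆ F' → ‖proj ((F' : Set ι)ᶜ) y‖ ≤ ε := by
  have h := tendsto_tsum_compl_atTop_zero (fun p => ‖y p‖ ^ 2)
  have h2 := h.eventually (Iio_mem_nhds (show (0 : ℝ) < ε ^ 2 by positivity))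
  obtain ⟨F, hF⟩ := eventually_atTop.1 h2
  refine ⟨F, fun F' hF' => ?_⟩
  have h3 : ∑' a : {x // x ∉ F'}, ‖y a‖ ^ 2 < ε ^ 2 := hF F' hF'
  have h4 : ‖proj ((F' : Set ι)ᶜ) y‖ ^ 2 = ∑' a : {x // x ∉ F'}, ‖y a‖ ^ 2 := by
    rw [proj_norm_sq]
    have h5 : (∑' a : {x // x ∉ F'}, ‖y a‖ ^ 2) =
        ∑' a : (((F' : Set ι)ᶜ : Set ι) : Type), ‖y a‖ ^ 2 := rfl
    rw [h5, tsum_subtype (((F' : Set ι)ᶜ : Set ι)) (fun p => ‖y p‖ ^ 2)]
    rfl
  have h6 := norm_nonneg (proj ((F' : Set ι)ᶜ) y)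
  nlinarith

theorem compact_tail {ι : Type} (T : L2 ι →L[ℂ] L2 ι) (hT : IsCompactOperator T) (ε : ℝ)
    (hε : 0 < ε) : ∃ F : Finset ι, ‖proj ((F : Set ι)ᶜ) * T‖ ≤ ε := by
  have hc := (IsCompactOperator.isCompact_closure_image_closedBall
    (f := (T : L2 ι →ₗ[ℂ] L2 ι)) hT 1).totallyBounded
  rw [Metric.totallyBounded_iff] at hc
  obtain ⟨t, htf, hcov⟩ := hc (ε / 2) (by positivity)
  choose G hG using fun y : L2 ι => tail y (ε / 2) (by positivity)
  refine ⟨htf.toFinset.biUnion G, ?_⟩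
  refine ContinuousLinearMap.opNorm_le_of_unit_norm hε.le fun ξ hξ => ?_
  have h1 : T ξ ∈ closure ((T : L2 ι →ₗ[ℂ] L2 ι) '' Metric.closedBall 0 1) := by
    apply subset_closure
    exact ⟨ξ, by rw [mem_closedBall_zero_iff]; exact hξ.le, rfl⟩
  obtain ⟨y, hyt, hy⟩ := Set.mem_iUnion₂.1 (hcov h1)
  rw [Metric.mem_ball, dist_eq_norm] at hy
  have h2 : ‖proj (((htf.toFinset.biUnion G : Finset ι) : Set ι)ᶜ) y‖ ≤ ε / 2 := by
    apply hG y
    intro p hp
    rw [Finset.mem_biUnion]
    exact ⟨y, by rw [Set.Finite.mem_toFinset]; exact hyt, hp⟩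
  have h3 : ‖proj (((htf.toFinset.biUnion G : Finset ι) : Set ι)ᶜ) (T ξ - y)‖ ≤ ε / 2 := by
    refine (ContinuousLinearMap.le_opNorm _ _).trans ?_
    have h4 := proj_norm_le (((htf.toFinset.biUnion G : Finset ι) : Set ι)ᶜ)
    have h5 := norm_nonneg (T ξ - y)
    nlinarith
  have h6 : (proj (((htf.toFinset.biUnion G : Finset ι) : Set ι)ᶜ) * T) ξ =
      proj (((htf.toFinset.biUnion G : Finset ι) : Set ι)ᶜ) (T ξ - y) +
      proj (((htf.toFinset.biUnion G : Finset ι) : Set ι)ᶜ) y := by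
    rw [map_sub, sub_add_cancel]
    rfl
  rw [h6]
  refine (norm_add_le _ _).trans ?_
  linarith

theorem proj_inner {ι : Type} (S : Set ι) (a ξ : L2 ι) :
    inner ℂ a (proj S ξ) = inner ℂ (proj S a) ξ := by
  rw [lp.inner_eq_tsum, lp.inner_eq_tsum]
  congr 1
  funext p
  rw [proj_apply, proj_apply]
  split_ifs <;> simp

theorem row_tail {ι : Type} (T : L2 ι →L[ℂ] L2 ι) (p : ι) (δ : ℝ) (hδ : 0 < δ) :
    ∃ F : Finset ι, ∀ F' : Finset ι, F ⊆ F' → ∀ ξ : L2 ι,
      ‖T (proj ((F' : Set ι)ᶜ) ξ) p‖ ≤ δ * ‖ξ‖ := by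
  obtain ⟨F, hF⟩ := tail (ContinuousLinearMap.adjoint T (lp.single 2 p (1 : ℂ))) δ hδ
  refine ⟨F, fun F' hF' ξ => ?_⟩
  have h1 : T (proj ((F' : Set ι)ᶜ) ξ) p =
      inner ℂ (proj ((F' : Set ι)ᶜ) (ContinuousLinearMap.adjoint T (lp.single 2 p (1 : ℂ)))) ξ := by
    rw [← proj_inner, ContinuousLinearMap.adjoint_inner_left, lp.inner_single_left]
    simp
  rw [h1]
  refine (norm_inner_le_norm _ _).trans ?_
  exact mul_le_mul_of_nonneg_right (hF F' hF') (norm_nonneg _)

theorem fin_tail {ι : Type} (T : L2 ι →L[ℂ] L2 ι) (F : Finset ι) (ε : ℝ) (hε : 0 < ε) :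
    ∃ F' : Finset ι, ‖proj (F : Set ι) * T * proj ((F' : Set ι)ᶜ)‖ ≤ ε := by
  have hδ : 0 < ε / ((F.card : ℝ) + 1) := by positivity
  choose G hG using fun p : ι => row_tail T p (ε / ((F.card : ℝ) + 1)) hδ
  refine ⟨F.biUnion G, ?_⟩
  refine ContinuousLinearMap.opNorm_le_of_unit_norm hε.le fun ξ hξ => ?_
  have h1 : ‖(proj (F : Set ι) * T * proj (((F.biUnion G : Finset ι) : Set ι)ᶜ)) ξ‖ ^ 2 ≤
      ε ^ 2 := by
    have e1 : (proj (F : Set ι) * T * proj (((F.biUnion G : Finset ι) : Set ι)ᶜ)) ξ =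
      proj (F : Set ι) (T (proj (((F.biUnion G : Finset ι) : Set ι)ᶜ) ξ)) := rfl
    rw [e1, proj_norm_sq]
    have e3 : ∀ p ∈ F, ‖T (proj (((F.biUnion G : Finset ι) : Set ι)ᶜ) ξ) p‖ ^ 2 ≤
        (ε / ((F.card : ℝ) + 1)) ^ 2 := by
      intro p hp
      have e4 := hG p (F.biUnion G) (Finset.subset_biUnion_of_mem G hp) ξ
      rw [hξ, mul_one] at e4
      exact pow_le_pow_left₀ (norm_nonneg _) e4 2
    refine le_trans (le_of_eq (tsum_eq_sum (s := F) ?_)) ?_
    · intro p hp
      rw [if_neg (fun h => hp (Finset.mem_coe.1 h))]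
    refine (Finset.sum_le_sum (g := fun _ => (ε / ((F.card : ℝ) + 1)) ^ 2) ?_).trans ?_
    · intro p hp
      rw [if_pos (Finset.mem_coe.2 hp)]
      exact e3 p hp
    rw [Finset.sum_const, nsmul_eq_mul, div_pow, mul_div_assoc', div_le_iff₀ (by positivity)]
    have e5 : (0 : ℝ) ≤ F.card := Nat.cast_nonneg _
    have e6 : 0 < ε ^ 2 := by positivity
    nlinarith [mul_nonneg e5 e6.le, mul_nonneg (mul_nonneg e5 e5) e6.le]
  exact (sq_le_sq₀ (norm_nonneg _) hε.le).1 h1

/-- A compact operator is approximated by its finite corners. -/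
theorem corner {ι : Type} (T : L2 ι →L[ℂ] L2 ι) (hT : IsCompactOperator T) (ε : ℝ)
    (hε : 0 < ε) : ∃ F F' : Finset ι,
    ‖T - proj (F : Set ι) * T * proj (F' : Set ι)‖ ≤ ε := by
  obtain ⟨F, hF⟩ := compact_tail T hT (ε / 2) (by positivity)
  obtain ⟨F', hF'⟩ := fin_tail T F (ε / 2) (by positivity)
  refine ⟨F, F', ?_⟩
  have h1 : T - proj (F : Set ι) * T * proj (F' : Set ι) =
      proj ((F : Set ι)ᶜ) * T + proj (F : Set ι) * T * proj ((F' : Set ι)ᶜ) := by
    rw [← one_sub_proj, ← one_sub_proj]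
    noncomm_ring
  rw [h1]
  refine (norm_add_le _ _).trans ?_
  linarith

end IAlgK

open IAlgK in
theorem pr_AlgK : St_AlgK := by
  intro X T hT
  have hT' : IsCompactOperator T := hT
  refine ⟨?_, ?_⟩
  · refine Metric.mem_closure_iff.2 fun ε hε => ?_
    obtain ⟨F, F', hF⟩ := corner T hT' (ε / 2) (by positivity)
    refine ⟨proj (F : Set (Ix X)) * T * proj (F' : Set (Ix X)), ⟨?_, ?_⟩, ?_⟩
    · -- finite propagation
      refine ⟨(F ×ˢ F').sup fun x => dZ X x.1.1 x.2.1, ?_⟩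
      intro ξ p hp
      have hpF : p ∈ F := by
        by_contra h
        apply hp
        show proj (F : Set (Ix X)) (T (proj (F' : Set (Ix X)) ξ)) p = 0
        rw [proj_apply, if_neg (fun h' => h (Finset.mem_coe.1 h'))]
      have hq : ∃ q ∈ F', ξ q ≠ 0 := by
        by_contra h
        apply hp
        have h0 : proj (F' : Set (Ix X)) ξ = 0 := by
          ext q
          rw [proj_apply]
          split_ifs with h1
          · by_contra h2
            exact h ⟨q, Finset.mem_coe.1 h1, h2⟩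
          · rfl
        show proj (F : Set (Ix X)) (T (proj (F' : Set (Ix X)) ξ)) p = 0
        rw [h0, map_zero, map_zero]
        rfl
      obtain ⟨q, hqF, hq0⟩ := hq
      refine ⟨q, hq0, ?_⟩
      exact Finset.le_sup (f := fun x : Ix X × Ix X => dZ X x.1.1 x.2.1)
        (Finset.mk_mem_product hpF hqF)
    · -- local compactness
      have hc : IsCompactOperator (proj (F : Set (Ix X)) * T * proj (F' : Set (Ix X)) : Op X) :=
        (hT'.comp_clm (proj (F' : Set (Ix X)))).clm_comp (proj (F : Set (Ix X)))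
      intro z
      exact ⟨hc.comp_clm (proj (cell X z)), hc.clm_comp (proj (cell X z))⟩
    · rw [dist_eq_norm]
      linarith
  · intro ε hε
    obtain ⟨F, F', hF⟩ := corner T hT' ε hε
    refine ⟨F.image Prod.fst ∪ F'.image Prod.fst, ?_⟩
    intro z w hzw
    have h0 : proj (cell X z) * (proj (F : Set (Ix X)) * T * proj (F' : Set (Ix X))) *
        proj (cell X w) = 0 := by
      rcases hzw with hz | hw
      · have e1 : cell X z ∩ (F : Set (Ix X)) = ∅ := by
          ext p
          simp only [Set.mem_inter_iff, Set.mem_empty_iff_false, iff_false, not_and]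
          intro h1 h2
          apply hz
          rw [Finset.mem_union]
          left
          rw [Finset.mem_image]
          exact ⟨p, Finset.mem_coe.1 h2, h1⟩
        have e2 : proj (cell X z) * proj (F : Set (Ix X)) = 0 := by
          rw [proj_mul, e1, proj_empty]
        rw [← mul_assoc, ← mul_assoc, e2, zero_mul, zero_mul, zero_mul]
      · have e1 : (F' : Set (Ix X)) ∩ cell X w = ∅ := by
          ext p
          simp only [Set.mem_inter_iff, Set.mem_empty_iff_false, iff_false, not_and]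
          intro h1 h2
          apply hw
          rw [Finset.mem_union]
          right
          rw [Finset.mem_image]
          exact ⟨p, Finset.mem_coe.1 h1, h2⟩
        have e2 : proj (F' : Set (Ix X)) * proj (cell X w) = 0 := by
          rw [proj_mul, e1, proj_empty]
        rw [mul_assoc, mul_assoc, e2, mul_zero, mul_zero]
    have h1 : proj (cell X z) ∘L T ∘L proj (cell X w) =
        proj (cell X z) * (T - proj (F : Set (Ix X)) * T * proj (F' : Set (Ix X))) *
          proj (cell X w) := by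
      rw [mul_sub, sub_mul, h0, sub_zero]
      rfl
    rw [h1]
    refine (norm_mul_le _ _).trans ?_
    have h2 := norm_mul_le (proj (cell X z))
      (T - proj (F : Set (Ix X)) * T * proj (F' : Set (Ix X)))
    have h3 := proj_norm_le (cell X z)
    have h4 := proj_norm_le (cell X w)
    have h5 := norm_nonneg (proj (cell X z))
    have h6 := norm_nonneg (proj (cell X w))
    have h7 := norm_nonneg (T - proj (F : Set (Ix X)) * T * proj (F' : Set (Ix X)))
    have h8 := norm_nonneg (proj (cell X z) * (T - proj (F : Set (Ix X)) * T *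
      proj (F' : Set (Ix X))))
    calc _ ≤ ‖proj (cell X z) * (T - proj (F : Set (Ix X)) * T * proj (F' : Set (Ix X)))‖ * 1 :=
          mul_le_mul_of_nonneg_left h4 h8
      _ ≤ 1 * ‖T - proj (F : Set (Ix X)) * T * proj (F' : Set (Ix X))‖ := by
          rw [mul_one]
          exact h2.trans (mul_le_mul_of_nonneg_right h3 h7)
      _ ≤ ε := by rw [one_mul]; exact hF

end

end Pool.Agent.Work.MP_1ddc88_an
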