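import Pool.Agent.Work.MP_1ddc88_an.Stmts

/-!
# MP_1ddc88_an, item AlgR: the Roe algebra is an algebra, closed under adjoints
-/

set_option autoImplicit false

open Filter Topology
open scoped ENNReal Classical

namespace Pool.Agent.Work.MP_1ddc88_an

noncomputable section

namespace IAlgR

/-- The adjoint of a compact operator is compact. -/
theorem adj_compact {E : Type} [NormedAddCommGroup E] [InnerProductSpace ℂ E] [CompleteSpace E]
    (T : E →L[ℂ] E) (hT : IsCompactOperator T) :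
    IsCompactOperator (ContinuousLinearMap.adjoint T) := by
  set A := ContinuousLinearMap.adjoint T with hA
  have h1 : IsCompactOperator (T ∘L A) := hT.comp_clm A
  have h2 : IsCompact (closure (((T ∘L A : E →L[ℂ] E) : E →ₗ[ℂ] E) '' Metric.closedBall 0 1)) :=
    IsCompactOperator.isCompact_closure_image_closedBall h1 1
  have h3 : TotallyBounded (((T ∘L A : E →L[ℂ] E) : E →ₗ[ℂ] E) '' Metric.closedBall 0 1) :=
    h2.totallyBounded.subset subset_closure
  refine (isCompactOperator_iff_isCompact_closure_image_closedBall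
    (A : E →ₗ[ℂ] E) one_pos).2 ?_
  refine TotallyBounded.isCompact_of_isClosed (TotallyBounded.closure ?_) isClosed_closure
  rw [Metric.totallyBounded_iff]
  intro ε hε
  obtain ⟨t, hts, htf, hcov⟩ := Metric.finite_approx_of_totallyBounded h3 (ε ^ 2 / 4) (by positivity)
  have hex : ∀ y ∈ t, ∃ x, ‖x‖ ≤ 1 ∧ T (A x) = y := by
    intro y hy
    obtain ⟨x, hx, hxy⟩ := hts hy
    exact ⟨x, by simpa using hx, hxy⟩
  choose! g hg1 hg2 using hex
  refine ⟨(fun y => A (g y)) '' t, htf.image _, ?_⟩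
  rintro _ ⟨x, hx, rfl⟩
  have hx1 : ‖x‖ ≤ 1 := by simpa using hx
  obtain ⟨y, hy, hxy⟩ := Set.mem_iUnion₂.1 (hcov ⟨x, hx, rfl⟩)
  refine Set.mem_iUnion₂.2 ⟨A (g y), ⟨y, hy, rfl⟩, ?_⟩
  rw [Metric.mem_ball, dist_eq_norm] at hxy ⊢
  have e1 : T (A (x - g y)) = T (A x) - y := by
    rw [map_sub, map_sub, hg2 y hy]
  have e2 : ‖T (A (x - g y))‖ < ε ^ 2 / 4 := by
    rw [e1]; exact hxy
  have e3 : ‖x - g y‖ ≤ 2 := by
    have := norm_sub_le x (g y)
    have := hg1 y hy
    linarith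
  have e4 : ‖A (x - g y)‖ ^ 2 ≤ ‖x - g y‖ * ‖T (A (x - g y))‖ := by
    have h5 : ‖A (x - g y)‖ ^ 2 = RCLike.re (inner ℂ (A (x - g y)) (A (x - g y))) :=
      (inner_self_eq_norm_sq (𝕜 := ℂ) (A (x - g y))).symm
    rw [h5, hA, ContinuousLinearMap.adjoint_inner_left, ← hA]
    exact (RCLike.re_le_norm _).trans (norm_inner_le_norm _ _)
  have e5 : ‖A (x - g y)‖ ^ 2 < ε ^ 2 := by
    have h6 : ‖x - g y‖ * ‖T (A (x - g y))‖ ≤ 2 * (ε ^ 2 / 4) :=
      mul_le_mul e3 e2.le (norm_nonneg _) (by norm_num)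
    have h7 : 0 < ε ^ 2 := by positivity
    linarith
  have e6 : ‖A (x - g y)‖ < ε := lt_of_pow_lt_pow_left₀ 2 hε.le e5
  have e7 : (A : E →ₗ[ℂ] E) x - A (g y) = A (x - g y) := (map_sub A x (g y)).symm
  rw [e7]
  exact e6

/-- The projections are self adjoint. -/
theorem adj_proj {ι : Type} (S : Set ι) : ContinuousLinearMap.adjoint (proj S) = proj S := by
  symm
  rw [ContinuousLinearMap.eq_adjoint_iff]
  intro x y
  rw [lp.inner_eq_tsum, lp.inner_eq_tsum]
  congr 1
  funext p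
  rw [proj_apply, proj_apply]
  split_ifs with h
  · rfl
  · rw [inner_zero_left, inner_zero_right]

/-- Adjoints have the same propagation. -/
theorem adj_finProp (X : Expander) (h1 : St_Met) (R : ℕ) (T : Op X) (hT : FinProp X R T) :
    FinProp X R (ContinuousLinearMap.adjoint T) := by
  intro ξ p hp
  have e1 : inner ℂ (T (lp.single 2 p (1 : ℂ))) ξ = ContinuousLinearMap.adjoint T ξ p := by
    rw [← ContinuousLinearMap.adjoint_inner_right, lp.inner_single_left]
    simp
  rw [← e1, lp.inner_eq_tsum] at hp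
  obtain ⟨q, hq⟩ : ∃ q, inner ℂ (T (lp.single 2 p (1 : ℂ)) q) (ξ q) ≠ 0 := by
    by_contra hcon
    push Not at hcon
    apply hp
    rw [tsum_congr hcon]
    exact tsum_zero
  have hξ : ξ q ≠ 0 := by
    intro h0
    apply hq
    rw [h0, inner_zero_right]
  have hTq : T (lp.single 2 p (1 : ℂ)) q ≠ 0 := by
    intro h0
    apply hq
    rw [h0, inner_zero_left]
  obtain ⟨r, hr, hd⟩ := hT _ q hTq
  have hrp : r = p := by
    by_contra hne
    apply hr
    rw [lp.coeFn_single]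
    exact Pi.single_eq_of_ne hne _
  refine ⟨q, hξ, ?_⟩
  rw [hrp] at hd
  have := (h1 X p.1 q.1 q.1).2.2.1
  rw [this]
  exact hd

/-- Adjoints are locally compact. -/
theorem adj_locComp (X : Expander) (T : Op X) (hT : LocComp X T) :
    LocComp X (ContinuousLinearMap.adjoint T) := by
  intro z
  obtain ⟨h1, h2⟩ := hT z
  constructor
  · have h3 := adj_compact _ h2
    rw [ContinuousLinearMap.adjoint_comp, adj_proj] at h3
    exact h3
  · have h3 := adj_compact _ h1
    rw [ContinuousLinearMap.adjoint_comp, adj_proj] at h3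
    exact h3

theorem add_locComp (X : Expander) (S T : Op X) (hS : LocComp X S) (hT : LocComp X T) :
    LocComp X (S + T) := by
  intro z
  obtain ⟨h1, h2⟩ := hS z
  obtain ⟨h3, h4⟩ := hT z
  constructor
  · rw [ContinuousLinearMap.add_comp]
    exact h1.add h3
  · rw [ContinuousLinearMap.comp_add]
    exact h2.add h4

theorem smul_locComp (X : Expander) (c : ℂ) (S : Op X) (hS : LocComp X S) :
    LocComp X (c • S) := by
  intro z
  obtain ⟨h1, h2⟩ := hS z
  constructor
  · rw [ContinuousLinearMap.smul_comp]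
    exact h1.smul c
  · rw [ContinuousLinearMap.comp_smul]
    exact h2.smul c

end IAlgR

open IAlgR

/-- **AlgR.** -/
theorem pr_AlgR (h1 : St_Met) (h2 : St_FPC) (h3 : St_LC) : St_AlgR := by
  intro X S T hS hT
  refine ⟨?_, ?_, ?_, ?_⟩
  · refine map_mem_closure₂ continuous_add hS hT ?_
    rintro A ⟨⟨R, hA⟩, hA'⟩ B ⟨⟨R', hB⟩, hB'⟩
    exact ⟨⟨_, (h2 X R R' A B hA hB).2.1⟩, add_locComp X A B hA' hB'⟩
  · refine map_mem_closure₂ continuous_mul hS hT ?_
    rintro A ⟨⟨R, hA⟩, hA'⟩ B ⟨⟨R', hB⟩, hB'⟩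
    exact ⟨⟨_, (h2 X R R' A B hA hB).1⟩, h3 X R A B hA hB'⟩
  · intro c
    refine map_mem_closure (continuous_const_smul c) hS ?_
    rintro A ⟨⟨R, hA⟩, hA'⟩
    exact ⟨⟨R, (h2 X R R A A hA hA).2.2.2 c⟩, smul_locComp X c A hA'⟩
  · refine map_mem_closure (ContinuousLinearMap.adjoint (𝕜 := ℂ) (E := Hs X) (F := Hs X)).continuous hS ?_
    rintro A ⟨⟨R, hA⟩, hA'⟩
    exact ⟨⟨R, adj_finProp X h1 R A hA⟩, adj_locComp X A hA'⟩

end

end Pool.Agent.Work.MP_1ddc88_an
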