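import Pool.Agent.Work.MP_1ddc88_an.Stmts

/-!
# MP_1ddc88_an, item Comm: operators of the Roe algebra almost commute with the blocks
-/

set_option autoImplicit false

open Filter Topology
open scoped ENNReal Classical

namespace Pool.Agent.Work.MP_1ddc88_an

namespace IComm

theorem norm_compl (X : Expander) (i : ℕ) : ‖1 - Q X i‖ ≤ 1 := by
  unfold Q
  rw [one_sub_proj]
  exact proj_norm_le _

theorem dZ_gt (X : Expander) (z w : Z X) (h : z.1.1 ≠ w.1.1) : w.1.1 < dZ X z w := by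
  unfold dZ dX
  rw [dif_neg h]
  omega

/-- an operator of finite propagation respects the far blocks -/
theorem block (X : Expander) (R : ℕ) (S : Op X) (hS : FinProp X R S) (i : ℕ) (hi : R < i) :
    (1 - Q X i) * S * Q X i = 0 := by
  apply op_ext
  intro ξ p
  have h1 : ((1 - Q X i) * S * Q X i) ξ p = S (Q X i ξ) p - Q X i (S (Q X i ξ)) p := by
    simp [sub_mul]
  rw [h1, Q_apply]
  have h0 : (0 : Op X) ξ p = 0 := by simp
  rw [h0]
  by_cases hp : p.1.1.1 = i
  · rw [if_pos hp, sub_self]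
  · rw [if_neg hp, sub_zero]
    by_contra hne
    obtain ⟨q, hq, hd⟩ := hS (Q X i ξ) p hne
    rw [Q_apply] at hq
    have hqi : q.1.1.1 = i := by
      by_contra h
      rw [if_neg h] at hq
      exact hq rfl
    have h2 := dZ_gt X p.1 q.1 (by rw [hqi]; exact hp)
    rw [hqi] at h2
    omega

theorem ring_aux {A : Type*} [Ring A] (a b t c s : A) (h1 : a * c * b = 0)
    (h2 : a * s * b = 0) : a * t * b = a * (t - c - s) * b := by
  rw [mul_sub a (t - c) s, mul_sub a t c, sub_mul, sub_mul, h1, h2, sub_zero, sub_zero]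

theorem split (X : Expander) (i : ℕ) (c : ℂ) (T S : Op X)
    (h : (1 - Q X i) * S * Q X i = 0) :
    (1 - Q X i) * T * Q X i = (1 - Q X i) * (T - c • (1 : Op X) - S) * Q X i := by
  have h1 : (1 - Q X i) * (c • (1 : Op X)) * Q X i = 0 := by
    rw [mul_smul_comm, smul_mul_assoc, mul_one, sub_mul, one_mul, Q_idem, sub_self, smul_zero]
  exact ring_aux _ _ _ _ _ h1 h

end IComm

open IComm in
theorem pr_Comm : St_Comm := by
  intro X T hT
  obtain ⟨c, hc⟩ := hT
  rw [Metric.tendsto_atTop]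
  intro ε hε
  obtain ⟨S, ⟨⟨R, hR⟩, -⟩, hS⟩ := Metric.mem_closure_iff.1 hc ε hε
  refine ⟨R + 1, fun i hi => ?_⟩
  rw [Real.dist_eq, sub_zero, abs_of_nonneg (norm_nonneg _),
    split X i c T S (block X R S hR i (by omega))]
  rw [dist_eq_norm] at hS
  calc ‖(1 - Q X i) * (T - c • (1 : Op X) - S) * Q X i‖
      ≤ ‖(1 - Q X i) * (T - c • (1 : Op X) - S)‖ * ‖Q X i‖ := norm_mul_le _ _
    _ ≤ (‖1 - Q X i‖ * ‖T - c • (1 : Op X) - S‖) * ‖Q X i‖ :=
        mul_le_mul_of_nonneg_right (norm_mul_le _ _) (norm_nonneg _)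
    _ ≤ (1 * ‖T - c • (1 : Op X) - S‖) * 1 :=
        mul_le_mul (mul_le_mul_of_nonneg_right (norm_compl X i) (norm_nonneg _))
          (Q_norm_le X i) (norm_nonneg _) (by positivity)
    _ < ε := by rw [one_mul, mul_one]; exact hS

end Pool.Agent.Work.MP_1ddc88_an
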