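import Pool.Agent.Work.MP_1ddc88_an.Stmts2
import Pool.Agent.Work.MP_1ddc88_an.I_UG
import Pool.Agent.Work.MP_1ddc88_an.I_AP

/-! # MP_1ddc88_an, item Conv: eventually zero sequences give classes of the compact quotient -/

set_option autoImplicit false

open Filter Topology
open scoped ENNReal Classical

namespace Pool.Agent.Work.MP_1ddc88_an

noncomputable section

namespace IConv

/-- `proj F` is compact for a finite set `F` -/
theorem proj_compact {ι : Type} (F : Finset ι) : IsCompactOperator (proj (F : Set ι)) := by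
  induction F using Finset.induction_on with
  | empty =>
    rw [Finset.coe_empty, proj_empty]
    exact isCompactOperator_zero
  | insert a F ha ih =>
    rw [Finset.coe_insert, Set.insert_eq, proj_union _ _ (by
      rw [Set.disjoint_singleton_left]
      exact fun h => ha (Finset.mem_coe.1 h))]
    exact IsCompactOperator.add (IAP.proj_single_compact a) ih

theorem cw (h1 : St_PavF) (h2 : St_ShF) (h3 : St_ShP) (X : Expander) (a : ℕ → ℤ) (C i₀ : ℕ)
    (ha : ∀ i, |a i| ≤ (C : ℤ)) (h0 : ∀ i, i₀ ≤ i → a i = 0) (hu0 : u X (fun _ => 0) = 1) :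
    IsCompactOperator ((u X a * u X (fun i => -a i) - 1 : Op X)) := by
  obtain ⟨hPP, hSP, -, -, -, -, -⟩ := h3 X
  have hEq : u X a * u X (fun i => -a i) - u X (fun i => a i + -a i) =
      (Sh X a * Sh X (fun i => -a i) - Sh X (fun i => a i + -a i)) * Pav X := by
    have := IUG.alg (Pav X) (Sh X a) (Sh X (fun i => -a i)) (Sh X (fun i => a i + -a i)) hPP
      (hSP (fun i => -a i))
    exact this
  have e0 : (fun i => a i + -a i) = fun _ : ℕ => (0 : ℤ) := by funext i; ring
  have e1 : u X (fun i => a i + -a i) = 1 := by rw [e0]; exact hu0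
  rw [e1] at hEq
  rw [hEq]
  set F : Finset (Ix X) := (((Finset.range i₀).sigma
    fun i => (Finset.univ : Finset (Fin (X.N i)))) ×ˢ Finset.range C) ×ˢ {0} with hF
  have key : (Sh X a * Sh X (fun i => -a i) - Sh X (fun i => a i + -a i)) * Pav X =
      proj (F : Set (Ix X)) *
        ((Sh X a * Sh X (fun i => -a i) - Sh X (fun i => a i + -a i)) * Pav X) := by
    apply op_ext
    intro ξ p
    obtain ⟨⟨x, m⟩, k⟩ := p
    have hv : ((Sh X a * Sh X (fun i => -a i) - Sh X (fun i => a i + -a i)) * Pav X) ξ
        ((x, m), k) = if 0 ≤ (m : ℤ) - a x.1 then 0 else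
        -(if 0 ≤ (m : ℤ) - (a x.1 + -a x.1) then
          Pav X ξ ((x, ((m : ℤ) - (a x.1 + -a x.1)).toNat), k) else 0) :=
      IUG.defect h2 X a (fun i => -a i) (Pav X ξ) x m k
    show _ = proj (F : Set (Ix X)) (((Sh X a * Sh X (fun i => -a i) -
      Sh X (fun i => a i + -a i)) * Pav X) ξ) ((x, m), k)
    rw [proj_apply]
    by_cases hm : ((x, m), k) ∈ (F : Set (Ix X))
    · rw [if_pos hm]
    · rw [if_neg hm, hv]
      by_cases hg : 0 ≤ (m : ℤ) - a x.1
      · rw [if_pos hg]
      · rw [if_neg hg]
        have hk : k ≠ 0 := by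
          intro hk
          apply hm
          rw [Finset.mem_coe, hF, Finset.mem_product, Finset.mem_product, Finset.mem_sigma]
          have h5 := abs_le.1 (ha x.1)
          refine ⟨⟨⟨Finset.mem_range.2 ?_, Finset.mem_univ _⟩, Finset.mem_range.2 ?_⟩, ?_⟩
          · by_contra hle
            have := h0 x.1 (not_lt.1 hle)
            rw [this] at hg
            omega
          · show m < C
            omega
          · rw [Finset.mem_singleton]; exact hk
        have hz : ∀ y : Z X, Pav X ξ (y, k) = 0 := by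
          intro y
          rw [(h1 X).2]
          exact if_neg hk
        rw [hz]
        simp
  rw [key]
  exact IsCompactOperator.comp_clm (proj_compact F) _

end IConv

theorem pr_Conv (h1 : St_PavF) (h2 : St_ShF) (h3 : St_ShP) (h4 : St_UR) : St_Conv := by
  intro X a C ha h0
  obtain ⟨i₀, hi₀⟩ := eventually_atTop.1 h0
  have hb : ∀ i, |(fun i => -a i) i| ≤ (C : ℤ) := fun i => by
    show |-a i| ≤ _
    rw [abs_neg]; exact ha i
  have hu0 : u X (fun _ => 0) = 1 := (h4 X a C ha).2.2
  have c1 := IConv.cw h1 h2 h3 X a C i₀ ha hi₀ hu0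
  have c2 := IConv.cw h1 h2 h3 X (fun i => -a i) C i₀ hb (fun i hi => by
    show -a i = 0
    rw [hi₀ i hi, neg_zero]) hu0
  have e2 : (fun i => -(fun i => -a i) i) = a := by funext i; simp
  rw [e2] at c2
  haveI : Subsingleton (Fin (0 + 1)) := inferInstanceAs (Subsingleton (Fin 1))
  refine ⟨fun i j => ?_, stab X 0 (u X (fun i => -a i)), fun i j => ?_, fun i j => ?_, fun i j => ?_⟩
  · rw [Subsingleton.elim i 0, Subsingleton.elim j 0]
    simpa [stab] using (h4 X a C ha).2.1
  · rw [Subsingleton.elim i 0, Subsingleton.elim j 0]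
    simpa [stab] using (h4 X _ C hb).2.1
  · rw [Subsingleton.elim i 0, Subsingleton.elim j 0]
    have e : (stab X 0 (u X a) * stab X 0 (u X (fun i => -a i)) - 1) 0 0 =
        u X a * u X (fun i => -a i) - 1 := by
      rw [stab, stab, Matrix.diagonal_mul_diagonal]
      simp
    rw [e]
    exact c1
  · rw [Subsingleton.elim i 0, Subsingleton.elim j 0]
    have e : (stab X 0 (u X (fun i => -a i)) * stab X 0 (u X a) - 1) 0 0 =
        u X (fun i => -a i) * u X a - 1 := by
      rw [stab, stab, Matrix.diagonal_mul_diagonal]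
      simp
    rw [e]
    exact c2

end

end Pool.Agent.Work.MP_1ddc88_an
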