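import Pool.Agent.Work.MP_1ddc88_an.Stmts

/-!
# MP_1ddc88_an, item CpQ: the blocks of a compact operator tend to zero
-/

set_option autoImplicit false

open Filter Topology
open scoped ENNReal Classical

namespace Pool.Agent.Work.MP_1ddc88_an

noncomputable section

namespace ICpQ

/-- the blocks of a vector tend to zero -/
theorem vec (X : Expander) (y : Hs X) : Tendsto (fun i => ‖Q X i y‖) atTop (𝓝 0) := by
  have h1 : Tendsto (fun i : ℕ => ∑' p : Ix X, if p.1.1.1 = i then ‖y p‖ ^ 2 else 0) atTop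
      (𝓝 (∑' _ : Ix X, (0 : ℝ))) := by
    refine tendsto_tsum_of_dominated_convergence (bound := fun p => ‖y p‖ ^ 2) (l2_summable y)
      (fun p => ?_) (Eventually.of_forall fun i p => ?_)
    · refine tendsto_const_nhds.congr' ?_
      filter_upwards [eventually_gt_atTop p.1.1.1] with i hi
      rw [if_neg (by omega)]
    · split_ifs
      · rw [Real.norm_of_nonneg (by positivity)]
      · rw [norm_zero]
        positivity
  rw [tsum_zero] at h1
  have h2 : ∀ i, ‖Q X i y‖ = Real.sqrt (∑' p : Ix X, if p.1.1.1 = i then ‖y p‖ ^ 2 else 0) := by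
    intro i
    have h3 : ‖Q X i y‖ ^ 2 = ∑' p : Ix X, if p.1.1.1 = i then ‖y p‖ ^ 2 else 0 := by
      rw [l2_norm_sq]
      congr 1
      funext p
      rw [Q_apply]
      split_ifs <;> simp
    rw [← h3, Real.sqrt_sq (norm_nonneg _)]
  have h4 : Tendsto (fun i : ℕ =>
      Real.sqrt (∑' p : Ix X, if p.1.1.1 = i then ‖y p‖ ^ 2 else 0)) atTop (𝓝 (Real.sqrt 0)) :=
    (Real.continuous_sqrt.tendsto 0).comp h1
  rw [Real.sqrt_zero] at h4
  exact h4.congr fun i => (h2 i).symm

end ICpQ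

open ICpQ

/-- item CpQ -/
theorem pr_CpQ : St_CpQ := by
  intro X T hT
  rw [Metric.tendsto_atTop]
  intro ε hε
  obtain ⟨K, hK, hTK⟩ := hT.image_closedBall_subset_compact 1
  obtain ⟨t, -, htf, hcov⟩ := hK.finite_cover_balls (show 0 < ε / 4 by linarith)
  have h1 : ∀ᶠ i in atTop, ∀ y ∈ t, ‖Q X i y‖ < ε / 4 := by
    rw [eventually_all_finite htf]
    intro y _
    exact (vec X y).eventually_lt_const (by linarith)
  obtain ⟨n0, hn0⟩ := eventually_atTop.1 h1
  refine ⟨n0, fun i hi => ?_⟩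
  have h2 : ‖Q X i * T‖ ≤ ε / 2 := by
    refine ContinuousLinearMap.opNorm_le_of_unit_norm (by linarith) fun x hx => ?_
    have h3 : T x ∈ K := hTK ⟨x, by simp [hx], rfl⟩
    obtain ⟨y, hy, hyx⟩ := Set.mem_iUnion₂.1 (hcov h3)
    rw [Metric.mem_ball, dist_eq_norm] at hyx
    have h4 : (Q X i * T) x = Q X i (T x - y) + Q X i y := by
      rw [map_sub]
      simp
    rw [h4]
    have h5 : ‖Q X i (T x - y)‖ ≤ 1 * ‖T x - y‖ :=
      (Q X i).le_of_opNorm_le (Q_norm_le X i) _
    have h6 := hn0 i hi y hy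
    have h7 := norm_add_le (Q X i (T x - y)) (Q X i y)
    linarith
  rw [Real.dist_eq, sub_zero, abs_of_nonneg (norm_nonneg _)]
  linarith

end

end Pool.Agent.Work.MP_1ddc88_an
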