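import Pool.Agent.Work.MP_1ddc88_an.StmtsE

/-!
# MP_1ddc88_an, block BC, item EExp (helper37)
-/

set_option autoImplicit false

open Filter Topology
open Pool.Agent.Work.MP_f3c012_al.Df (av St_AV St_HE)
open scoped RealInnerProductSpace Classical commutatorElement

namespace Pool.Agent.Work.MP_1ddc88_an

noncomputable section

theorem pr_EExp (h1 : St_EGr) : St_EExp := by
  choose N G hN hc hd hg using h1
  exact ⟨{ N := N
           G := G
           D := 15
           c := 1 / 30
           conn := hc
           deg := hd
           big := tendsto_atTop_mono hN tendsto_id
           c_pos := by norm_num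
           gap := hg }⟩

end

end Pool.Agent.Work.MP_1ddc88_an
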