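import Pool.Agent.Work.MP_1ddc88_an.StmtsE

/-!
# MP_1ddc88_an, block BC, item EGrp: groups generated by three elementary matrices
-/

set_option autoImplicit false

open Filter Topology
open Pool.Agent.Work.MP_f3c012_al.Df (av St_AV St_HE)
open scoped RealInnerProductSpace Classical commutatorElement

namespace Pool.Agent.Work.MP_1ddc88_an

noncomputable section

namespace IEGrp

theorem ring_comm {A : Type} [Ring A] (u v : A) (huu : u * u = 0) (hvv : v * v = 0)
    (hvu : v * u = 0) : (1 + u) * (1 + v) * (1 - u) * (1 - v) = 1 + u * v := by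
  have h1 : (1 + u) * (1 + v) * (1 - u) = 1 + v + u * v - u * u - v * u - u * (v * u) := by
    noncomm_ring
  have h2 : (1 + v + u * v) * (1 - v) = 1 + u * v - v * v - u * (v * v) := by noncomm_ring
  rw [h1, huu, hvu, mul_zero, sub_zero, sub_zero, sub_zero, h2, hvv, mul_zero, sub_zero, sub_zero]

theorem ring_commute {A : Type} [Ring A] (u v : A) (huv : u * v = 0) (hvu : v * u = 0) :
    (1 + u) * (1 + v) = (1 + v) * (1 + u) := by
  have h1 : (1 + u) * (1 + v) = 1 + u + v + u * v := by noncomm_ring
  have h2 : (1 + v) * (1 + u) = 1 + u + v + v * u := by noncomm_ring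
  rw [h1, h2, huv, hvu]

variable {K : Type} [Field K]

/-- the elementary matrix `1 + a e_ij` -/
def E (i j : Fin 3) (h : i ≠ j) (a : K) : (Matrix (Fin 3) (Fin 3) K)ˣ where
  val := 1 + Matrix.single i j a
  inv := 1 - Matrix.single i j a
  val_inv := by
    have h0 : Matrix.single i j a * Matrix.single i j a = 0 :=
      Matrix.single_mul_single_of_ne a i j i h.symm a
    have h1 : (1 + Matrix.single i j a) * (1 - Matrix.single i j a) =
        1 - Matrix.single i j a * Matrix.single i j a := by noncomm_ring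
    rw [h1, h0, sub_zero]
  inv_val := by
    have h0 : Matrix.single i j a * Matrix.single i j a = 0 :=
      Matrix.single_mul_single_of_ne a i j i h.symm a
    have h1 : (1 - Matrix.single i j a) * (1 + Matrix.single i j a) =
        1 - Matrix.single i j a * Matrix.single i j a := by noncomm_ring
    rw [h1, h0, sub_zero]

theorem E_val (i j : Fin 3) (h : i ≠ j) (a : K) :
    (E i j h a : Matrix (Fin 3) (Fin 3) K) = 1 + Matrix.single i j a := rfl

theorem E_inv_val (i j : Fin 3) (h : i ≠ j) (a : K) :
    ((E i j h a)⁻¹ : (Matrix (Fin 3) (Fin 3) K)ˣ).val = 1 - Matrix.single i j a := rfl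

theorem E_mul (i j : Fin 3) (h : i ≠ j) (a b : K) : E i j h a * E i j h b = E i j h (a + b) := by
  apply Units.ext
  rw [Units.val_mul, E_val, E_val, E_val]
  have h0 : Matrix.single i j a * Matrix.single i j b = 0 :=
    Matrix.single_mul_single_of_ne a i j i h.symm b
  have h1 : (1 + Matrix.single i j a) * (1 + Matrix.single i j b) =
      1 + (Matrix.single i j a + Matrix.single i j b) +
        Matrix.single i j a * Matrix.single i j b := by noncomm_ring
  rw [h1, h0, add_zero, Matrix.single_add]

theorem E_zero (i j : Fin 3) (h : i ≠ j) : E i j h (0 : K) = 1 := by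
  apply Units.ext
  rw [E_val, Matrix.single_zero, add_zero, Units.val_one]

theorem E_pow (i j : Fin 3) (h : i ≠ j) (a : K) (n : ℕ) :
    E i j h a ^ n = E i j h ((n : K) * a) := by
  induction n with
  | zero => rw [pow_zero, Nat.cast_zero, zero_mul, E_zero]
  | succ n ih => rw [pow_succ, ih, E_mul]; congr 1; push_cast; ring

theorem E_comm (i j k : Fin 3) (hij : i ≠ j) (hjk : j ≠ k) (hik : i ≠ k) (a b : K) :
    ⁅E i j hij a, E j k hjk b⁆ = E i k hik (a * b) := by
  rw [commutatorElement_def]
  apply Units.ext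
  rw [Units.val_mul, Units.val_mul, Units.val_mul, E_inv_val, E_inv_val, E_val, E_val, E_val,
    ring_comm _ _ (Matrix.single_mul_single_of_ne a i j i hij.symm a)
      (Matrix.single_mul_single_of_ne b j k j hjk.symm b)
      (Matrix.single_mul_single_of_ne b j k i hik.symm a),
    Matrix.single_mul_single_same]

theorem E_commute (i j k l : Fin 3) (hij : i ≠ j) (hkl : k ≠ l) (hjk : j ≠ k) (hli : l ≠ i)
    (a b : K) : Commute (E i j hij a) (E k l hkl b) := by
  apply Units.ext
  rw [Units.val_mul, Units.val_mul, E_val, E_val]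
  exact ring_commute _ _ (Matrix.single_mul_single_of_ne a i j k hjk b)
    (Matrix.single_mul_single_of_ne b k l i hli a)

theorem E_inj (i j : Fin 3) (h : i ≠ j) (a b : K) (hab : E i j h a = E i j h b) : a = b := by
  have h1 : (E i j h a : Matrix (Fin 3) (Fin 3) K) i j =
      (E i j h b : Matrix (Fin 3) (Fin 3) K) i j := by rw [hab]
  rw [E_val, E_val, Matrix.add_apply, Matrix.add_apply, Matrix.single_apply_same,
    Matrix.single_apply_same] at h1
  exact add_left_cancel h1

/-- the three generators -/
def X (t : K) : Fin 3 → (Matrix (Fin 3) (Fin 3) K)ˣ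
  | 0 => E 0 1 (by decide) 1
  | 1 => E 1 2 (by decide) 1
  | 2 => E 2 0 (by decide) t

/-- the commutator condition for a pair -/
def CC {G : Type} [Group G] (x y : G) : Prop := Commute ⁅x, y⁆ x ∧ Commute ⁅x, y⁆ y

theorem CC.symm {G : Type} [Group G] {x y : G} (h : CC x y) : CC y x := by
  unfold CC
  rw [← commutatorElement_inv]
  exact ⟨h.2.inv_left, h.1.inv_left⟩

theorem CC_E (i j k : Fin 3) (hij : i ≠ j) (hjk : j ≠ k) (hik : i ≠ k) (a b : K) :
    CC (E i j hij a) (E j k hjk b) := by
  unfold CC
  rw [E_comm i j k hij hjk hik]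
  exact ⟨E_commute i k i j hik hij hik.symm hij.symm _ _,
    E_commute i k j k hik hjk hjk.symm hik.symm _ _⟩

theorem CC_X (t : K) : ∀ i j, i ≠ j → CC (X t i) (X t j) := by
  have h01 : CC (X t 0) (X t 1) := CC_E 0 1 2 (by decide) (by decide) (by decide) 1 1
  have h12 : CC (X t 1) (X t 2) := CC_E 1 2 0 (by decide) (by decide) (by decide) 1 t
  have h20 : CC (X t 2) (X t 0) := CC_E 2 0 1 (by decide) (by decide) (by decide) t 1
  intro i j hij
  fin_cases i <;> fin_cases j
  · exact absurd rfl hij
  · exact h01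
  · exact h20.symm
  · exact h01.symm
  · exact absurd rfl hij
  · exact h12
  · exact h20
  · exact h12.symm
  · exact absurd rfl hij

theorem X_pow [CharP K 5] (t : K) (i : Fin 3) : X t i ^ 5 = 1 := by
  have h5 : ((5 : ℕ) : K) = 0 := CharP.cast_eq_zero K 5
  fin_cases i
  · show E 0 1 (by decide) 1 ^ 5 = 1
    rw [E_pow, h5, zero_mul, E_zero]
  · show E 1 2 (by decide) 1 ^ 5 = 1
    rw [E_pow, h5, zero_mul, E_zero]
  · show E 2 0 (by decide) t ^ 5 = 1
    rw [E_pow, h5, zero_mul, E_zero]

theorem comm_mem {G : Type} [Group G] (H : Subgroup G) {x y : G} (hx : x ∈ H) (hy : y ∈ H) :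
    ⁅x, y⁆ ∈ H := by
  rw [commutatorElement_def]
  exact H.mul_mem (H.mul_mem (H.mul_mem hx hy) (H.inv_mem hx)) (H.inv_mem hy)

/-- the powers of `t` -/
theorem pow_mem (t : K) (k : ℕ) :
    E 0 1 (by decide) (t ^ k) ∈ Subgroup.closure (Set.range (X t)) := by
  have hx : ∀ i, X t i ∈ Subgroup.closure (Set.range (X t)) := fun i =>
    Subgroup.subset_closure ⟨i, rfl⟩
  have h0 : E 0 1 (by decide) 1 ∈ Subgroup.closure (Set.range (X t)) := hx 0
  have h1 : E 1 2 (by decide) 1 ∈ Subgroup.closure (Set.range (X t)) := hx 1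
  have h2 : E 2 0 (by decide) t ∈ Subgroup.closure (Set.range (X t)) := hx 2
  have h21 : E 2 1 (by decide) t ∈ Subgroup.closure (Set.range (X t)) := by
    have h := comm_mem _ h2 h0
    rw [E_comm 2 0 1 (by decide) (by decide) (by decide), mul_one] at h
    exact h
  induction k with
  | zero => rw [pow_zero]; exact h0
  | succ k ih =>
    have h02 := comm_mem _ ih h1
    rw [E_comm 0 1 2 (by decide) (by decide) (by decide), mul_one] at h02
    have h01 := comm_mem _ h02 h21
    rw [E_comm 0 2 1 (by decide) (by decide) (by decide), ← pow_succ] at h01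
    exact h01

end IEGrp

open IEGrp in
theorem pr_EGrp : St_EGrp := by
  intro M
  have : Fact (Nat.Prime 5) := ⟨by norm_num⟩
  let K := GaloisField 5 (M + 1)
  obtain ⟨g, hg⟩ := IsCyclic.exists_ofOrder_eq_natCard (α := Kˣ)
  let t : K := (g : K)
  let S : Subgroup (Matrix (Fin 3) (Fin 3) K)ˣ := Subgroup.closure (Set.range (X t))
  have hx : ∀ i, X t i ∈ S := fun i => Subgroup.subset_closure ⟨i, rfl⟩
  have : Finite (Matrix (Fin 3) (Fin 3) K)ˣ := inferInstance
  have : Finite S := inferInstance
  let _ : Fintype S := Fintype.ofFinite S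
  refine ⟨S, inferInstance, inferInstance, fun i => ⟨X t i, hx i⟩, ?_, ?_, ?_, ?_⟩
  · have hcard : Nat.card K = 5 ^ (M + 1) := GaloisField.card 5 (M + 1) (Nat.succ_ne_zero M)
    have hu : Nat.card Kˣ = 5 ^ (M + 1) - 1 := by
      rw [Nat.card_units, hcard]
    have hM : M + 1 < 5 ^ (M + 1) := Nat.lt_pow_self (by norm_num)
    have hMo : M ≤ orderOf g := by rw [hg, hu]; omega
    have h1 : Function.Injective (fun k : Fin M => (⟨E 0 1 (by decide) (t ^ (k : ℕ)),
        pow_mem t k⟩ : S)) := by
      intro k l hkl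
      have h2 : E 0 1 (by decide) (t ^ (k : ℕ)) = E 0 1 (by decide) (t ^ (l : ℕ)) :=
        congrArg Subtype.val hkl
      have h3 := E_inj 0 1 (by decide) _ _ h2
      have h4 : g ^ (k : ℕ) = g ^ (l : ℕ) := by
        apply Units.ext
        rw [Units.val_pow_eq_pow_val, Units.val_pow_eq_pow_val]
        exact h3
      exact Fin.ext (pow_injOn_Iio_orderOf (lt_of_lt_of_le k.2 hMo)
        (lt_of_lt_of_le l.2 hMo) h4)
    have h2 := Fintype.card_le_of_injective _ h1
    rw [Fintype.card_fin] at h2
    exact h2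
  · intro i
    apply Subtype.ext
    exact X_pow t i
  · intro i j hij
    have h := CC_X t i j hij
    constructor
    · apply Commute.of_map (f := S.subtype) Subtype.val_injective
      rw [map_commutatorElement]
      exact h.1
    · apply Commute.of_map (f := S.subtype) Subtype.val_injective
      rw [map_commutatorElement]
      exact h.2
  · have h1 : Set.range (fun i => (⟨X t i, hx i⟩ : S)) =
        ((↑) : S → (Matrix (Fin 3) (Fin 3) K)ˣ) ⁻¹' Set.range (X t) := by
      ext y
      constructor
      · rintro ⟨i, rfl⟩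
        exact ⟨i, rfl⟩
      · rintro ⟨i, hi⟩
        exact ⟨i, Subtype.ext hi⟩
    rw [h1]
    exact Subgroup.closure_closure_coe_preimage

end

end Pool.Agent.Work.MP_1ddc88_an
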