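import Pool.Agent.Work.MP_1ddc88_an.StmtsE

/-!
# MP_1ddc88_an, item EHeis: the angle between the fixed spaces in a Heisenberg group
-/

set_option autoImplicit false

open Filter Topology
open Pool.Agent.Work.MP_f3c012_al.Df (av St_AV St_HE)
open scoped RealInnerProductSpace Classical commutatorElement

namespace Pool.Agent.Work.MP_1ddc88_an

noncomputable section

namespace IEHeis

variable {G : Type} [Group G] {V : Type} [NormedAddCommGroup V] [InnerProductSpace ℝ V]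

theorem av_apply (ρ : G →* (V ≃ₗᵢ[ℝ] V)) (M : ℕ) (g : G) (v : V) :
    av ρ M g v = (M : ℝ)⁻¹ • ∑ i ∈ Finset.range M, ρ (g ^ i) v := by
  unfold av
  rw [LinearMap.smul_apply, LinearMap.sum_apply]
  rfl

theorem rho_mul (ρ : G →* (V ≃ₗᵢ[ℝ] V)) (g h : G) (v : V) : ρ (g * h) v = ρ g (ρ h v) := by
  rw [map_mul]
  rfl

theorem rho_one (ρ : G →* (V ≃ₗᵢ[ℝ] V)) (v : V) : ρ 1 v = v := by
  rw [map_one]
  rfl

theorem comm_lin (ρ : G →* (V ≃ₗᵢ[ℝ] V)) (M : ℕ) (x : G) (L : V →ₗ[ℝ] V) (v : V)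
    (h : ∀ i, ρ (x ^ i) (L v) = L (ρ (x ^ i) v)) : av ρ M x (L v) = L (av ρ M x v) := by
  rw [av_apply, av_apply, map_smul, map_sum]
  congr 1
  exact Finset.sum_congr rfl fun i _ => h i

theorem fix_inv (ρ : G →* (V ≃ₗᵢ[ℝ] V)) (z : G) (w : V) (h : ρ z w = w) : ρ z⁻¹ w = w := by
  calc ρ z⁻¹ w = ρ z⁻¹ (ρ z w) := by rw [h]
    _ = w := by rw [← rho_mul, inv_mul_cancel, rho_one]

theorem fix_pow (ρ : G →* (V ≃ₗᵢ[ℝ] V)) (z : G) (w : V) (h : ρ z w = w) (i : ℕ) :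
    ρ (z ^ i) w = w := by
  induction i with
  | zero => rw [pow_zero, rho_one]
  | succ i ih => rw [pow_succ, rho_mul, h, ih]

theorem fix_comm (ρ : G →* (V ≃ₗᵢ[ℝ] V)) (z y : G) (w : V) (hc : Commute z y)
    (h : ρ z w = w) : ρ z (ρ y w) = ρ y w := by
  rw [← rho_mul, hc.eq, rho_mul, h]

end IEHeis

open IEHeis in
/-- item EHeis -/
theorem pr_EHeis (h1 : St_AV) (h2 : St_HE) (h3 : St_EPair) : St_EHeis := by
  intro G _ V _ _ ρ x y hx hy hzx hzy v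
  set z : G := ⁅x, y⁆ with hz
  have e1 : x * y = z * y * x := by
    rw [hz, commutatorElement_def]
    group
  have e2 : y * x * y⁻¹ = z⁻¹ * x := by
    rw [hz, commutatorElement_def]
    group
  have hz5 : z ^ 5 = 1 := by
    have c1 : (y * x * y⁻¹) ^ 5 = 1 := by
      rw [conj_pow, hx, mul_one, mul_inv_cancel]
    rw [e2, (hzx.inv_left).mul_pow, hx, mul_one, inv_pow, inv_eq_one] at c1
    exact c1
  have hz4 : z ^ 4 = z⁻¹ := by
    apply eq_inv_of_mul_eq_one_left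
    rw [← pow_succ]
    exact hz5
  have e3 : x⁻¹ * y * x = y * z ^ 4 := by
    rw [hz4]
    have c1 : y * x = z⁻¹ * (x * y) := by
      rw [e1]
      group
    have c2 : z⁻¹ * x = x * z⁻¹ := (hzx.inv_left).eq
    have c3 : z⁻¹ * y = y * z⁻¹ := (hzy.inv_left).eq
    calc x⁻¹ * y * x = x⁻¹ * (y * x) := by group
      _ = x⁻¹ * (z⁻¹ * x * y) := by rw [c1, mul_assoc]
      _ = z⁻¹ * y := by
          rw [c2]
          group
      _ = y * z⁻¹ := c3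
  obtain ⟨x1, x2, x3, x4, x5, x6, x7⟩ := h1 G V ρ 5 x (by norm_num) hx
  obtain ⟨y1, y2, y3, y4, y5, y6, y7⟩ := h1 G V ρ 5 y (by norm_num) hy
  obtain ⟨z1, z2, z3, z4, z5, z6, z7⟩ := h1 G V ρ 5 z (by norm_num) hz5
  have hcz : ∀ g : G, Commute z g → ∀ v, ρ g (av ρ 5 z v) = av ρ 5 z (ρ g v) := by
    intro g hg v
    rw [z7, ← hg.eq, mul_inv_cancel_right]
  have hPZ : ∀ v, av ρ 5 x (av ρ 5 z v) = av ρ 5 z (av ρ 5 x v) := fun v =>
    comm_lin ρ 5 x (av ρ 5 z) v fun i => hcz _ (hzx.pow_right i) v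
  have hQZ : ∀ v, av ρ 5 y (av ρ 5 z v) = av ρ 5 z (av ρ 5 y v) := fun v =>
    comm_lin ρ 5 y (av ρ 5 z) v fun i => hcz _ (hzy.pow_right i) v
  have hyP : ∀ u, ρ z u = u → ρ y (av ρ 5 x u) = av ρ 5 x (ρ y u) := by
    intro u hu
    rw [x7, e2, av_apply, av_apply]
    congr 1
    refine Finset.sum_congr rfl fun i _ => ?_
    rw [(hzx.inv_left).mul_pow, ((hzx.inv_left).pow_pow i i).eq, rho_mul]
    congr 1
    exact fix_pow ρ _ _ (fix_inv ρ z _ (fix_comm ρ z y u hzy hu)) i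
  have hyiP : ∀ (i : ℕ) (u : V), ρ z u = u → ρ (y ^ i) (av ρ 5 x u) = av ρ 5 x (ρ (y ^ i) u) := by
    intro i
    induction i with
    | zero =>
      intro u _
      rw [pow_zero, rho_one, rho_one]
    | succ i ih =>
      intro u hu
      rw [pow_succ, rho_mul, rho_mul, hyP u hu, ih _ (fix_comm ρ z y u hzy hu)]
  refine h3 V (av ρ 5 x) (av ρ 5 y) (av ρ 5 z) x3 y3 z3 x4 y4 z4 hPZ hQZ ?_ ?_ v
  · intro v
    exact (comm_lin ρ 5 y (av ρ 5 x) (av ρ 5 z v) fun i => hyiP i _ (z1 v)).symm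
  · intro v hv
    set b : V := av ρ 5 y v with hb
    set c : V := av ρ 5 x b with hc
    have k1 : ρ y b = b := y1 v
    have k2 : av ρ 5 z b = 0 := by
      rw [hb, ← hQZ, hv, map_zero]
    have k3 : ρ x c = c := x1 b
    have k4 := h2 G V ρ 5 5 4 y x z b c (by norm_num) (dvd_refl 5) (by norm_num) hx hz5 hzy hzx e3
      (by norm_num) k1 k2 k3
    have k5 : ‖c‖ ^ 2 = ⟪b, c⟫ := by
      rw [real_inner_comm]
      exact x5 b
    rw [← k5] at k4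
    have k6 : (5 : ℝ) * ‖c‖ ^ 2 ≤ ‖b‖ ^ 2 := by
      rcases eq_or_ne c 0 with h0 | h0
      · rw [h0, norm_zero]
        norm_num
      · have k7 : 0 < ‖c‖ ^ 2 := by
          have := norm_pos_iff.2 h0
          positivity
        have k8 : (5 : ℝ) * (‖c‖ ^ 2) ^ 2 ≤ ‖b‖ ^ 2 * ‖c‖ ^ 2 := by exact_mod_cast k4
        have k9 : (5 * ‖c‖ ^ 2) * ‖c‖ ^ 2 ≤ ‖b‖ ^ 2 * ‖c‖ ^ 2 := by
          calc (5 * ‖c‖ ^ 2) * ‖c‖ ^ 2 = 5 * (‖c‖ ^ 2) ^ 2 := by ring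
            _ ≤ _ := k8
        exact le_of_mul_le_mul_right k9 k7
    have k10 : 0 ≤ ‖b‖ ^ 2 := by positivity
    linarith

end

end Pool.Agent.Work.MP_1ddc88_an
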