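import Pool.Agent.Work.MP_1ddc88_an.StmtsE

/-!
# MP_1ddc88_an, item EPair
-/

set_option autoImplicit false

open Filter Topology
open scoped RealInnerProductSpace

namespace Pool.Agent.Work.MP_1ddc88_an

namespace IEPair

theorem num (F G s : ℝ) (hF : 0 ≤ F) (hG : 0 ≤ G) (h1 : s ^ 2 ≤ F * G)
    (h2 : G ≤ (29 / 20) * s) : 0 ≤ (29 / 10) * F - (69 / 20) * s + G := by
  have hs : 0 ≤ s := by linarith
  rcases hG.eq_or_lt with h0 | h0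
  · have h3 : s ^ 2 ≤ 0 := by rw [← h0] at h1; simpa using h1
    have h4 : s = 0 := by nlinarith
    rw [← h0, h4]
    linarith
  · have h3 : 0 ≤ (2 * s - G) * ((29 / 20) * s - G) :=
      mul_nonneg (by linarith) (by linarith)
    have h4 : 0 ≤ G * ((29 / 10) * F - (69 / 20) * s + G) := by nlinarith
    by_contra h5
    push Not at h5
    have := mul_neg_of_pos_of_neg h0 h5
    linarith

variable {V : Type} [NormedAddCommGroup V] [InnerProductSpace ℝ V]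

theorem comm_case (P Q : V →ₗ[ℝ] V) (hP : ∀ v w, ⟪P v, w⟫ = ⟪v, P w⟫)
    (hQ : ∀ v w, ⟪Q v, w⟫ = ⟪v, Q w⟫) (hPP : ∀ v, P (P v) = P v) (hQQ : ∀ v, Q (Q v) = Q v)
    (v : V) (hc : P (Q v) = Q (P v)) : 0 ≤ ⟪v - P v, v - Q v⟫ := by
  have h : ⟪v - P v, v - Q v⟫ = ⟪v - P v - Q (v - P v), v - P v - Q (v - P v)⟫ := by
    have hx : ∀ x, Q (x - Q x) = 0 := fun x => by rw [map_sub, hQQ, sub_self]
    have hy : ∀ x, P (x - P x) = 0 := fun x => by rw [map_sub, hPP, sub_self]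
    -- the vector `v - P v - Q (v - P v) = (v - Q v) - P (v - Q v)`
    have e1 : v - P v - Q (v - P v) = (v - Q v) - P (v - Q v) := by
      rw [map_sub, map_sub, hc]
      abel
    have e2 : ⟪v - P v - Q (v - P v), v - P v - Q (v - P v)⟫ =
        ⟪v - P v, v - P v - Q (v - P v)⟫ := by
      rw [inner_sub_left (v - P v) (Q (v - P v)), hQ (v - P v), hx, inner_zero_right, sub_zero]
    rw [e2, e1, inner_sub_right (v - P v) (v - Q v), ← hP (v - P v), hy, inner_zero_left, sub_zero]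
  rw [h]
  exact real_inner_self_nonneg

theorem gap_case (P Q : V →ₗ[ℝ] V) (hP : ∀ v w, ⟪P v, w⟫ = ⟪v, P w⟫)
    (hQ : ∀ v w, ⟪Q v, w⟫ = ⟪v, Q w⟫) (hPP : ∀ v, P (P v) = P v) (hQQ : ∀ v, Q (Q v) = Q v)
    (f : V) (hf : ‖P (Q f)‖ ^ 2 ≤ (9 / 20) ^ 2 * ‖Q f‖ ^ 2) :
    -(9 / 20) * (‖f - P f‖ ^ 2 + ‖f - Q f‖ ^ 2) ≤ 2 * ⟪f - P f, f - Q f⟫ := by
  have a1 : ⟪f, P f⟫ = ‖P f‖ ^ 2 := by
    rw [← real_inner_self_eq_norm_sq, hP f (P f), hPP]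
  have b1 : ⟪f, Q f⟫ = ‖Q f‖ ^ 2 := by
    rw [← real_inner_self_eq_norm_sq, hQ f (Q f), hQQ]
  have a2 : ‖f - P f‖ ^ 2 = ‖f‖ ^ 2 - ‖P f‖ ^ 2 := by
    rw [norm_sub_sq_real, a1]
    ring
  have b2 : ‖f - Q f‖ ^ 2 = ‖f‖ ^ 2 - ‖Q f‖ ^ 2 := by
    rw [norm_sub_sq_real, b1]
    ring
  have c1 : ⟪f - P f, f - Q f⟫ = ‖f‖ ^ 2 - ‖P f‖ ^ 2 - ‖Q f‖ ^ 2 + ⟪P f, Q f⟫ := by
    rw [inner_sub_left, inner_sub_right, inner_sub_right, real_inner_self_eq_norm_sq, b1,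
      real_inner_comm f (P f), a1]
    ring
  have d1 : ⟪P f, Q f⟫ = ⟪P f, P (Q f)⟫ := by
    rw [← hP (P f) (Q f), hPP]
  have d2 : ‖P (Q f)‖ ≤ (9 / 20) * ‖Q f‖ := by
    have h : ‖P (Q f)‖ ^ 2 ≤ ((9 / 20) * ‖Q f‖) ^ 2 := by rw [mul_pow]; exact hf
    exact le_of_sq_le_sq h (by positivity)
  have d3 : ⟪P f, Q f⟫ ≤ ‖P f‖ * ((9 / 20) * ‖Q f‖) := by
    rw [d1]
    exact (real_inner_le_norm _ _).trans (mul_le_mul_of_nonneg_left d2 (norm_nonneg _))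
  have g1 : ‖P f + Q f‖ ^ 2 = ‖P f‖ ^ 2 + ‖Q f‖ ^ 2 + 2 * ⟪P f, Q f⟫ := by
    rw [norm_add_sq_real]
    ring
  have s1 : ⟪f, P f + Q f⟫ = ‖P f‖ ^ 2 + ‖Q f‖ ^ 2 := by
    rw [inner_add_right, a1, b1]
  have s2 : (‖P f‖ ^ 2 + ‖Q f‖ ^ 2) ^ 2 ≤ ‖f‖ ^ 2 * ‖P f + Q f‖ ^ 2 := by
    rw [← s1, ← mul_pow]
    exact sq_le_sq' (by have := neg_le_of_abs_le (abs_real_inner_le_norm f (P f + Q f)); linarith)
      (real_inner_le_norm _ _)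
  have s3 : ‖P f + Q f‖ ^ 2 ≤ (29 / 20) * (‖P f‖ ^ 2 + ‖Q f‖ ^ 2) := by
    rw [g1]
    nlinarith [sq_nonneg (‖P f‖ - ‖Q f‖)]
  have := num (‖f‖ ^ 2) (‖P f + Q f‖ ^ 2) (‖P f‖ ^ 2 + ‖Q f‖ ^ 2) (by positivity) (by positivity)
    s2 s3
  rw [a2, b2, c1]
  rw [g1] at this
  linarith

end IEPair

theorem pr_EPair : St_EPair := by
  intro V _ _ P Q Zc hP hQ hZ hPP hQQ hZZ hPZ hQZ hPQ hgap v
  obtain ⟨v0, hv0⟩ : ∃ v0, v0 = Zc v := ⟨_, rfl⟩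
  obtain ⟨v1, hv1⟩ : ∃ v1, v1 = v - Zc v := ⟨_, rfl⟩
  have hv : v = v0 + v1 := by rw [hv0, hv1]; abel
  have hZ0 : Zc v0 = v0 := by rw [hv0, hZZ]
  have hZ1 : Zc v1 = 0 := by rw [hv1, map_sub, hZZ, sub_self]
  have zA0 : Zc (v0 - P v0) = v0 - P v0 := by rw [map_sub, ← hPZ, hZ0]
  have zB0 : Zc (v0 - Q v0) = v0 - Q v0 := by rw [map_sub, ← hQZ, hZ0]
  have zA1 : Zc (v1 - P v1) = 0 := by rw [map_sub, ← hPZ, hZ1, map_zero, sub_zero]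
  have zB1 : Zc (v1 - Q v1) = 0 := by rw [map_sub, ← hQZ, hZ1, map_zero, sub_zero]
  have orth : ∀ x y : V, Zc x = x → Zc y = 0 → ⟪x, y⟫ = 0 := by
    intro x y hx hy
    rw [← hx, hZ, hy, inner_zero_right]
  have eA : v - P v = (v0 - P v0) + (v1 - P v1) := by rw [hv, map_add]; abel
  have eB : v - Q v = (v0 - Q v0) + (v1 - Q v1) := by rw [hv, map_add]; abel
  have nA : ‖v - P v‖ ^ 2 = ‖v0 - P v0‖ ^ 2 + ‖v1 - P v1‖ ^ 2 := by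
    rw [eA, norm_add_sq_real, orth _ _ zA0 zA1]
    ring
  have nB : ‖v - Q v‖ ^ 2 = ‖v0 - Q v0‖ ^ 2 + ‖v1 - Q v1‖ ^ 2 := by
    rw [eB, norm_add_sq_real, orth _ _ zB0 zB1]
    ring
  have nI : ⟪v - P v, v - Q v⟫ = ⟪v0 - P v0, v0 - Q v0⟫ + ⟪v1 - P v1, v1 - Q v1⟫ := by
    rw [eA, eB, inner_add_left, inner_add_right, inner_add_right, orth _ _ zA0 zB1,
      real_inner_comm (v0 - Q v0) (v1 - P v1), orth _ _ zB0 zA1]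
    ring
  have c0 : 0 ≤ ⟪v0 - P v0, v0 - Q v0⟫ := by
    apply IEPair.comm_case P Q hP hQ hPP hQQ
    rw [← hZ0, hPQ]
  have c1 := IEPair.gap_case P Q hP hQ hPP hQQ v1 (hgap v1 hZ1)
  rw [nA, nB, nI]
  have p1 : 0 ≤ ‖v0 - P v0‖ ^ 2 := by positivity
  have p2 : 0 ≤ ‖v0 - Q v0‖ ^ 2 := by positivity
  linarith

end Pool.Agent.Work.MP_1ddc88_an
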