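import Pool.Agent.Work.MP_1ddc88_an.Defs
import Pool.Agent.Work.MP_f3c012_al.Df.StmtsR

/-!
# MP_1ddc88_an, block BC, part E: existence of expanders

Cayley graphs of finite groups with three generators of order 5, each pair of which generates a
quotient of the Heisenberg group (for example in `SL_3` of the field with `5^m` elements).
Every docstring is the complete proof.  Item `K`: statement `St_K`, file `I_K.lean` in this folder,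
theorem `pr_K`, with the statements named after USES as hypotheses in the given order; namespace as
here, auxiliary lemmas in the sub-namespace `IK`.  `av ρ M g` is the average of `ρ (g^i)`, `i < M`
(block DF of MP_f3c012_al, `Df/Defs.lean`); its `St_AV`, `St_HE` (in `Df/StmtsR.lean`) are proved there.
-/

set_option autoImplicit false

open Filter Topology
open Pool.Agent.Work.MP_f3c012_al.Df (av St_AV St_HE)
open scoped RealInnerProductSpace Classical commutatorElement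

namespace Pool.Agent.Work.MP_1ddc88_an

noncomputable section

/-- Three generators of order (dividing) 5 with commutators that commute with the two elements. -/
structure Heis3 {G : Type} [Group G] (x : Fin 3 → G) : Prop where
  pow : ∀ i, x i ^ 5 = 1
  com : ∀ i j, i ≠ j → Commute ⁅x i, x j⁆ (x i) ∧ Commute ⁅x i, x j⁆ (x j)
  gen : Subgroup.closure (Set.range x) = ⊤

/-- EPair (MEDIUM).  `v = v₀ + v₁`, `v₀ = Zc v`, `v₁ = v - Zc v`.  `v₀ - P v₀`, `v₀ - Q v₀` are fixed by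
`Zc`, `v₁ - P v₁`, `v₁ - Q v₁` are killed by `Zc`, so everything splits orthogonally.  For `v₀`:
`⟪v₀ - P v₀, v₀ - Q v₀⟫ = ‖(1 - Q)(1 - P) v₀‖² ≥ 0` because `P`, `Q` commute on fixed vectors of `Zc`
(and preserve them).  For `f = v₁`: `a = P f`, `b = Q f`, `ε = 9/20`: `|⟪a, b⟫| = |⟪a, P b⟫| ≤ ε ‖a‖ ‖b‖`,
`s = ‖a‖² + ‖b‖² = ⟪f, g⟫`, `g = a + b`, `‖g‖² ≤ (1 + ε) s`.  The claim is
`E = 2 (1+ε) ‖f‖² - (3+ε) s + ‖g‖² ≥ 0`.  If `g = 0` then `s = 0`.  Otherwise `s² ≤ ‖f‖² ‖g‖²` and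
`‖g‖² E ≥ 2 (1+ε) s² - (3+ε) s ‖g‖² + ‖g‖⁴ = (2 s - ‖g‖²) ((1+ε) s - ‖g‖²) ≥ 0`. -/
def St_EPair : Prop := ∀ (V : Type) [NormedAddCommGroup V] [InnerProductSpace ℝ V]
  (P Q Zc : V →ₗ[ℝ] V),
  (∀ v w, ⟪P v, w⟫ = ⟪v, P w⟫) → (∀ v w, ⟪Q v, w⟫ = ⟪v, Q w⟫) → (∀ v w, ⟪Zc v, w⟫ = ⟪v, Zc w⟫) →
  (∀ v, P (P v) = P v) → (∀ v, Q (Q v) = Q v) → (∀ v, Zc (Zc v) = Zc v) →
  (∀ v, P (Zc v) = Zc (P v)) → (∀ v, Q (Zc v) = Zc (Q v)) →
  (∀ v, P (Q (Zc v)) = Q (P (Zc v))) →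
  (∀ v, Zc v = 0 → ‖P (Q v)‖ ^ 2 ≤ (9 / 20) ^ 2 * ‖Q v‖ ^ 2) →
  ∀ v, -(9 / 20) * (‖v - P v‖ ^ 2 + ‖v - Q v‖ ^ 2) ≤ 2 * ⟪v - P v, v - Q v⟫

/-- ETri (MEDIUM).  `U_i = 1 - P_i`, `T = ∑ U_i`, symmetric.
`‖T v‖² = ∑ ‖U_i v‖² + 2 ∑_(i<j) ⟪U_i v, U_j v⟫ ≥ (1 - 2 · 9/20) ∑ ‖U_i v‖² = (1/10) ⟪T v, v⟫` (every `i`
is in two pairs; `‖U_i v‖² = ⟪U_i v, v⟫`).  `ker T` = the `w` with all `U_i w = 0` (`⟪T w, w⟫ = 0`).  `v` is
orthogonal to `ker T`, so `v = T h` (finite dimension, `T` symmetric: `(ker T)ᗮ = range T`).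
Cauchy-Schwarz for the form `⟪T ., .⟫ ≥ 0`: `‖v‖⁴ = ⟪T h, v⟫² ≤ ⟪T h, h⟫ ⟪T v, v⟫ ≤ 10 ‖v‖² ⟪T v, v⟫`. -/
def St_ETri : Prop := ∀ (V : Type) [NormedAddCommGroup V] [InnerProductSpace ℝ V]
  [FiniteDimensional ℝ V] (P : Fin 3 → V →ₗ[ℝ] V),
  (∀ i v w, ⟪P i v, w⟫ = ⟪v, P i w⟫) → (∀ i v, P i (P i v) = P i v) →
  (∀ i j, i ≠ j → ∀ v,
    -(9 / 20) * (‖v - P i v‖ ^ 2 + ‖v - P j v‖ ^ 2) ≤ 2 * ⟪v - P i v, v - P j v⟫) →
  ∀ v, (∀ w, (∀ i, P i w = w) → ⟪v, w⟫ = 0) → (1 / 10) * ‖v‖ ^ 2 ≤ ∑ i, ‖v - P i v‖ ^ 2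

/-- EHeis (MEDIUM).  `z = ⁅x, y⁆ = x y x⁻¹ y⁻¹`, `x y = z y x`, `z` commutes with `x` and `y`, `z⁵ = 1`
(`y x y⁻¹ = z⁻¹ x`, fifth powers).  `P = av ρ 5 x`, `Q = av ρ 5 y`, `Zc = av ρ 5 z`: EPair.  Symmetric,
idempotent: AV; `Zc` commutes with `P` and `Q` as `z` commutes with `x^i`, `y^i`; on vectors fixed by `z`
`ρ x` and `ρ y` commute, so `P Q Zc = Q P Zc`.  Last hypothesis: `Zc v = 0`, `b = Q v`, `c = P b`.
HE with `p = M = 5`, `g = y`, `h = x`, `k = z`, `b = 4` (`x⁻¹ y x = y z⁻¹ = y z⁴`), the vectors `b` (fixed by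
`y`, `Zc b = Q (Zc v) = 0`) and `c` (fixed by `x`): `5 ⟪b, c⟫² ≤ ‖b‖² ‖c‖²`, `⟪b, c⟫ = ‖c‖²`, so
`‖c‖² ≤ ‖b‖²/5 ≤ (9/20)² ‖b‖²`.  USES AV HE EPair. -/
def St_EHeis : Prop := ∀ (G : Type) [Group G] (V : Type) [NormedAddCommGroup V]
  [InnerProductSpace ℝ V] (ρ : G →* (V ≃ₗᵢ[ℝ] V)) (x y : G), x ^ 5 = 1 → y ^ 5 = 1 →
  Commute ⁅x, y⁆ x → Commute ⁅x, y⁆ y → ∀ v,
  -(9 / 20) * (‖v - av ρ 5 x v‖ ^ 2 + ‖v - av ρ 5 y v‖ ^ 2) ≤
    2 * ⟪v - av ρ 5 x v, v - av ρ 5 y v⟫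

/-- ESpec (MEDIUM).  `V = EuclideanSpace ℝ G`, `(ρ h f) g = f (g h)` (`LinearIsometryEquiv.piLpCongrLeft`
for the permutation).  `P i = av ρ 5 (x i)`; EHeis gives the pair inequality (for `i ≠ j`), and ETri
applies to `v = f`: a `w` with `P i w = w` for all `i` is fixed by all `ρ (x i)` (AV), so by all of `G`
(`gen`), so constant, and `⟪f, w⟫ = 0`.  So `(1/10) ‖f‖² ≤ ∑ ‖f - P i f‖²`, and
`‖f - P i f‖² = ‖(1/5) ∑_k (f - ρ (x i ^ k) f)‖² ≤ (1/5) ∑_k ‖f - ρ (x i ^ k) f‖²`.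
USES AV EHeis ETri. -/
def St_ESpec : Prop := ∀ (G : Type) [Group G] [Fintype G] (x : Fin 3 → G), Heis3 x →
  ∀ f : G → ℝ, ∑ g, f g = 0 →
    (1 / 2) * ∑ g, f g ^ 2 ≤ ∑ i, ∑ k ∈ Finset.range 5, ∑ g, (f g - f (g * x i ^ k)) ^ 2

/-- EGrp (MEDIUM).  Let `K = GaloisField 5 m`, `m ≥ 1` large, `t` a generator of the cyclic group of units,
`E i j a = 1 + a e_ij` (`i ≠ j`, determinant 1; `Matrix.transvection`) in `SL_3(K)` (or in the units of the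
matrix ring).  `E i j a E i j b = E i j (a+b)`, `E i j a ^ 5 = 1`, `⁅E i j a, E j k b⁆ = E i k (a b)` for
different `i, j, k`, and `E i j a` commutes with `E i k b` and with `E k j b`.
`x 0 = E 0 1 1`, `x 1 = E 1 2 1`, `x 2 = E 2 0 t`: the commutators are `E 0 2 1`, `E 1 0 t`, `E 2 1 t` (or
their inverses), which commute with the two elements.  `G` = the subgroup generated by the `x i`
(in the subtype the closure is `⊤`: `Subgroup.closure_closure_coe_preimage`).  `E 0 1 (t^k) ∈ G` for all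
`k`: `⁅E 0 1 (t^k), x 1⁆ = E 0 2 (t^k)`, `⁅x 2, x 0⁆ = E 2 1 t`, `⁅E 0 2 (t^k), E 2 1 t⁆ = E 0 1 (t^(k+1))`.
The `t^k`, `k < 5^m - 1`, are different, so `G` has at least `5^m - 1` elements. -/
def St_EGrp : Prop := ∀ M : ℕ, ∃ (G : Type) (_ : Group G) (_ : Fintype G) (x : Fin 3 → G),
  M ≤ Fintype.card G ∧ Heis3 x

/-- EGr (MEDIUM).  The Cayley graph: transport by `Fintype.equivFin`; `g ~ h` if `g ≠ h` and `h = g (x i)^k`
for some `i`, `k < 5` (symmetric: `(x i)^(5-k)`).  Connected by `gen` (the elements reachable from `g` are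
closed under right multiplication by `x i` and its inverse `(x i)^4`).  Degree at most 15.  Every
ordered pair `(g, h)` is counted at most 15 times in the right side of ESpec, so
`(1/2) ∑ f² ≤ 15 ∑_(g ~ h) (f g - f h)²`.  USES ESpec EGrp. -/
def St_EGr : Prop := ∀ M : ℕ, ∃ (N : ℕ) (G : SimpleGraph (Fin N)), M ≤ N ∧ G.Connected ∧
  (∀ v, {w | G.Adj v w}.ncard ≤ 15) ∧ ∀ f : Fin N → ℝ, ∑ v, f v = 0 →
    (1 / 30) * ∑ v, f v ^ 2 ≤ ∑ v, ∑ w, if G.Adj v w then (f v - f w) ^ 2 else 0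

/-- EExp (EASY).  Choose for every `i` a graph with `N i ≥ i` by EGr.  USES EGr. -/
def St_EExp : Prop := Nonempty Expander

end

end Pool.Agent.Work.MP_1ddc88_an
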