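import Mathlib
import Pool.Agent.Work.MP_1ddc88_an.StmtsE

/-!
# MP_1ddc88_an, block BC, item ESpec: the Poincare inequality for the Cayley graph
-/

set_option autoImplicit false

open Filter Topology
open Pool.Agent.Work.MP_f3c012_al.Df (av St_AV St_HE)
open scoped RealInnerProductSpace Classical commutatorElement

namespace Pool.Agent.Work.MP_1ddc88_an

noncomputable section

namespace IESpec

/-- right translation by `h` on functions -/
def tr (G : Type) [Group G] [Fintype G] (h : G) :
    EuclideanSpace ℝ G ≃ₗᵢ[ℝ] EuclideanSpace ℝ G :=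
  LinearIsometryEquiv.piLpCongrLeft 2 ℝ ℝ (Equiv.mulRight h⁻¹)

theorem tr_apply (G : Type) [Group G] [Fintype G] (h : G) (v : EuclideanSpace ℝ G) (g : G) :
    tr G h v g = v (g * h) := by
  show v (g * h⁻¹⁻¹) = v (g * h)
  rw [inv_inv]

/-- the right regular representation -/
def rep (G : Type) [Group G] [Fintype G] :
    G →* (EuclideanSpace ℝ G ≃ₗᵢ[ℝ] EuclideanSpace ℝ G) where
  toFun h := tr G h
  map_one' := by
    ext v g
    rw [tr_apply, mul_one]
    rfl
  map_mul' a b := by
    ext v g
    show tr G (a * b) v g = tr G a (tr G b v) g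
    rw [tr_apply, tr_apply, tr_apply, mul_assoc]

theorem rep_apply {G : Type} [Group G] [Fintype G] (h : G) (v : EuclideanSpace ℝ G) (g : G) :
    rep G h v g = v (g * h) := tr_apply G h v g

/-- the coordinates of `F - P F` -/
theorem coord {G : Type} [Group G] [Fintype G] (y : G) (F : EuclideanSpace ℝ G) (g : G) :
    (F - av (rep G) 5 y F) g = (1 / 5) * ∑ k ∈ Finset.range 5, (F g - F (g * y ^ k)) := by
  have h1 : (av (rep G) 5 y F) g = (1 / 5) * ∑ k ∈ Finset.range 5, F (g * y ^ k) := by
    have h2 : (EuclideanSpace.proj g : EuclideanSpace ℝ G →L[ℝ] ℝ) (av (rep G) 5 y F) =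
        (1 / 5) * ∑ k ∈ Finset.range 5, F (g * y ^ k) := by
      unfold av
      rw [LinearMap.smul_apply, LinearMap.sum_apply, map_smul, map_sum, smul_eq_mul]
      have h3 : ∀ k, (EuclideanSpace.proj g : EuclideanSpace ℝ G →L[ℝ] ℝ)
          (((rep G (y ^ k)).toLinearEquiv : EuclideanSpace ℝ G →ₗ[ℝ] EuclideanSpace ℝ G) F) =
          F (g * y ^ k) := fun k => rep_apply (y ^ k) F g
      rw [Finset.sum_congr rfl fun k _ => h3 k]
      norm_num
    exact h2
  have h4 : (F - av (rep G) 5 y F) g = F g - (av (rep G) 5 y F) g := rfl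
  rw [h4, h1, Finset.sum_sub_distrib, Finset.sum_const, Finset.card_range, nsmul_eq_mul]
  push_cast
  ring

end IESpec

open IESpec in
theorem pr_ESpec (h1 : St_AV) (h2 : St_EHeis) (h3 : St_ETri) : St_ESpec := by
  intro G _ _ x hx f hf
  have hAV := fun i => h1 G (EuclideanSpace ℝ G) (rep G) 5 (x i) (by norm_num) (hx.pow i)
  have horth : ∀ w : EuclideanSpace ℝ G, (∀ i, av (rep G) 5 (x i) w = w) →
      ⟪(WithLp.toLp 2 f : EuclideanSpace ℝ G), w⟫ = 0 := by
    intro w hw
    have hfix : ∀ i, rep G (x i) w = w := by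
      intro i
      have h5 := (hAV i).1 w
      rw [hw i] at h5
      exact h5
    have hall : ∀ g, rep G g w = w := by
      intro g
      have hg : g ∈ Subgroup.closure (Set.range x) := by
        rw [hx.gen]
        exact Subgroup.mem_top g
      induction hg using Subgroup.closure_induction with
      | mem y hy =>
        obtain ⟨i, rfl⟩ := hy
        exact hfix i
      | one =>
        rw [map_one]
        rfl
      | mul a b _ _ ha hb =>
        rw [map_mul]
        show rep G a (rep G b w) = w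
        rw [hb, ha]
      | inv a _ ha =>
        have h6 : rep G a⁻¹ (rep G a w) = w := by
          have h7 : rep G a⁻¹ (rep G a w) = rep G (a⁻¹ * a) w := by
            rw [map_mul]
            rfl
          rw [h7, inv_mul_cancel, map_one]
          rfl
        rw [ha] at h6
        exact h6
    have hc : ∀ g, w g = w 1 := by
      intro g
      have h8 : rep G g w 1 = w 1 := by rw [hall g]
      rw [rep_apply, one_mul] at h8
      exact h8
    rw [PiLp.inner_apply]
    have h9 : ∀ g : G, ⟪(WithLp.toLp 2 f : EuclideanSpace ℝ G) g, w g⟫ = w 1 * f g := by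
      intro g
      rw [hc g]
      rfl
    rw [Finset.sum_congr rfl fun g _ => h9 g, ← Finset.mul_sum, hf, mul_zero]
  have key := h3 (EuclideanSpace ℝ G) (fun i => av (rep G) 5 (x i))
    (fun i v w => (hAV i).2.2.1 v w) (fun i v => (hAV i).2.2.2.1 v)
    (fun i j hij v => h2 G (EuclideanSpace ℝ G) (rep G) (x i) (x j) (hx.pow i) (hx.pow j)
      (hx.com i j hij).1 (hx.com i j hij).2 v)
    (WithLp.toLp 2 f) horth
  rw [EuclideanSpace.real_norm_sq_eq] at key
  have h4 : ∀ i, ‖(WithLp.toLp 2 f : EuclideanSpace ℝ G) -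
      av (rep G) 5 (x i) (WithLp.toLp 2 f)‖ ^ 2 ≤
      (1 / 5) * ∑ k ∈ Finset.range 5, ∑ g, (f g - f (g * x i ^ k)) ^ 2 := by
    intro i
    rw [EuclideanSpace.real_norm_sq_eq, Finset.sum_comm, Finset.mul_sum]
    refine Finset.sum_le_sum fun g _ => ?_
    rw [coord]
    have h5 := sq_sum_le_card_mul_sum_sq (s := Finset.range 5)
      (f := fun k => f g - f (g * x i ^ k))
    rw [Finset.card_range] at h5
    push_cast at h5
    have h6 : ((1 / 5) * ∑ k ∈ Finset.range 5, ((WithLp.toLp 2 f : EuclideanSpace ℝ G) g -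
        (WithLp.toLp 2 f : EuclideanSpace ℝ G) (g * x i ^ k))) ^ 2 =
        (1 / 25) * (∑ k ∈ Finset.range 5, (f g - f (g * x i ^ k))) ^ 2 := by
      rw [mul_pow]
      norm_num
    rw [h6]
    linarith
  have h5 : (1 / 10) * ∑ g, f g ^ 2 ≤
      ∑ i, (1 / 5) * ∑ k ∈ Finset.range 5, ∑ g, (f g - f (g * x i ^ k)) ^ 2 :=
    key.trans (Finset.sum_le_sum fun i _ => h4 i)
  rw [← Finset.mul_sum] at h5
  linarith

end

end Pool.Agent.Work.MP_1ddc88_an
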