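import Pool.Agent.Work.MP_1ddc88_an.StmtsE

/-!
# MP_1ddc88_an, item ETri
-/

set_option autoImplicit false

open Filter Topology
open scoped RealInnerProductSpace

namespace Pool.Agent.Work.MP_1ddc88_an

namespace IETri

variable {V : Type} [NormedAddCommGroup V] [InnerProductSpace ℝ V]

theorem inner_sub_proj (P : V →ₗ[ℝ] V) (hP : ∀ v w, ⟪P v, w⟫ = ⟪v, P w⟫)
    (hPP : ∀ v, P (P v) = P v) (v w : V) : ⟪v - P v, w⟫ = ⟪v - P v, w - P w⟫ := by
  have h : ⟪v - P v, P w⟫ = 0 := by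
    rw [← hP, map_sub, hPP, sub_self, inner_zero_left]
  rw [inner_sub_right, h, sub_zero]

theorem young (a b : V) : ⟪a, b⟫ ≤ (1 / 20) * ‖a‖ ^ 2 + 5 * ‖b‖ ^ 2 := by
  have h := real_inner_le_norm a b
  nlinarith [sq_nonneg (‖a‖ - 10 * ‖b‖)]

theorem norm_three (a b c : V) : ‖a + b + c‖ ^ 2 =
    ‖a‖ ^ 2 + ‖b‖ ^ 2 + ‖c‖ ^ 2 + 2 * ⟪a, b⟫ + 2 * ⟪a, c⟫ + 2 * ⟪b, c⟫ := by
  rw [norm_add_sq_real, norm_add_sq_real, inner_add_left]
  ring

end IETri

theorem pr_ETri : St_ETri := by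
  intro V _ _ _ P hP hPP hpair v hv
  obtain ⟨T, hT⟩ : ∃ T : V →ₗ[ℝ] V, T = (LinearMap.id - P 0) + (LinearMap.id - P 1) +
    (LinearMap.id - P 2) := ⟨_, rfl⟩
  have T1 : ∀ x, T x = (x - P 0 x) + (x - P 1 x) + (x - P 2 x) := by
    intro x
    rw [hT]
    simp
  have T2 : ∀ x y, ⟪T x, y⟫ = ⟪x - P 0 x, y - P 0 y⟫ + ⟪x - P 1 x, y - P 1 y⟫ +
      ⟪x - P 2 x, y - P 2 y⟫ := by
    intro x y
    rw [T1, inner_add_left, inner_add_left, IETri.inner_sub_proj (P 0) (hP 0) (hPP 0) x y,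
      IETri.inner_sub_proj (P 1) (hP 1) (hPP 1) x y, IETri.inner_sub_proj (P 2) (hP 2) (hPP 2) x y]
  have T3 : ∀ x, (1 / 10) * (‖x - P 0 x‖ ^ 2 + ‖x - P 1 x‖ ^ 2 + ‖x - P 2 x‖ ^ 2) ≤
      ‖T x‖ ^ 2 := by
    intro x
    rw [T1, IETri.norm_three]
    have h1 := hpair 0 1 (by decide) x
    have h2 := hpair 0 2 (by decide) x
    have h3 := hpair 1 2 (by decide) x
    linarith
  have T4 : T.IsSymmetric := by
    intro x y
    rw [T2, real_inner_comm (T y) x, T2, real_inner_comm (y - P 0 y) (x - P 0 x),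
      real_inner_comm (y - P 1 y) (x - P 1 x), real_inner_comm (y - P 2 y) (x - P 2 x)]
  have T5 : v ∈ LinearMap.range T := by
    have h1 : (LinearMap.range T)ᗮ = LinearMap.ker T := T4.orthogonal_range
    have h2 : v ∈ (LinearMap.range T)ᗮᗮ := by
      rw [h1]
      intro w hw
      rw [real_inner_comm]
      apply hv
      have hw0 : T w = 0 := hw
      have h3 : ⟪T w, w⟫ = 0 := by rw [hw0, inner_zero_left]
      rw [T2, real_inner_self_eq_norm_sq, real_inner_self_eq_norm_sq,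
        real_inner_self_eq_norm_sq] at h3
      have p0 : 0 ≤ ‖w - P 0 w‖ ^ 2 := by positivity
      have p1 : 0 ≤ ‖w - P 1 w‖ ^ 2 := by positivity
      have p2 : 0 ≤ ‖w - P 2 w‖ ^ 2 := by positivity
      have key : ∀ x : V, ‖x‖ ^ 2 = 0 → x = 0 := by
        intro x hx
        exact norm_eq_zero.1 (pow_eq_zero_iff (two_ne_zero)|>.1 hx)
      intro i
      have hi : w - P i w = 0 := by
        apply key
        fin_cases i
        · show ‖w - P 0 w‖ ^ 2 = 0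
          linarith
        · show ‖w - P 1 w‖ ^ 2 = 0
          linarith
        · show ‖w - P 2 w‖ ^ 2 = 0
          linarith
      exact (sub_eq_zero.1 hi).symm
    rwa [Submodule.orthogonal_orthogonal] at h2
  obtain ⟨h, hh⟩ := T5
  have e1 : ‖v‖ ^ 2 = ⟪T h, v⟫ := by
    rw [hh, real_inner_self_eq_norm_sq]
  rw [T2] at e1
  have y0 := IETri.young (h - P 0 h) (v - P 0 v)
  have y1 := IETri.young (h - P 1 h) (v - P 1 v)
  have y2 := IETri.young (h - P 2 h) (v - P 2 v)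
  have e2 := T3 h
  rw [hh] at e2
  rw [Fin.sum_univ_three]
  linarith

end Pool.Agent.Work.MP_1ddc88_an
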