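import Pool.Agent.Work.MP_1ddc88_an.Stmts

/-!
# MP_1ddc88_an, block BC, item End
-/

set_option autoImplicit false

open Filter Topology
open scoped ENNReal Classical

namespace Pool.Agent.Work.MP_1ddc88_an

noncomputable section

namespace IEnd

/-- the compression of one operator, completed by the identity -/
def UU (X : Expander) (i : ℕ) (T : Op X) : Op X := Q X i * T * Q X i + (1 - Q X i)

theorem hat_stab (X : Expander) (n i : ℕ) (T : Op X) :
    hat X i (stab X n T) = stab X n (UU X i T) := by
  funext a b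
  unfold hat stab UU
  by_cases h : a = b
  · subst h
    rw [Matrix.diagonal_apply_eq, Matrix.diagonal_apply_eq, if_pos rfl]
    by_cases h0 : a = 0
    · rw [if_pos h0, if_pos h0]
    · rw [if_neg h0, if_neg h0, mul_one, Q_idem]
      abel
  · rw [Matrix.diagonal_apply_ne _ h, Matrix.diagonal_apply_ne _ h, if_neg h]
    simp

theorem stab_mul (X : Expander) (n : ℕ) (S T : Op X) :
    stab X n S * stab X n T = stab X n (S * T) := by
  unfold stab
  rw [Matrix.diagonal_mul_diagonal]
  congr 1
  funext i
  split_ifs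
  · rfl
  · rw [mul_one]

theorem stab_one_iff (X : Expander) (n : ℕ) (T : Op X) : stab X n T = 1 ↔ T = 1 := by
  constructor
  · intro h
    have h1 := congrFun (congrFun h 0) 0
    unfold stab at h1
    rw [Matrix.diagonal_apply_eq, if_pos rfl, Matrix.one_apply_eq] at h1
    exact h1
  · rintro rfl
    unfold stab
    rw [← Matrix.diagonal_one]
    congr 1
    funext i
    split_ifs <;> rfl

end IEnd

theorem pr_End (h1 : St_UB) (h2 : St_PUo) : St_End := by
  intro X n i a hai hPU
  rw [IEnd.hat_stab] at hPU
  rcases lt_or_gt_of_ne hai with h | h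
  · obtain ⟨e1, e2⟩ := h1 X (fun j => -a j) i (by show 0 < -a i; omega)
    simp only [neg_neg] at e1 e2
    have e3 := (h2 X (n + 1) (stab X n (IEnd.UU X i (u X a)))
      (stab X n (IEnd.UU X i (u X (fun j => -a j)))) hPU).2
      (by rw [IEnd.stab_mul]; exact (IEnd.stab_one_iff X n _).2 e1)
    rw [IEnd.stab_mul, IEnd.stab_one_iff] at e3
    exact e2 e3
  · obtain ⟨e1, e2⟩ := h1 X a i h
    have e3 := (h2 X (n + 1) (stab X n (IEnd.UU X i (u X a)))
      (stab X n (IEnd.UU X i (u X (fun j => -a j)))) hPU).1
      (by rw [IEnd.stab_mul]; exact (IEnd.stab_one_iff X n _).2 e1)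
    rw [IEnd.stab_mul, IEnd.stab_one_iff] at e3
    exact e2 e3

end

end Pool.Agent.Work.MP_1ddc88_an
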