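import Pool.Agent.Work.MP_1ddc88_an.Stmts

/-!
# MP_1ddc88_an, item FPC (helper58): sums and products of operators of finite propagation
-/

set_option autoImplicit false

namespace Pool.Agent.Work.MP_1ddc88_an

open Filter Topology

theorem pr_FPC (h1 : St_Met) : St_FPC := by
  intro X R R' S T hS hT
  refine ⟨?_, ?_, ?_, ?_⟩
  · intro ξ p hp
    have h2 : (S * T) ξ p = S (T ξ) p := rfl
    rw [h2] at hp
    obtain ⟨q, hq, hd⟩ := hS _ p hp
    obtain ⟨r, hr, hd'⟩ := hT _ q hq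
    refine ⟨r, hr, ?_⟩
    exact (h1 X p.1 q.1 r.1).2.2.2.trans (add_le_add hd hd')
  · intro ξ p hp
    have h2 : (S + T) ξ p = S ξ p + T ξ p := rfl
    rw [h2] at hp
    by_cases h3 : S ξ p = 0
    · rw [h3, zero_add] at hp
      obtain ⟨q, hq, hd⟩ := hT _ p hp
      exact ⟨q, hq, hd.trans (le_max_right _ _)⟩
    · obtain ⟨q, hq, hd⟩ := hS _ p h3
      exact ⟨q, hq, hd.trans (le_max_left _ _)⟩
  · intro ξ p hp
    have h2 : (S - T) ξ p = S ξ p - T ξ p := rfl
    rw [h2] at hp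
    by_cases h3 : S ξ p = 0
    · rw [h3, zero_sub, neg_ne_zero] at hp
      obtain ⟨q, hq, hd⟩ := hT _ p hp
      exact ⟨q, hq, hd.trans (le_max_right _ _)⟩
    · obtain ⟨q, hq, hd⟩ := hS _ p h3
      exact ⟨q, hq, hd.trans (le_max_left _ _)⟩
  · intro c ξ p hp
    have h2 : (c • S) ξ p = c * S ξ p := rfl
    rw [h2] at hp
    exact hS ξ p (right_ne_zero_of_mul hp)

end Pool.Agent.Work.MP_1ddc88_an
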