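import Pool.Agent.Work.MP_1ddc88_an.Stmts

/-!
# MP_1ddc88_an, item Far: ghosts are small far out in a block
-/

set_option autoImplicit false

open Filter Topology
open scoped ENNReal Classical

namespace Pool.Agent.Work.MP_1ddc88_an

namespace IFar

theorem fin_supp {ι : Type} [DecidableEq ι] (A : Finset ι) (η : L2 ι) (p : ι)
    (h : (∑ q ∈ A, lp.single (E := fun _ : ι => ℂ) 2 q (η q) : L2 ι) p ≠ 0) : p ∈ A := by
  by_contra hp
  apply h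
  rw [lp.coeFn_sum, Finset.sum_apply]
  apply Finset.sum_eq_zero
  intro q hq
  refine lp.single_apply_ne (E := fun _ : ι => ℂ) 2 q (η q) (j := p) (fun e => hp ?_)
  rw [e]
  exact hq

theorem proj_le {ι : Type} (S : Set ι) (ξ : L2 ι) : ‖proj S ξ‖ ≤ ‖ξ‖ := by
  have h1 := (proj S).le_opNorm ξ
  have h2 := proj_norm_le S
  nlinarith [norm_nonneg ξ]

theorem bound (X : Expander) (T : Op X) (i n : ℕ) (δ : ℝ) (hδ : 0 ≤ δ)
    (h : ∀ (L : ℕ) (ξ : Hs X), proj {p : Ix X | p.1.1.1 = i ∧ n ≤ p.1.2 ∧ p.1.2 < L} ξ = ξ →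
      ‖Q X i (T ξ)‖ ≤ δ * ‖ξ‖) :
    ‖Q X i * T * proj {p : Ix X | p.1.1.1 = i ∧ n ≤ p.1.2}‖ ≤ δ := by
  apply ContinuousLinearMap.opNorm_le_bound _ hδ
  intro η
  set B : Set (Ix X) := {p : Ix X | p.1.1.1 = i ∧ n ≤ p.1.2} with hB
  set U : Op X := Q X i * T * proj B with hU
  have hs : Tendsto (fun A : Finset (Ix X) =>
      (∑ q ∈ A, lp.single (E := fun _ : Ix X => ℂ) 2 q (η q) : Hs X)) atTop (𝓝 η) :=
    lp.hasSum_single (by norm_num) η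
  have c1 : Continuous fun ξ : Hs X => ‖U ξ‖ := U.continuous.norm
  have c2 : Continuous fun ξ : Hs X => δ * ‖ξ‖ := continuous_const.mul continuous_norm
  refine le_of_tendsto_of_tendsto ((c1.tendsto η).comp hs) ((c2.tendsto η).comp hs)
    (Eventually.of_forall fun A => ?_)
  show ‖U (∑ q ∈ A, lp.single (E := fun _ : Ix X => ℂ) 2 q (η q) : Hs X)‖ ≤
    δ * ‖(∑ q ∈ A, lp.single (E := fun _ : Ix X => ℂ) 2 q (η q) : Hs X)‖
  set ξ : Hs X := ∑ q ∈ A, lp.single (E := fun _ : Ix X => ℂ) 2 q (η q) with hξ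
  have h1 : U ξ = Q X i (T (proj B ξ)) := rfl
  rw [h1]
  refine (h ((A.sup fun p => p.1.2) + 1) (proj B ξ) ?_).trans
    (mul_le_mul_of_nonneg_left (proj_le B ξ) hδ)
  rw [proj_eq_self_iff]
  intro p hp
  rw [proj_apply] at hp
  by_cases hpB : p ∈ B
  · rw [if_pos hpB] at hp
    have hpA : p ∈ A := fin_supp A η p hp
    have h2 : p.1.2 ≤ A.sup fun p => p.1.2 := Finset.le_sup (f := fun p : Ix X => p.1.2) hpA
    exact ⟨hpB.1, hpB.2, Nat.lt_succ_of_le h2⟩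
  · rw [if_neg hpB] at hp
    exact absurd rfl hp

theorem main (h1 : St_Loc) (X : Expander) (T : Op X) (hT : T ∈ Ghost X) (i : ℕ) (δ : ℝ)
    (hδ : 0 < δ) : ∃ n₀ : ℕ, ∀ n, n₀ ≤ n →
    ‖Q X i * T * proj {p : Ix X | p.1.1.1 = i ∧ n ≤ p.1.2}‖ ≤ δ := by
  obtain ⟨hR, hG⟩ := hT
  obtain ⟨S, ⟨⟨R, hS⟩, _⟩, hd⟩ := Metric.mem_closure_iff.mp hR (δ / 4) (by positivity)
  rw [dist_eq_norm] at hd
  -- the number `M`
  set κ : ℝ := δ / (4 * (‖S‖ + 1)) with hκ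
  have hS0 : 0 ≤ ‖S‖ := norm_nonneg S
  have hκ0 : 0 < κ := by positivity
  obtain ⟨M0, hM0⟩ := exists_nat_ge (2 * (R : ℝ) / κ ^ 2)
  set M : ℕ := M0 + 1 with hM
  have hMpos : 0 < M := Nat.succ_pos _
  have hMr : (0 : ℝ) < M := by exact_mod_cast hMpos
  have hsq : Real.sqrt (2 * R / M) ≤ κ := by
    rw [Real.sqrt_le_left hκ0.le, div_le_iff₀ hMr]
    have h2 : 2 * (R : ℝ) / κ ^ 2 ≤ M := by
      refine hM0.trans ?_
      rw [hM]
      push_cast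
      linarith
    rw [div_le_iff₀ (by positivity)] at h2
    linarith
  have hb1 : ‖S‖ * Real.sqrt (2 * R / M) ≤ δ / 4 := by
    calc ‖S‖ * Real.sqrt (2 * R / M) ≤ (‖S‖ + 1) * κ :=
          mul_le_mul (by linarith) hsq (Real.sqrt_nonneg _) (by linarith)
      _ = δ / 4 := by
          rw [hκ]
          field_simp
  -- the number `θ`
  set Y : ℝ := ((M : ℝ) * X.N i) ^ 2 with hY
  have hY0 : 0 ≤ Y := sq_nonneg _
  set θ : ℝ := δ / (4 * (Y + 1)) with hθ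
  have hθ0 : 0 < θ := by positivity
  have hb2 : Y * θ ≤ δ / 4 := by
    calc Y * θ ≤ (Y + 1) * θ := mul_le_mul_of_nonneg_right (by linarith) hθ0.le
      _ = δ / 4 := by
          rw [hθ]
          field_simp
  obtain ⟨F, hF⟩ := hG θ hθ0
  refine ⟨(F.sup fun w => w.2) + 1, fun n hn => ?_⟩
  apply bound X T i n δ hδ.le
  intro L ξ hξ
  have h2 := h1 X i R M n L T S (δ / 4) θ hMpos (by positivity) hθ0.le hS hd.le (by
    intro z w _ _ hw
    apply hF z w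
    right
    intro hwF
    have : w.2 ≤ F.sup fun w => w.2 := Finset.le_sup (f := fun w : Z X => w.2) hwF
    omega) ξ hξ
  have h3 : Q X i (T ξ) = Q X i (S ξ) + Q X i ((T - S) ξ) := by
    rw [← map_add]
    congr 1
    rw [ContinuousLinearMap.sub_apply]
    abel
  have h4 : ‖Q X i ((T - S) ξ)‖ ≤ δ / 4 * ‖ξ‖ := by
    calc ‖Q X i ((T - S) ξ)‖ ≤ ‖(T - S) ξ‖ := by
          have := (Q X i).le_opNorm ((T - S) ξ)
          have h5 := Q_norm_le X i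
          nlinarith [norm_nonneg ((T - S) ξ)]
      _ ≤ ‖T - S‖ * ‖ξ‖ := (T - S).le_opNorm ξ
      _ ≤ δ / 4 * ‖ξ‖ := mul_le_mul_of_nonneg_right hd.le (norm_nonneg ξ)
  have h5 : (Y * θ + δ / 4 + ‖S‖ * Real.sqrt (2 * R / M)) * ‖ξ‖ ≤
      (δ / 4 + δ / 4 + δ / 4) * ‖ξ‖ :=
    mul_le_mul_of_nonneg_right (by linarith) (norm_nonneg ξ)
  rw [h3]
  calc ‖Q X i (S ξ) + Q X i ((T - S) ξ)‖ ≤ ‖Q X i (S ξ)‖ + ‖Q X i ((T - S) ξ)‖ :=
        norm_add_le _ _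
    _ ≤ (δ / 4 + δ / 4 + δ / 4) * ‖ξ‖ + δ / 4 * ‖ξ‖ := add_le_add (h2.trans h5) h4
    _ = δ * ‖ξ‖ := by ring

end IFar

theorem pr_Far (h1 : St_Loc) : St_Far := by
  intro X T hT i
  rw [Metric.tendsto_atTop]
  intro ε hε
  obtain ⟨n₀, hn₀⟩ := IFar.main h1 X T hT i (ε / 2) (by positivity)
  refine ⟨n₀, fun n hn => ?_⟩
  rw [Real.dist_0_eq_abs, abs_of_nonneg (norm_nonneg _)]
  exact (hn₀ n hn).trans_lt (by linarith)

end Pool.Agent.Work.MP_1ddc88_an
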