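import Pool.Agent.Work.MP_1ddc88_an.Stmts

/-!
# MP_1ddc88_an, item Fib: the norm of an operator from the fibres of a map
-/

set_option autoImplicit false

open Filter Topology
open scoped ENNReal Classical

namespace Pool.Agent.Work.MP_1ddc88_an

noncomputable section

namespace IFib

/-- The norm square as a sum over the fibres. -/
theorem fib_sum {ι κ : Type} (π : ι → κ) (ξ : L2 ι) :
    Summable (fun c : κ => ∑' p : {p // π p = c}, ‖ξ p‖ ^ 2) ∧
    ‖ξ‖ ^ 2 = ∑' c : κ, ∑' p : {p // π p = c}, ‖ξ p‖ ^ 2 := by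
  have hs : Summable (fun s : (Σ c : κ, {p // π p = c}) => ‖ξ s.2‖ ^ 2) :=
    (Equiv.sigmaFiberEquiv π).summable_iff.2 (l2_summable ξ)
  refine ⟨hs.sigma, ?_⟩
  rw [l2_norm_sq, ← (Equiv.sigmaFiberEquiv π).tsum_eq (fun p => ‖ξ p‖ ^ 2)]
  exact hs.tsum_sigma

end IFib

/-- Fib: the norm of an operator from the fibres of a map. -/
theorem pr_Fib : St_Fib := by
  intro ι κ π T lam hlam h
  refine ContinuousLinearMap.opNorm_le_bound T hlam fun ξ => ?_
  obtain ⟨s1, e1⟩ := IFib.fib_sum π (T ξ)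
  obtain ⟨s2, e2⟩ := IFib.fib_sum π ξ
  have h1 : ‖T ξ‖ ^ 2 ≤ (lam * ‖ξ‖) ^ 2 := by
    rw [mul_pow, e1, e2, ← tsum_mul_left]
    exact s1.tsum_le_tsum (fun c => h ξ c) (s2.mul_left _)
  exact le_of_sq_le_sq h1 (mul_nonneg hlam (norm_nonneg _))

end

end Pool.Agent.Work.MP_1ddc88_an
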