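import Pool.Agent.Work.MP_1ddc88_an.Stmts

/-!
# MP_1ddc88_an, item Geo: bounded geometry
-/

set_option autoImplicit false

open Filter Topology
open scoped ENNReal Classical

namespace Pool.Agent.Work.MP_1ddc88_an

noncomputable section

namespace IGeo

theorem dX_same (X : Expander) (i : ℕ) (v w : Fin (X.N i)) :
    dX X ⟨i, v⟩ ⟨i, w⟩ = (X.G i).dist v w := by
  unfold dX
  rw [dif_pos (show (⟨i, v⟩ : Pt X).1 = (⟨i, w⟩ : Pt X).1 from rfl)]

theorem dX_diff (X : Expander) (p q : Pt X) (h : p.1 ≠ q.1) :
    dX X p q = p.1 + q.1 + 1 + (X.G p.1).dist p.2 (X.base p.1) +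
      (X.G q.1).dist q.2 (X.base q.1) := by
  unfold dX
  rw [dif_neg h]

/-- the balls of the graphs -/
theorem ball (X : Expander) (i : ℕ) (v : Fin (X.N i)) (r : ℕ) :
    (Finset.univ.filter fun w => (X.G i).dist v w ≤ r).card ≤ (X.D + 1) ^ r := by
  induction r with
  | zero =>
    rw [pow_zero, Finset.card_le_one]
    intro a ha b hb
    rw [Finset.mem_filter, Nat.le_zero, (X.conn i).dist_eq_zero_iff] at ha hb
    rw [← ha.2, ← hb.2]
  | succ r ih =>
    have hsub : (Finset.univ.filter fun w => (X.G i).dist v w ≤ r + 1) ⊆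
        (Finset.univ.filter fun w => (X.G i).dist v w ≤ r).biUnion
          (fun u => insert u (Finset.univ.filter fun w => (X.G i).Adj u w)) := by
      intro w hw
      rw [Finset.mem_filter] at hw
      obtain ⟨p, hp⟩ := (X.conn i).exists_walk_length_eq_dist w v
      rw [Finset.mem_biUnion]
      cases p with
      | nil =>
        refine ⟨v, ?_, Finset.mem_insert_self _ _⟩
        rw [Finset.mem_filter]
        refine ⟨Finset.mem_univ _, ?_⟩
        rw [SimpleGraph.dist_self]
        exact Nat.zero_le _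
      | cons h p' =>
        rename_i u
        refine ⟨u, ?_, ?_⟩
        · rw [Finset.mem_filter]
          refine ⟨Finset.mem_univ _, ?_⟩
          rw [SimpleGraph.dist_comm]
          have h1 := SimpleGraph.dist_le p'
          rw [SimpleGraph.Walk.length_cons, SimpleGraph.dist_comm] at hp
          omega
        · rw [Finset.mem_insert, Finset.mem_filter]
          exact Or.inr ⟨Finset.mem_univ _, h.symm⟩
    refine (Finset.card_le_card hsub).trans ?_
    refine (Finset.card_biUnion_le_card_mul _ _ (X.D + 1) fun u _ => ?_).trans ?_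
    · refine (Finset.card_insert_le _ _).trans ?_
      have h1 := X.deg i u
      have h2 : {w | (X.G i).Adj u w}.ncard = (Finset.univ.filter fun w => (X.G i).Adj u w).card := by
        rw [← Set.ncard_coe_finset]
        congr 1
        ext w
        simp
      omega
    · rw [pow_succ]
      exact Nat.mul_le_mul_right _ ih

end IGeo

open IGeo in
/-- item Geo -/
theorem pr_Geo : St_Geo := by
  intro X R
  refine ⟨((X.D + 1) ^ R + ∑ j ∈ Finset.range R, X.N j) * (2 * R + 1), ?_⟩
  rintro ⟨⟨i, v⟩, m⟩
  set F : Finset (Pt X) := ((Finset.univ.filter fun w => (X.G i).dist v w ≤ R).image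
    (fun w => (⟨i, w⟩ : Pt X))) ∪ (Finset.range R).sigma (fun j => (Finset.univ : Finset (Fin (X.N j))))
    with hF
  have hFc : F.card ≤ (X.D + 1) ^ R + ∑ j ∈ Finset.range R, X.N j := by
    refine (Finset.card_union_le _ _).trans (add_le_add ?_ ?_)
    · exact Finset.card_image_le.trans (ball X i v R)
    · rw [Finset.card_sigma]
      refine Finset.sum_le_sum fun j _ => ?_
      rw [Finset.card_univ, Fintype.card_fin]
  have hsub : {w : Z X | dZ X (⟨i, v⟩, m) w ≤ R} ⊆
      ((F ×ˢ Finset.Icc (m - R) (m + R) : Finset (Z X)) : Set (Z X)) := by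
    rintro ⟨⟨j, w⟩, m'⟩ hw
    have hw' : dX X ⟨i, v⟩ ⟨j, w⟩ + ((m - m') + (m' - m)) ≤ R := hw
    rw [Finset.mem_coe, Finset.mem_product, Finset.mem_Icc]
    refine ⟨?_, by show m - R ≤ m'; omega, by show m' ≤ m + R; omega⟩
    show (⟨j, w⟩ : Pt X) ∈ F
    rw [hF, Finset.mem_union]
    by_cases hij : i = j
    · subst hij
      left
      rw [Finset.mem_image]
      refine ⟨w, ?_, rfl⟩
      rw [Finset.mem_filter]
      rw [dX_same] at hw'
      exact ⟨Finset.mem_univ _, by omega⟩
    · right
      rw [Finset.mem_sigma, Finset.mem_range]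
      refine ⟨?_, Finset.mem_univ _⟩
      rw [dX_diff X _ _ hij] at hw'
      show j < R
      have : i + j + 1 + (X.G i).dist v (X.base i) + (X.G j).dist w (X.base j) +
        ((m - m') + (m' - m)) ≤ R := hw'
      omega
  refine ⟨(Finset.finite_toSet _).subset hsub, ?_⟩
  refine (Set.ncard_le_ncard hsub (Finset.finite_toSet _)).trans ?_
  rw [Set.ncard_coe_finset, Finset.card_product]
  refine Nat.mul_le_mul hFc ?_
  rw [Nat.card_Icc]
  omega

end

end Pool.Agent.Work.MP_1ddc88_an
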