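import Pool.Agent.Work.MP_1ddc88_an.Stmts

/-!
# MP_1ddc88_an, block BC, item HM (helper37)
-/

set_option autoImplicit false

open Filter Topology
open scoped ENNReal Classical

namespace Pool.Agent.Work.MP_1ddc88_an

noncomputable section

namespace IHM

/-- the compression in a ring -/
def cmp {R : Type} [Ring R] (q : R) {n : ℕ} (x : Matrix (Fin n) (Fin n) R) :
    Matrix (Fin n) (Fin n) R :=
  fun a b => q * x a b * q + if a = b then 1 - q else 0

theorem term {R : Type} [Ring R] {q : R} (hq : q * q = q) {n : ℕ}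
    (x y : Matrix (Fin n) (Fin n) R) (a b c : Fin n) :
    cmp q x a c * cmp q y c b =
      (q * (x a c * y c b) * q - q * x a c * ((1 - q) * y c b * q)) +
        if a = c then (if c = b then 1 - q else 0) else 0 := by
  have h1 : q * (1 - q) = 0 := by rw [mul_sub, mul_one, hq, sub_self]
  have h2 : (1 - q) * q = 0 := by rw [sub_mul, one_mul, hq, sub_self]
  have h3 : (1 - q) * (1 - q) = 1 - q := by rw [mul_sub, mul_one, h2, sub_zero]
  have e1 : q * x a c * q * (q * y c b * q) =
      q * (x a c * y c b) * q - q * x a c * ((1 - q) * y c b * q) := by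
    have : q * x a c * q * (q * y c b * q) = q * x a c * (q * q) * y c b * q := by noncomm_ring
    rw [this, hq]
    noncomm_ring
  have e2 : q * x a c * q * (1 - q) = 0 := by rw [mul_assoc, h1, mul_zero]
  have e3 : (1 - q) * (q * y c b * q) = 0 := by
    rw [mul_assoc q, ← mul_assoc (1 - q), h2, zero_mul]
  unfold cmp
  rw [add_mul, mul_add, mul_add, e1]
  by_cases hac : a = c
  · by_cases hcb : c = b
    · rw [if_pos hac, if_pos hcb, if_pos hac, e2, e3, h3]
      abel
    · rw [if_pos hac, if_neg hcb, if_pos hac, e3, mul_zero, mul_zero]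
      abel
  · by_cases hcb : c = b
    · rw [if_neg hac, if_pos hcb, if_neg hac, e2, zero_mul, zero_mul]
      abel
    · rw [if_neg hac, if_neg hcb, if_neg hac, mul_zero, zero_mul, zero_mul]
      abel

theorem mul_eq {R : Type} [Ring R] {q : R} (hq : q * q = q) {n : ℕ}
    (x y : Matrix (Fin n) (Fin n) R) (a b : Fin n) :
    (cmp q x * cmp q y - 1) a b =
      q * (x * y - 1) a b * q - ∑ c, q * x a c * ((1 - q) * y c b * q) := by
  rw [Matrix.sub_apply, Matrix.mul_apply, Matrix.sub_apply, Matrix.mul_apply]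
  rw [Finset.sum_congr rfl fun c _ => term hq x y a b c, Finset.sum_add_distrib,
    Finset.sum_sub_distrib]
  have h1 : ∑ c : Fin n, (if a = c then (if c = b then 1 - q else 0) else 0) =
      if a = b then 1 - q else 0 := by
    rw [Finset.sum_ite_eq]
    rw [if_pos (Finset.mem_univ a)]
  rw [h1, mul_sub, sub_mul, Finset.mul_sum, Finset.sum_mul]
  by_cases hab : a = b
  · rw [if_pos hab, hab, Matrix.one_apply_eq, mul_one, hq]
    abel
  · rw [if_neg hab, Matrix.one_apply_ne hab, mul_zero, zero_mul]
    abel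

theorem one_eq {R : Type} [Ring R] {q : R} (hq : q * q = q) {n : ℕ} :
    cmp q (1 : Matrix (Fin n) (Fin n) R) = 1 := by
  ext a b
  unfold cmp
  by_cases hab : a = b
  · rw [if_pos hab, hab, Matrix.one_apply_eq, mul_one, hq]
    abel
  · rw [if_neg hab, Matrix.one_apply_ne hab, mul_zero, zero_mul, add_zero]

theorem hat_eq (X : Expander) (i : ℕ) {n : ℕ} (x : Mat X n) : hat X i x = cmp (Q X i) x := rfl

end IHM

theorem pr_HM : St_HM := by
  intro X n i x y
  refine ⟨fun a b => ?_, ?_⟩
  · rw [IHM.hat_eq, IHM.hat_eq]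
    exact IHM.mul_eq (Q_idem X i) x y a b
  · rw [IHM.hat_eq]
    exact IHM.one_eq (Q_idem X i)

end

end Pool.Agent.Work.MP_1ddc88_an
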