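import Pool.Agent.Work.MP_1ddc88_an.Stmts

/-!
# MP_1ddc88_an, item LC: products with operators of finite propagation (helper59)
-/

set_option autoImplicit false

open Filter Topology
open scoped ENNReal Classical

namespace Pool.Agent.Work.MP_1ddc88_an

noncomputable section

namespace ILC

theorem fin_comp (X : Expander) (T : Op X) (hT : LocComp X T) (F : Finset (Z X)) :
    IsCompactOperator (proj {p : Ix X | p.1 ∈ F} ∘L T) := by
  induction F using Finset.induction_on with
  | empty =>
    have h : ({p : Ix X | p.1 ∈ (∅ : Finset (Z X))}) = ∅ := by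
      ext p
      simp
    rw [h, proj_empty, ContinuousLinearMap.zero_comp]
    exact isCompactOperator_zero
  | insert w F hw ih =>
    have h : ({p : Ix X | p.1 ∈ insert w F}) = cell X w ∪ {p : Ix X | p.1 ∈ F} := by
      ext p
      simp [cell]
    have hd : Disjoint (cell X w) {p : Ix X | p.1 ∈ F} := by
      rw [Set.disjoint_left]
      intro p hp hp'
      have h1 : p.1 = w := hp
      have h2 : p.1 ∈ F := hp'
      rw [h1] at h2
      exact hw h2
    rw [h, proj_union _ _ hd, ContinuousLinearMap.add_comp]
    exact (hT w).2.add ih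

end ILC

theorem pr_LC (h1 : St_Geo) : St_LC := by
  intro X R S T hS hT z
  constructor
  · have h := (hT z).1.clm_comp S
    exact h
  · obtain ⟨B, hB⟩ := h1 X R
    have hfin : {w | dZ X z w ≤ R}.Finite := (hB z).1
    have key : proj (cell X z) ∘L (S * T) =
        (proj (cell X z) ∘L S) ∘L (proj {p : Ix X | p.1 ∈ hfin.toFinset} ∘L T) := by
      apply op_ext
      intro ξ p
      show proj (cell X z) (S (T ξ)) p =
        proj (cell X z) (S (proj {p : Ix X | p.1 ∈ hfin.toFinset} (T ξ))) p
      rw [proj_apply, proj_apply]
      by_cases hp : p ∈ cell X z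
      · rw [if_pos hp, if_pos hp]
        have hp' : p.1 = z := hp
        by_contra hne
        have hsub : S (T ξ - proj {p : Ix X | p.1 ∈ hfin.toFinset} (T ξ)) p ≠ 0 := by
          rw [map_sub]
          show (S (T ξ) p - S (proj {p : Ix X | p.1 ∈ hfin.toFinset} (T ξ)) p) ≠ 0
          exact sub_ne_zero.mpr hne
        obtain ⟨q, hq, hd⟩ := hS _ p hsub
        apply hq
        show (T ξ q - proj {p : Ix X | p.1 ∈ hfin.toFinset} (T ξ) q) = 0
        rw [proj_apply, if_pos, sub_self]
        show q.1 ∈ hfin.toFinset
        rw [Set.Finite.mem_toFinset]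
        show dZ X z q.1 ≤ R
        rw [← hp']
        exact hd
      · rw [if_neg hp, if_neg hp]
    rw [key]
    have h := (ILC.fin_comp X T hT hfin.toFinset).clm_comp (proj (cell X z) ∘L S)
    exact h

end

end Pool.Agent.Work.MP_1ddc88_an
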