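import Pool.Agent.Work.MP_1ddc88_an.Basic

/-!
# MP_1ddc88_an, block BC: statements of the items

Every docstring is the complete proof.  Item `K`: statement `St_K`, file `I_K.lean` in this folder,
theorem `pr_K`, with the statements named after USES as hypotheses in the given order
(`theorem pr_K (h1 : St_A) (h2 : St_B) : St_K`); namespace as here, auxiliary lemmas in the
sub-namespace `IK`.  Basic facts about `proj`, `kerOp`, `Q`: files `Ker.lean`, `Basic.lean`.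
`*` on `Op X` is composition (`ContinuousLinearMap.mul_def`).
-/

set_option autoImplicit false

open Filter Topology
open scoped ENNReal Classical

namespace Pool.Agent.Work.MP_1ddc88_an

noncomputable section

/-- `x` is the sum of an invertible matrix and a matrix of compact operators. -/
def PU (X : Expander) {n : ℕ} (x : Mat X n) : Prop :=
  ∃ A : Mat X n, IsUnit A ∧ ∀ a b, IsCompactOperator ((x - A) a b)

/-- The compression of `x` to the block `i`, completed by the identity. -/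
def hat (X : Expander) (i : ℕ) {n : ℕ} (x : Mat X n) : Mat X n :=
  fun a b => Q X i * x a b * Q X i + if a = b then 1 - Q X i else 0

/-! ## Geometry -/

/-- Met (MEDIUM).  `dX` is a metric on `Pt X` (then `dZ` is one: the second summand is `|m - n|`).
Write points as `⟨i, v⟩`; `dX ⟨i, v⟩ ⟨i, w⟩ = (G i).dist v w` (`dif_pos rfl`), a metric because `G i` is
connected.  For `i ≠ j` the value is `i + j + 1 + |v| + |w| > 0`, `|v|` = distance to the base point.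
Triangle inequality `x z ≤ x y + y z`, cases for the indices `i, j, k` of `x, y, z`: all equal: graph;
`i = j ≠ k`: `|v| ≤ dist v v' + |v'|`; `i = k ≠ j`: `dist v w ≤ |v| + |w|`; the rest is `omega`. -/
def St_Met : Prop := ∀ (X : Expander) (x y z : Z X), dZ X x x = 0 ∧ (dZ X x y = 0 → x = y) ∧
  dZ X x y = dZ X y x ∧ dZ X x z ≤ dZ X x y + dZ X y z

/-- Geo (MEDIUM).  Bounded geometry.  `w = (⟨j, w'⟩, m')`: `m'` is one of `2R+1` numbers.  `j = i`: `w'`
is in the ball of radius `R` in `G i`, with at most `(D+1)^R` points (by induction: every point of the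
ball of radius `r + 1` is a point of the ball of radius `r` or a neighbour of one; `G i` is connected).
`j ≠ i`: `j < R`, at most `∑_(j<R) N j` points.  So `B = (2R+1) ((D+1)^R + ∑_(j<R) N j)`. -/
def St_Geo : Prop := ∀ (X : Expander) (R : ℕ), ∃ B : ℕ, ∀ z : Z X,
  {w | dZ X z w ≤ R}.Finite ∧ {w | dZ X z w ≤ R}.ncard ≤ B

/-! ## The operators `Pav`, `Sh a`, `u a` -/

/-- PavF (EASY-MEDIUM).  The kernel of `Pav` is `IsMarkov`: for fixed `p` with `p.2 = 0` the `q` with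
non zero entry are `((⟨i, v⟩, m), 0)`, `v : Fin (N i)`, each with entry `1/N i` (use
`hasSum_sum_of_ne_finset_zero` with the image finset or `tsum_eq_sum`); symmetric in `p, q`.  Then
`kerOp_apply`. -/
def St_PavF : Prop := ∀ (X : Expander), (IsMarkov (fun p q : Ix X =>
  if p.1.1.1 = q.1.1.1 ∧ p.1.2 = q.1.2 ∧ p.2 = 0 ∧ q.2 = 0
    then ((X.N q.1.1.1 : ℂ))⁻¹ else 0)) ∧
  ∀ (ξ : Hs X) (p : Ix X), Pav X ξ p =
    if p.2 = 0 then (X.N p.1.1.1 : ℂ)⁻¹ * ∑ v : Fin (X.N p.1.1.1), ξ ((⟨p.1.1.1, v⟩, p.1.2), 0)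
    else 0

/-- ShF (EASY-MEDIUM).  The kernel of `Sh a` is `IsMarkov`: every row and every column has at most one
non zero entry, equal to 1.  Then `kerOp_apply` and `tsum_eq_single`. -/
def St_ShF : Prop := ∀ (X : Expander) (a : ℕ → ℤ), (IsMarkov (fun p q : Ix X =>
  if p.1.1 = q.1.1 ∧ (p.1.2 : ℤ) = q.1.2 + a q.1.1.1 ∧ p.2 = q.2 then (1 : ℂ) else 0)) ∧
  ∀ (ξ : Hs X) (x : Pt X) (m k : ℕ), Sh X a ξ ((x, m), k) =
    if 0 ≤ (m : ℤ) - a x.1 then ξ ((x, ((m : ℤ) - a x.1).toNat), k) else 0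

/-- ShP (EASY-MEDIUM).  From the formulas: `Pav` is idempotent, `Pav` and `Sh a` commute, `Sh 0 = 1`,
`Sh a` and `1` have finite propagation if `|a| ≤ C` (`dX x x = 0`, `dZ ((x,m),(x,m')) = |m - m'|`),
`Sh a` commutes with the projections `Q i`, and `Pav` too.  USES Met PavF ShF. -/
def St_ShP : Prop := ∀ (X : Expander), Pav X * Pav X = Pav X ∧
  (∀ a, Sh X a * Pav X = Pav X * Sh X a) ∧ Sh X (fun _ => 0) = 1 ∧
  (∀ a (C : ℕ), (∀ i, |a i| ≤ (C : ℤ)) → FinProp X C (Sh X a)) ∧ FinProp X 0 (1 : Op X) ∧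
  (∀ a i, Sh X a * Q X i = Q X i * Sh X a) ∧ (∀ i, Pav X * Q X i = Q X i * Pav X)

/-- FPC (EASY).  Sums and products of operators of finite propagation (for the product:
`S (T ξ) p ≠ 0` gives `q` with `T ξ q ≠ 0`, then `r` with `ξ r ≠ 0`; triangle inequality).
`c • S`: `(c • S) ξ p ≠ 0 → S ξ p ≠ 0`.  USES Met. -/
def St_FPC : Prop := ∀ (X : Expander) (R R' : ℕ) (S T : Op X), FinProp X R S → FinProp X R' T →
  FinProp X (R + R') (S * T) ∧ FinProp X (max R R') (S + T) ∧ FinProp X (max R R') (S - T) ∧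
  ∀ c : ℂ, FinProp X R (c • S)

/-- LC (MEDIUM).  `S * T` is locally compact.  `S T proj(cell z)`: `IsCompactOperator.clm_comp`.
`proj(cell z) S T`: let `B = {p | dZ z p.1 ≤ R}`.  `proj(cell z) S = proj(cell z) S proj(B)`: for
`η = ξ - proj B ξ` and `p ∈ cell z`, `S η p ≠ 0` would give `q` with `η q ≠ 0` (so `q ∉ B`) and
`dZ p.1 q.1 ≤ R`.  `B` is the union of the finitely many cells of the ball (Geo), so
`proj B = ∑ proj (cell w)` (induction over the finset, `proj_union`) and `proj B * T` is compact, being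
a finite sum of compact operators.  USES Geo. -/
def St_LC : Prop := ∀ (X : Expander) (R : ℕ) (S T : Op X), FinProp X R S → LocComp X T →
  LocComp X (S * T)

/-- Slice (MEDIUM, finite dimensional).  Let `L = 2 (D + 1)`,
`(M f) v = f v - (1/L) ∑_(w ~ v) (f v - f w)`.  It suffices to treat real `f` (real and imaginary
parts).  `f = f₀ + avg f`, `M f - avg f = M f₀`, `∑ f₀ = 0`, `∑ M f₀ = 0` (symmetry), so it suffices:
`∑ f = 0 → ∑ (M f)² ≤ lam² ∑ f²`, `lam = 1 - c/(2 L)`.  `B(f, g) = ∑ (M f) g` is symmetric and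
`B(f, f) = ∑ f² - (1/(2L)) ∑_(v ~ w) (f v - f w)²`, which is `≥ 0` for all `f` because
`(f v - f w)² ≤ 2 f v² + 2 f w²` and the degrees are `≤ D`, and `≤ lam ∑ f²` if `∑ f = 0` (field `gap`).
Cauchy-Schwarz for `B ≥ 0` (from `B(f + t g, f + t g) ≥ 0` for all real `t`):
`(∑ (M f)²)² = B(f, M f)² ≤ B(f, f) B(M f, M f) ≤ lam² ∑ f² ∑ (M f)²`.  (`lam ≥ 0` follows if some
`f ≠ 0` with sum zero exists, which is the case for `N i ≥ 2`; otherwise the left side is 0.)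
Note `{w | Adj v w}.ncard = card (filter)`. -/
def St_Slice : Prop := ∀ (X : Expander) (i : ℕ) (f : Fin (X.N i) → ℂ),
  ∑ v, ‖f v - (2 * (X.D + 1) : ℂ)⁻¹ * (∑ w, if (X.G i).Adj v w then f v - f w else 0)
    - (X.N i : ℂ)⁻¹ * ∑ w, f w‖ ^ 2 ≤ (1 - X.c / (4 * (X.D + 1))) ^ 2 * ∑ v, ‖f v‖ ^ 2

/-- Fib (EASY-MEDIUM).  `‖T ξ‖² = ∑' c, ∑' p : π⁻¹ c, ‖T ξ p‖²` (`l2_norm_sq`,
`Equiv.sigmaFiberEquiv`, `Summable.tsum_sigma'` or `tsum_sigma`), then compare term by term;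
`ContinuousLinearMap.opNorm_le_bound`. -/
def St_Fib : Prop := ∀ (ι κ : Type) (π : ι → κ) (T : L2 ι →L[ℂ] L2 ι) (lam : ℝ), 0 ≤ lam →
  (∀ (ξ : L2 ι) (c : κ), ∑' p : {p // π p = c}, ‖T ξ p‖ ^ 2 ≤
    lam ^ 2 * ∑' p : {p // π p = c}, ‖ξ p‖ ^ 2) → ‖T‖ ≤ lam

/-- The kernel of `M ⊗ 1 ⊗ q`, `M = 1 - L/(2 (D+1))`, `L` the graph Laplacian. -/
def kA (X : Expander) (p q : Ix X) : ℂ :=
  if p.2 = 0 ∧ q.2 = 0 ∧ p.1.2 = q.1.2 then
    (if p = q then 1 - (2 * (X.D + 1) : ℂ)⁻¹ * ({w | (X.G p.1.1.1).Adj p.1.1.2 w}.ncard : ℂ) else 0)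
    + (if ∃ (i : ℕ) (v w : Fin (X.N i)), (X.G i).Adj v w ∧ p.1.1 = ⟨i, v⟩ ∧ q.1.1 = ⟨i, w⟩
        then (2 * (X.D + 1) : ℂ)⁻¹ else 0)
  else 0

/-- AF (MEDIUM).  `kA` is `IsMarkov`: it is symmetric, the row of `p` with `p.2 = 0` has the entry
`1 - deg/(2(D+1)) ≥ 0` at `p` and `1/(2(D+1))` at the `deg` neighbours, sum 1; the others are 0.
Formula of `kerOp` (`tsum` over the finitely many `q = ((⟨i, w⟩, m), 0)`). -/
def St_AF : Prop := ∀ (X : Expander), IsMarkov (kA X) ∧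
  ∀ (ξ : Hs X) (i : ℕ) (v : Fin (X.N i)) (m k : ℕ), kerOp (kA X) ξ ((⟨i, v⟩, m), k) =
    if k = 0 then ξ ((⟨i, v⟩, m), 0) - (2 * (X.D + 1) : ℂ)⁻¹ *
      (∑ w, if (X.G i).Adj v w then ξ ((⟨i, v⟩, m), 0) - ξ ((⟨i, w⟩, m), 0) else 0) else 0

/-- AP (EASY-MEDIUM).  `A = kerOp (kA X)`: propagation at most 1 (formula of AF: `A ξ p ≠ 0` gives
`ξ p ≠ 0` or `ξ q ≠ 0` for a neighbour, at distance 1); locally compact: `A * proj (cell z)` and
`proj (cell z) * A` have finite rank (their values are supported in the finitely many `p = (w, 0)` with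
`dX w z.1 ≤ 1`...; simplest: `A = proj {p | p.2 = 0} * A = A * proj {p | p.2 = 0}` and
`proj (cell z) * proj {p | p.2 = 0} = proj {(z, 0)}` has rank one, so both are compact);
`A * Pav = Pav = Pav * A` (the average of `A ξ` over `G i × {m} × {0}` is that of `ξ`).
USES Met PavF AF. -/
def St_AP : Prop := ∀ (X : Expander), FinProp X 1 (kerOp (kA X)) ∧ LocComp X (kerOp (kA X)) ∧
  kerOp (kA X) * Pav X = Pav X ∧ Pav X * kerOp (kA X) = Pav X

/-- AN (EASY-MEDIUM).  Fib with `π p = (p.1.1.1, p.1.2, p.2)`, whose fibres are `Fin (N i)`; for `k ≠ 0`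
the left side is 0, for `k = 0` it is Slice with `f v = ξ ((⟨i, v⟩, m), 0)`.  `lam = |1 - c/(4(D+1))|`;
`lam < 1` because `c > 0` and `c ≤ 4 D`: take `i` with `N i ≥ 2` and `f = 1_v - 1_w` in the field `gap`:
`2 c ≤ ∑_(v ~ w) (f v - f w)² ≤ 2 ∑_(v ~ w) (f v² + f w²) ≤ 4 D ∑ f² = 8 D`.
USES Slice Fib PavF AF. -/
def St_AN : Prop := ∀ (X : Expander), ∃ lam : ℝ, 0 ≤ lam ∧ lam < 1 ∧
  ‖kerOp (kA X) - Pav X‖ ≤ lam

/-- PavRoe (EASY-MEDIUM).  `A = kerOp (kA X)`.  `A^(k+1) - Pav = (A - Pav)^(k+1)` by induction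
(`A Pav = Pav A = Pav = Pav²`), so `S A^(k+1) → S Pav` in norm.  `S A^(k+1)` has finite propagation
(FPC) and is locally compact (LC, as `A` is).  USES ShP FPC LC AP AN. -/
def St_PavRoe : Prop := ∀ (X : Expander) (R : ℕ) (S : Op X), FinProp X R S → S * Pav X ∈ Roe X

/-- UR (EASY).  `u a - 1 = (Sh a - 1) * Pav`.  `u 0 = 1`.  USES ShP FPC PavRoe. -/
def St_UR : Prop := ∀ (X : Expander) (a : ℕ → ℤ) (C : ℕ), (∀ i, |a i| ≤ (C : ℤ)) →
  u X a - 1 ∈ Roe X ∧ u X a ∈ RoePlus X ∧ u X (fun _ => 0) = 1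

/-- UG (MEDIUM).  `u a * u b - u (a + b) = (Sh a Sh b - Sh (a + b)) Pav` (ShP); in the Roe algebra by
PavRoe.  By the formulas `W = (Sh a Sh b - Sh (a+b)) Pav` satisfies `W ξ ((x, m), k) = 0` unless
`k = 0`, `m < C` (`0 ≤ m < a i`), and then it is `0` or minus the average of `ξ` over
`G i × {m'} × {0}`, `m' = m - a i - b i < 3 C`.  So `‖proj (cell z) W proj (cell w)‖ ≤ 1/N i` for `z, w` in
the same `G i × ℕ`, and it is `0` if `z, w` are in different blocks or `z.2 ≥ 3 C` or `w.2 ≥ 3 C`.  Given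
`ε` let `1/N i ≤ ε` for `i ≥ i₀` (`N → ∞`), `F` = all `(⟨i, v⟩, m)` with `i < i₀`, `m < 3 C`.
USES PavF ShF ShP FPC PavRoe. -/
def St_UG : Prop := ∀ (X : Expander) (a b : ℕ → ℤ) (C : ℕ), (∀ i, |a i| ≤ (C : ℤ)) →
  (∀ i, |b i| ≤ (C : ℤ)) → u X a * u X b - u X (fun i => a i + b i) ∈ Ghost X

/-- UB (MEDIUM).  With `U = Q u(a) Q + 1 - Q`, `V = Q u(-a) Q + 1 - Q`: all operators commute with
`Q = Q i` (ShP), so `U`, `V` are the identity off the block, and on the block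
`U ξ = ξ - [k=0] avg_m + [k=0][m ≥ a] avg_(m-a)`, `V ξ = ξ - [k=0] avg_m + [k=0] avg_(m+a)` with
`avg_m = (1/N) ∑_v ξ((⟨i,v⟩,m),0)`, `a = a i > 0`.  The average of `U ξ` at `m` is
`[m ≥ a] avg_(m-a)`, so `V U ξ = ξ`.  `U V ≠ 1`: let `ξ` be the indicator of
`G i × {0} × {0}` (`= ∑_v lp.single ..`, or `ξ = Pav (single)` times `N`): `V ξ = 0` and `ξ ≠ 0`.
(Alternative: `U V = 1` would give `U V e = e` for `e = Pav (δ_((⟨i,v⟩,0),0))`, the vector with
entries `1/N` on `G i × {0} × {0}`.)  USES PavF ShF ShP. -/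
def St_UB : Prop := ∀ (X : Expander) (a : ℕ → ℤ) (i : ℕ), 0 < a i →
  (Q X i * u X (fun j => -a j) * Q X i + (1 - Q X i)) *
    (Q X i * u X a * Q X i + (1 - Q X i)) = 1 ∧
  (Q X i * u X a * Q X i + (1 - Q X i)) *
    (Q X i * u X (fun j => -a j) * Q X i + (1 - Q X i)) ≠ 1

/-! ## Blocks of operators of the Roe algebra -/

/-- Comm (EASY-MEDIUM).  `T = T₀ + c`, `T₀ ∈ Roe`; `(1 - Q) c Q = 0`.  Given `ε` let `S` have
propagation `R`, `‖T₀ - S‖ < ε`.  For `i > R`: `(1 - Q i) S Q i = 0`, since `Q ξ` is supported in the block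
`i` and `S Q ξ p ≠ 0` gives `q` in the block `i` with `dZ p.1 q.1 ≤ R`, so `p` is in the block `i` (else
`dX ≥ i + 1 > R`).  So the norm is `≤ ‖T₀ - S‖` (`‖Q‖, ‖1 - Q‖ ≤ 1`). -/
def St_Comm : Prop := ∀ (X : Expander) (T : Op X), T ∈ RoePlus X →
  Tendsto (fun i => ‖(1 - Q X i) * T * Q X i‖) atTop (𝓝 0)

/-- CpQ (MEDIUM).  `‖Q i T‖ → 0` for compact `T`.  The image of the unit ball is totally bounded
(`IsCompactOperator.image_closedBall_subset_compact`): finite `ε`-net `y_1 .. y_r`; `‖Q i y_j‖ → 0` for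
each `j` because `∑_i ‖Q i y‖² ≤ ‖y‖²` (or: by density, `y` is within `ε` of a finitely supported
vector, which `Q i` kills for large `i`). -/
def St_CpQ : Prop := ∀ (X : Expander) (T : Op X), IsCompactOperator T →
  Tendsto (fun i => ‖Q X i * T‖) atTop (𝓝 0)

/-- Off (EASY-MEDIUM).  For every `p` the number of `s < M` with `(m p + s) % M < 2 R` is at most
`2 R` (a complete residue system).  So `∑_(s<M) ‖proj B_s ξ‖² ≤ 2 R ‖ξ‖²` (`proj_norm_sq`,
`Summable.tsum_finsetSum`), and some term is at most the average. -/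
def St_Off : Prop := ∀ (ι : Type) (m : ι → ℕ) (M R : ℕ) (ξ : L2 ι), 0 < M →
  ∃ s < M, (M : ℝ) * ‖proj {p | (m p + s) % M < 2 * R} ξ‖ ^ 2 ≤ 2 * R * ‖ξ‖ ^ 2

/-- Pyth (EASY).  Pythagoras for vectors with disjoint supports; induction over `J`, or
`inner = 0` and `norm_add_sq`. -/
def St_Pyth : Prop := ∀ (ι : Type) (J : Finset ℕ) (W : ℕ → Set ι) (η : ℕ → L2 ι),
  (∀ j ∈ J, ∀ j' ∈ J, j ≠ j' → Disjoint (W j) (W j')) → (∀ j ∈ J, proj (W j) (η j) = η j) →
  ‖∑ j ∈ J, η j‖ ^ 2 = ∑ j ∈ J, ‖η j‖ ^ 2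

/-- Win (EASY).  `proj {p | p.1 ∈ F} = ∑_(z ∈ F) proj (cell z)`, triangle inequality. -/
def St_Win : Prop := ∀ (X : Expander) (T : Op X) (F G : Finset (Z X)) (θ : ℝ),
  (∀ z ∈ F, ∀ w ∈ G, ‖proj (cell X z) * T * proj (cell X w)‖ ≤ θ) →
  ‖proj {p : Ix X | p.1 ∈ F} * T * proj {p : Ix X | p.1 ∈ G}‖ ≤ F.card * G.card * θ

/-- Loc (MEDIUM-HARD).  `ξ` lives in the block `i`, on levels `n ≤ m < L`.  Choose `s` by Off
(`m p = p.1.2`), `ξ'' = proj B_s ξ`, `ξ' = ξ - ξ''`.  For `j : ℕ` let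
`V_j = {p in the block i | 2R ≤ (m+s) % M, (m+s)/M = j, m < L}`, `ξ_j = proj V_j ξ`, so that
`ξ' = ∑_(j < L + M) ξ_j`, and let `W_j = {p in the block i | j M + R ≤ m + s < (j+1) M + R}`.  The `W_j`
are disjoint.  `Q S ξ_j` is supported in `W_j`: `S ξ_j p ≠ 0` gives `q ∈ V_j` with
`|m p - m q| ≤ R`, `j M + 2R ≤ m q + s < (j+1) M`.  So `Q S ξ_j = proj W_j S ξ_j`, and
`‖Q S ξ_j‖ ≤ ‖proj W_j T ξ_j‖ + ε ‖ξ_j‖ ≤ ((M N)² θ + ε) ‖ξ_j‖` by Win: `W_j`, `V_j` are sets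
`{p | p.1 ∈ F}` with `card F ≤ M N i`, and only `w` with `n ≤ w.2` occur in `V_j ∩ supp ξ` (replace
`V_j` by its part `n ≤ m`).  Pyth (twice): `‖Q S ξ'‖² = ∑_j ‖Q S ξ_j‖² ≤ (..)² ∑ ‖ξ_j‖² ≤
(..)² ‖ξ‖²`.  `‖Q S ξ''‖ ≤ ‖S‖ ‖ξ''‖ ≤ ‖S‖ √(2R/M) ‖ξ‖`.  USES Off Pyth Win. -/
def St_Loc : Prop := ∀ (X : Expander) (i R M n L : ℕ) (T S : Op X) (ε θ : ℝ), 0 < M → 0 ≤ ε →
  0 ≤ θ → FinProp X R S → ‖T - S‖ ≤ ε →
  (∀ z w : Z X, z.1.1 = i → w.1.1 = i → n ≤ w.2 →
    ‖proj (cell X z) * T * proj (cell X w)‖ ≤ θ) →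
  ∀ ξ : Hs X, proj {p : Ix X | p.1.1.1 = i ∧ n ≤ p.1.2 ∧ p.1.2 < L} ξ = ξ →
  ‖Q X i (S ξ)‖ ≤ (((M : ℝ) * X.N i) ^ 2 * θ + ε + ‖S‖ * Real.sqrt (2 * R / M)) * ‖ξ‖

/-- Far (MEDIUM).  Let `T` be a ghost, `i` fixed, `δ > 0`.  Choose `S` of propagation `R` with
`‖T - S‖ ≤ δ/4`, `M` with `‖S‖ √(2R/M) ≤ δ/4`, then `θ` with `(M N)² θ ≤ δ/4`, and `n₀` such that all
cells `w` with `w.2 ≥ n₀` are outside the finite set `F` of `θ`.  Loc gives
`‖Q S ξ‖ ≤ (3δ/4) ‖ξ‖` for `ξ` in the block with levels in `[n₀, L)`, every `L`, so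
`‖Q T ξ‖ ≤ δ ‖ξ‖` for these `ξ`, and for all `ξ` in the block with levels `≥ n₀` by approximation
(`proj {m < L} ξ → ξ` as `L → ∞`).  USES Loc. -/
def St_Far : Prop := ∀ (X : Expander) (T : Op X), T ∈ Ghost X → ∀ i : ℕ,
  Tendsto (fun n : ℕ => ‖Q X i * T * proj {p : Ix X | p.1.1.1 = i ∧ n ≤ p.1.2}‖) atTop (𝓝 0)

/-- GhC (MEDIUM).  `Q T Q = Q T proj {block i, m < n} + Q T proj {block i, n ≤ m}`.  The first is
compact: `{block i, m < n}` is a finite union of cells and `T proj (cell z)` is compact for `T` in the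
Roe algebra (true for the dense subset, and limits of compact operators are compact:
`isCompactOperator_of_tendsto` or closedness of the set of compact operators).  The second tends to
zero (Far).  So `Q T Q` is compact.  USES Far. -/
def St_GhC : Prop := ∀ (X : Expander) (T : Op X), T ∈ Ghost X → ∀ i : ℕ,
  IsCompactOperator (Q X i * T * Q X i)

/-! ## The Roe algebra is an algebra, ghosts and compact operators are ideals -/

/-- AlgR (MEDIUM).  The operators of finite propagation which are locally compact are closed under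
sums, products (FPC, LC), scalars and adjoints (`FinProp (adjoint T)`: if `(T* ξ) p ≠ 0` and `ξ` vanishes on
`B = {q | dZ p.1 q.1 ≤ R}`, then `(T* ξ) p = ⟪δ_p, T* ξ⟫ = ⟪T δ_p, ξ⟫ = 0` since `T δ_p` lives on
`B`; `proj` is self adjoint and the adjoint of a compact operator is compact: in a Hilbert space `T*` is
compact if `T` is, e.g. because `T = lim proj F T` over finite `F` and `T* = lim T* proj F` is a limit of
finite rank operators; see `IsCompactOperator` in Mathlib).  Then take closures.  USES Met FPC LC. -/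
def St_AlgR : Prop := ∀ (X : Expander) (S T : Op X), S ∈ Roe X → T ∈ Roe X →
  S + T ∈ Roe X ∧ S * T ∈ Roe X ∧ (∀ c : ℂ, c • S ∈ Roe X) ∧
  ContinuousLinearMap.adjoint S ∈ Roe X

/-- AlgG (MEDIUM).  Let `T` be a ghost, `S ∈ RoePlus`, `S = S₀ + c`.  For `S₀'` of propagation `R` near
`S₀`: `proj(cell z) S₀' T proj(cell w) = ∑_(z' ∈ ball(z, R)) proj(cell z) S₀' proj(cell z') T proj(cell w)`,
of norm `≤ B ‖S₀'‖ max_(z') ‖proj(cell z') T proj(cell w)‖` (Geo), and if `w ∉ F` or `z` is not in the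
`R`-neighbourhood of `F` then all `(z', w)` are as in the definition.  The same on the other side.
USES Met Geo AlgR. -/
def St_AlgG : Prop := ∀ (X : Expander) (S T T' : Op X), S ∈ RoePlus X → T ∈ Ghost X →
  T' ∈ Ghost X → T + T' ∈ Ghost X ∧ S * T ∈ Ghost X ∧ T * S ∈ Ghost X

/-- AlgK (MEDIUM).  A compact `T` is the norm limit of `proj F T proj F` over finite sets `F` of indices
(`proj F T → T` by total boundedness, and the same for the adjoint).  `proj F T proj F` has finite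
propagation (`R` = the maximal `dZ` between points of `F`), finite rank, and
`‖proj (cell z) proj F T proj F proj (cell w)‖ = 0` if `z` or `w` is not in the image of `F`. -/
def St_AlgK : Prop := ∀ (X : Expander), Cpt X ⊆ Ghost X

/-! ## Invertible modulo compact -/

/-- Unit (EASY-MEDIUM).  `Matrix.linftyOpNormedRing` (local instances; completeness of the product)
and `Units.oneSub`/`isUnit_one_sub..`: if all entries of `x - 1` have norm at most
`δ = 1/(2 n + 2)` then `‖x - 1‖ < 1`. -/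
def St_Unit : Prop := ∀ (X : Expander) (n : ℕ), ∃ δ > (0 : ℝ), ∀ x : Mat X n,
  (∀ a b, ‖(x - 1) a b‖ ≤ δ) → IsUnit x

/-- Riesz (MEDIUM).  Let `κ` have compact entries and `L (1 + κ) = 1`.  Let `ρ` be the action of
`Mat X n` on the Banach space `Fin n → Hs X` (`(ρ x v) a = ∑ b, x a b (v b)`, multiplicative and
injective).  `ρ κ` is compact (finite sums of compositions of compact operators with coordinate maps).
`1 + ρ κ` is injective, so `-1` is not an eigenvalue of `ρ κ`, and by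
`IsCompactOperator.hasEigenvalue_or_mem_resolventSet` `1 + ρ κ` is invertible; the left inverse `ρ L` is
then the inverse, `ρ ((1 + κ) L) = 1`, `(1 + κ) L = 1`.  If `(1 + κ) L = 1` then
`L = 1 - κ L = 1 + κ'` with `κ' = -κ L` compact entries, and `L` has the left inverse `1 + κ`:
by the first part `L (1 + κ) = 1`. -/
def St_Riesz : Prop := ∀ (X : Expander) (n : ℕ) (κ L : Mat X n),
  (∀ a b, IsCompactOperator (κ a b)) →
  (L * (1 + κ) = 1 → (1 + κ) * L = 1) ∧ ((1 + κ) * L = 1 → L * (1 + κ) = 1)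

/-- PUa (EASY-MEDIUM, algebra).  Matrices with compact entries form a two sided ideal `J`.
`x = A + c`, `x g = A' + c'` (`A, A'` units, `c, c' ∈ J`): `A g = A' + c' - c g`, so
`g = A⁻¹ A' + b`, `b ∈ J`.  `y g = A'' + c''`: `y A⁻¹ A' = A'' + c'' - y b`, so
`y = A'' (A⁻¹ A')⁻¹ + J`. -/
def St_PUa : Prop := ∀ (X : Expander) (n : ℕ) (x y g : Mat X n), PU X x → PU X (x * g) →
  PU X (y * g) → PU X y

/-- PUo (EASY).  `x = A + c = A (1 + A⁻¹ c)`, `κ = A⁻¹ c` has compact entries.  `v x = 1` gives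
`(v A) (1 + κ) = 1`, so by Riesz `(1 + κ) (v A) = 1`, `x v = A (1 + κ) v A A⁻¹ = 1`.  `x v = 1`:
`x = (1 + c A⁻¹) A`, `(1 + c A⁻¹) (A v) = 1`, so `(A v) (1 + c A⁻¹) = 1`, `v x = A⁻¹ (A v) (1 + c A⁻¹) A
= 1`.  USES Riesz. -/
def St_PUo : Prop := ∀ (X : Expander) (n : ℕ) (x v : Mat X n), PU X x →
  (v * x = 1 → x * v = 1) ∧ (x * v = 1 → v * x = 1)

/-- HM (EASY, algebra).  `hat i x * hat i y = hat i (x * y) - E`, `E a b = ∑_c Q x_ac (1 - Q) y_cb Q`
(`Q² = Q`, `Q (1 - Q) = 0`), `hat i 1 = 1`, `hat i (x + y) = hat i x + hat i y - (1 - Q) 1`. -/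
def St_HM : Prop := ∀ (X : Expander) (n i : ℕ) (x y : Mat X n),
  (∀ a b, (hat X i x * hat X i y - 1) a b =
    Q X i * (x * y - 1) a b * Q X i -
      ∑ c, Q X i * x a c * ((1 - Q X i) * y c b * Q X i)) ∧ hat X i (1 : Mat X n) = 1

/-- Near (MEDIUM).  Let `δ₀` be the constant of Unit, and `δ` with
`δ ∑_c ‖g c b‖ ≤ δ₀/2` for all `b`.  By HM
`hat f' hat g - 1 = Q (f g - 1) Q + Q (f' - f) g Q - ∑_c Q f'_ac ((1 - Q) g_cb Q)`.  The first is
compact (GhC); the second has entries of norm `≤ δ₀/2`; the third tends to 0 as `i → ∞` by Comm (for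
`g`), so it has entries `≤ δ₀/2` for large `i`.  So `hat f' hat g = (1 + e) + compact`, `1 + e` a unit by
Unit.  USES Comm GhC Unit HM. -/
def St_Near : Prop := ∀ (X : Expander) (n : ℕ) (f g : Mat X n),
  (∀ a b, g a b ∈ RoePlus X) → (∀ a b, (f * g - 1) a b ∈ Ghost X) →
  ∃ δ > (0 : ℝ), ∀ f' : Mat X n, (∀ a b, ‖(f' - f) a b‖ ≤ δ) →
    ∀ᶠ i in atTop, PU X (hat X i f' * hat X i g)

/-- Start (EASY-MEDIUM).  `x g - 1`, `g x - 1` have compact entries, `x, g` over `RoePlus`.  By HM,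
Comm and CpQ (`‖Q κ Q‖ ≤ ‖Q κ‖`) all entries of `hat x hat g - 1` and `hat g hat x - 1` tend to 0, so
for large `i` both products are units (Unit), `hat x` has a right and a left inverse, is a unit, and
`PU` holds with `A = hat x`.  USES Comm CpQ Unit HM. -/
def St_Start : Prop := ∀ (X : Expander) (n : ℕ) (x : Mat X n), InvMod X (Cpt X) x →
  ∀ᶠ i in atTop, PU X (hat X i x)

/-- Path (MEDIUM).  Let `f` be the path of `Homot`.  `A = {t ∈ [0,1] | ∀ᶠ i, PU (hat i (f t))}`.  For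
`t ∈ [0,1]` let `g` be the inverse modulo `Ghost` of `f t` and `δ` from Near.  For `t'` near `t` (in
`[0,1]`) `‖(f t' - f t) a b‖ ≤ δ`, so for large `i` both `hat (f t') hat g` and `hat (f t) hat g` are
`PU`; by PUa `PU (hat (f t)) → PU (hat (f t'))` and conversely, for large `i`.  So `A` and its
complement are open in `[0,1]`, which is connected (`isPreconnected_Icc`, or
`IsPreconnected.subset_clopen` in the subtype), `0 ∈ A`, so `1 ∈ A`.  USES Near PUa. -/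
def St_Path : Prop := ∀ (X : Expander) (n : ℕ) (x y : Mat X n), Homot X (Ghost X) x y →
  (∀ᶠ i in atTop, PU X (hat X i x)) → ∀ᶠ i in atTop, PU X (hat X i y)

/-- End (EASY-MEDIUM).  `hat i (stab n (u a)) = stab n U`, `U = Q u(a) Q + 1 - Q` (and
`Q 1 Q + 1 - Q = 1`), `stab n U * stab n V = stab n (U V)`, `stab n T = 1 ↔ T = 1`.  If `a i > 0`: UB gives
`V U = 1`, `U V ≠ 1`; PUo: contradiction.  If `a i < 0`: UB for `-a` gives (with the roles exchanged)
`U V = 1`, `V U ≠ 1`; PUo again.  USES UB PUo. -/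
def St_End : Prop := ∀ (X : Expander) (n i : ℕ) (a : ℕ → ℤ), a i ≠ 0 →
  ¬ PU X (hat X i (stab X n (u X a)))

/-- Main (EASY).  Start, Path, End.  USES Start Path End. -/
def St_Main : Prop := ∀ (X : Expander) (a : ℕ → ℤ), (∃ᶠ i in atTop, a i ≠ 0) →
  ¬ ∃ (n : ℕ) (x : Mat X (n + 1)), InvMod X (Cpt X) x ∧
    Homot X (Ghost X) x (stab X n (u X a))

end

end Pool.Agent.Work.MP_1ddc88_an
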