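import Mathlib
import Pool.Agent.Work.MP_1ddc88_an.Stmts

/-!
# MP_1ddc88_an, item Loc
-/

set_option autoImplicit false

open Filter Topology
open scoped ENNReal Classical

namespace Pool.Agent.Work.MP_1ddc88_an

namespace ILoc

theorem levels_card (A : Finset ℕ) (a s M : ℕ) (h : ∀ m ∈ A, a ≤ m + s ∧ m + s < a + M) :
    A.card ≤ M := by
  have h1 : A.card ≤ (Finset.Ico a (a + M)).card := by
    refine Finset.card_le_card_of_injOn (fun m => m + s) ?_ ?_
    · intro m hm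
      exact Finset.mem_coe.2 (Finset.mem_Ico.2 (h m hm))
    · intro m _ m' _ he
      have he' : m + s = m' + s := he
      omega
  rw [Nat.card_Ico] at h1
  omega

/-- the cells of the block `i` with levels in `A` -/
noncomputable def cells (X : Expander) (i : ℕ) (A : Finset ℕ) : Finset (Z X) :=
  ((Finset.univ : Finset (Fin (X.N i))) ×ˢ A).image (fun vm => ((⟨i, vm.1⟩ : Pt X), vm.2))

theorem mem_cells (X : Expander) (i : ℕ) (A : Finset ℕ) (z : Z X) :
    z ∈ cells X i A ↔ z.1.1 = i ∧ z.2 ∈ A := by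
  unfold cells
  rw [Finset.mem_image]
  constructor
  · rintro ⟨⟨v, m⟩, h, rfl⟩
    exact ⟨rfl, (Finset.mem_product.1 h).2⟩
  · rintro ⟨h1, h2⟩
    obtain ⟨⟨j, v⟩, m⟩ := z
    have h1' : j = i := h1
    subst h1'
    exact ⟨(v, m), Finset.mem_product.2 ⟨Finset.mem_univ _, h2⟩, rfl⟩

theorem cells_card (X : Expander) (i : ℕ) (A : Finset ℕ) (M : ℕ) (h : A.card ≤ M) :
    ((cells X i A).card : ℝ) ≤ (M : ℝ) * X.N i := by
  have h1 : (cells X i A).card ≤ M * X.N i := by
    unfold cells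
    refine le_trans Finset.card_image_le ?_
    rw [Finset.card_product, Finset.card_univ, Fintype.card_fin, Nat.mul_comm]
    exact Nat.mul_le_mul_right _ h
  exact_mod_cast h1

theorem dZ_levels (X : Expander) (z w : Z X) (R : ℕ) (h : dZ X z w ≤ R) :
    z.2 ≤ w.2 + R ∧ w.2 ≤ z.2 + R := by
  unfold dZ at h
  omega

end ILoc

open ILoc in
theorem pr_Loc (h1 : St_Off) (h2 : St_Pyth) (h3 : St_Win) : St_Loc := by
  intro X i R M n L T S ε θ hM hε hθ hS hTS hcell ξ hξ
  obtain ⟨s, hs, hoff⟩ := h1 (Ix X) (fun p => p.1.2) M R ξ hM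
  set B : Set (Ix X) := {p | (p.1.2 + s) % M < 2 * R} with hB
  let V : ℕ → Set (Ix X) := fun j => {p | (p.1.1.1 = i ∧ n ≤ p.1.2 ∧ p.1.2 < L) ∧
    ¬ ((p.1.2 + s) % M < 2 * R) ∧ (p.1.2 + s) / M = j}
  let W : ℕ → Set (Ix X) := fun j => {p | p.1.1.1 = i ∧ j * M + R ≤ p.1.2 + s ∧
    p.1.2 + s < j * M + R + M}
  let J : Finset ℕ := Finset.range (L + M)
  have hsupp := (proj_eq_self_iff _ ξ).1 hξ
  have hMR : (0 : ℝ) < M := by exact_mod_cast hM
  -- decomposition of the vector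
  have hdec : ξ = proj B ξ + ∑ j ∈ J, proj (V j) ξ := by
    have hsum : ∀ p, (∑ j ∈ J, proj (V j) ξ) p = ∑ j ∈ J, (proj (V j) ξ) p := by
      intro p
      rw [lp.coeFn_sum, Finset.sum_apply]
    ext p
    rw [lp.coeFn_add, Pi.add_apply, hsum, proj_apply]
    simp only [proj_apply]
    by_cases h0 : ξ p = 0
    · rw [h0]
      simp
    · have hp := hsupp p h0
      by_cases hpB : p ∈ B
      · rw [if_pos hpB, Finset.sum_eq_zero, add_zero]
        intro j _
        rw [if_neg]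
        intro hpV
        exact hpV.2.1 hpB
      · rw [if_neg hpB, zero_add, Finset.sum_eq_single ((p.1.2 + s) / M)]
        · rw [if_pos]
          exact ⟨hp, hpB, rfl⟩
        · intro j _ hj
          rw [if_neg]
          intro hpV
          exact hj hpV.2.2.symm
        · intro hnot
          exfalso
          apply hnot
          refine Finset.mem_range.2 ?_
          have hle : (p.1.2 + s) / M ≤ p.1.2 + s := Nat.div_le_self _ _
          have hlt : p.1.2 < L := hp.2.2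
          omega
  -- the supports
  have hVdisj : ∀ j ∈ J, ∀ j' ∈ J, j ≠ j' → Disjoint (V j) (V j') := by
    intro j _ j' _ hjj
    rw [Set.disjoint_left]
    intro p hp hp'
    exact hjj (hp.2.2.symm.trans hp'.2.2)
  have hWdisj : ∀ j ∈ J, ∀ j' ∈ J, j ≠ j' → Disjoint (W j) (W j') := by
    intro j _ j' _ hjj
    rw [Set.disjoint_left]
    rintro p ⟨_, ha, hb⟩ ⟨_, ha', hb'⟩
    rcases lt_or_gt_of_ne hjj with hlt | hlt
    · have : (j + 1) * M ≤ j' * M := Nat.mul_le_mul_right M hlt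
      rw [Nat.add_mul, Nat.one_mul] at this
      omega
    · have : (j' + 1) * M ≤ j * M := Nat.mul_le_mul_right M hlt
      rw [Nat.add_mul, Nat.one_mul] at this
      omega
  have hVself : ∀ j ∈ J, proj (V j) (proj (V j) ξ) = proj (V j) ξ := by
    intro j _
    rw [← ContinuousLinearMap.mul_apply, proj_idem]
  have hWself : ∀ j ∈ J, proj (W j) (Q X i (S (proj (V j) ξ))) = Q X i (S (proj (V j) ξ)) := by
    intro j _
    rw [proj_eq_self_iff]
    intro p hp
    rw [Q_apply] at hp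
    by_cases hpi : p.1.1.1 = i
    · rw [if_pos hpi] at hp
      obtain ⟨q, hq, hd⟩ := hS _ p hp
      rw [proj_apply] at hq
      have hqV : q ∈ V j := by
        by_contra hcon
        rw [if_neg hcon] at hq
        exact hq rfl
      obtain ⟨hl1, hl2⟩ := dZ_levels X _ _ _ hd
      obtain ⟨_, hq2, hq3⟩ := hqV
      have hdm := Nat.div_add_mod (q.1.2 + s) M
      rw [hq3] at hdm
      have hmod := Nat.mod_lt (q.1.2 + s) hM
      rw [Nat.mul_comm] at hdm
      refine ⟨hpi, ?_, ?_⟩ <;> omega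
    · rw [if_neg hpi] at hp
      exact absurd rfl hp
  -- the bound for one piece
  have hK : (0 : ℝ) ≤ ((M : ℝ) * X.N i) ^ 2 * θ + ε := by positivity
  have hpiece : ∀ j ∈ J, ‖Q X i (S (proj (V j) ξ))‖ ≤
      (((M : ℝ) * X.N i) ^ 2 * θ + ε) * ‖proj (V j) ξ‖ := by
    intro j hj
    let AW : Finset ℕ := (Finset.range (j * M + R + M)).filter
      (fun m => j * M + R ≤ m + s ∧ m + s < j * M + R + M)
    let AV : Finset ℕ := (Finset.range L).filter
      (fun m => n ≤ m ∧ ¬ ((m + s) % M < 2 * R) ∧ (m + s) / M = j)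
    have hWset : {p : Ix X | p.1 ∈ cells X i AW} = W j := by
      ext p
      show p.1 ∈ cells X i AW ↔ p ∈ W j
      rw [mem_cells]
      constructor
      · rintro ⟨ha, hb⟩
        exact ⟨ha, (Finset.mem_filter.1 hb).2⟩
      · rintro ⟨ha, hb, hc⟩
        exact ⟨ha, Finset.mem_filter.2 ⟨Finset.mem_range.2 (by omega), hb, hc⟩⟩
    have hVset : {p : Ix X | p.1 ∈ cells X i AV} = V j := by
      ext p
      show p.1 ∈ cells X i AV ↔ p ∈ V j
      rw [mem_cells]
      constructor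
      · rintro ⟨ha, hb⟩
        obtain ⟨hb1, hb2, hb3, hb4⟩ := Finset.mem_filter.1 hb
        exact ⟨⟨ha, hb2, Finset.mem_range.1 hb1⟩, hb3, hb4⟩
      · rintro ⟨⟨ha, hb, hc⟩, hd, he⟩
        exact ⟨ha, Finset.mem_filter.2 ⟨Finset.mem_range.2 hc, hb, hd, he⟩⟩
    have hAW : AW.card ≤ M := levels_card AW (j * M + R) s M
      (fun m hm => (Finset.mem_filter.1 hm).2)
    have hAV : AV.card ≤ M := levels_card AV (j * M) s M (by
      intro m hm
      obtain ⟨_, _, _, he⟩ := Finset.mem_filter.1 hm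
      have hdm := Nat.div_add_mod (m + s) M
      rw [he, Nat.mul_comm] at hdm
      have hmod := Nat.mod_lt (m + s) hM
      constructor <;> omega)
    have hwin := h3 X T (cells X i AW) (cells X i AV) θ (by
      intro z hz w hw
      rw [mem_cells] at hz hw
      exact hcell z w hz.1 hw.1 (Finset.mem_filter.1 hw.2).2.1)
    rw [hWset, hVset] at hwin
    have hc1 := cells_card X i AW M hAW
    have hc2 := cells_card X i AV M hAV
    have hwin2 : ‖proj (W j) * T * proj (V j)‖ ≤ ((M : ℝ) * X.N i) ^ 2 * θ := by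
      refine le_trans hwin ?_
      refine mul_le_mul_of_nonneg_right ?_ hθ
      rw [sq]
      exact mul_le_mul hc1 hc2 (Nat.cast_nonneg _) (by positivity)
    set η := proj (V j) ξ with hη
    have hηV : proj (V j) η = η := hVself j hj
    have e1 : Q X i (S η) = proj (W j) (Q X i (S η)) := (hWself j hj).symm
    have e2 : proj (W j) (Q X i (S η)) = proj (W j) (S η) := by
      ext p
      rw [proj_apply, proj_apply]
      by_cases hp : p ∈ W j
      · rw [if_pos hp, if_pos hp, Q_apply, if_pos hp.1]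
      · rw [if_neg hp, if_neg hp]
    have e3 : proj (W j) (S η) = (proj (W j) * T * proj (V j)) η - proj (W j) ((T - S) η) := by
      rw [ContinuousLinearMap.mul_apply, ContinuousLinearMap.mul_apply, hηV,
        ContinuousLinearMap.sub_apply, map_sub]
      abel
    rw [e1, e2, e3]
    refine le_trans (norm_sub_le _ _) ?_
    have f1 : ‖(proj (W j) * T * proj (V j)) η‖ ≤ ((M : ℝ) * X.N i) ^ 2 * θ * ‖η‖ :=
      le_trans (ContinuousLinearMap.le_opNorm _ _)
        (mul_le_mul_of_nonneg_right hwin2 (norm_nonneg _))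
    have f2 : ‖proj (W j) ((T - S) η)‖ ≤ ε * ‖η‖ := by
      refine le_trans (ContinuousLinearMap.le_opNorm _ _) ?_
      have g1 : ‖(T - S) η‖ ≤ ε * ‖η‖ :=
        le_trans (ContinuousLinearMap.le_opNorm _ _)
          (mul_le_mul_of_nonneg_right hTS (norm_nonneg _))
      calc ‖(proj (W j) : Op X)‖ * ‖(T - S) η‖ ≤ 1 * ‖(T - S) η‖ :=
            mul_le_mul_of_nonneg_right (proj_norm_le _) (norm_nonneg _)
        _ = ‖(T - S) η‖ := one_mul _
        _ ≤ ε * ‖η‖ := g1
    rw [add_mul]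
    exact add_le_add f1 f2
  -- the main part
  set K : ℝ := ((M : ℝ) * X.N i) ^ 2 * θ + ε with hKdef
  have hmain : ‖∑ j ∈ J, Q X i (S (proj (V j) ξ))‖ ≤ K * ‖∑ j ∈ J, proj (V j) ξ‖ := by
    have g1 := h2 (Ix X) J W (fun j => Q X i (S (proj (V j) ξ))) hWdisj hWself
    have g2 := h2 (Ix X) J V (fun j => proj (V j) ξ) hVdisj hVself
    have g3 : ‖∑ j ∈ J, Q X i (S (proj (V j) ξ))‖ ^ 2 ≤ (K * ‖∑ j ∈ J, proj (V j) ξ‖) ^ 2 := by
      rw [mul_pow]
      calc ‖∑ j ∈ J, Q X i (S (proj (V j) ξ))‖ ^ 2 = _ := g1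
        _ ≤ ∑ j ∈ J, K ^ 2 * ‖proj (V j) ξ‖ ^ 2 := by
            refine Finset.sum_le_sum fun j hj => ?_
            rw [← mul_pow]
            exact pow_le_pow_left₀ (norm_nonneg _) (hpiece j hj) 2
        _ = K ^ 2 * ‖∑ j ∈ J, proj (V j) ξ‖ ^ 2 := by
            rw [← Finset.mul_sum]
            congr 1
            exact g2.symm
    exact le_of_sq_le_sq g3 (by positivity)
  have hrest : ‖∑ j ∈ J, proj (V j) ξ‖ ≤ ‖ξ‖ := by
    have e : ∑ j ∈ J, proj (V j) ξ = proj Bᶜ ξ := by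
      rw [← one_sub_proj, ContinuousLinearMap.sub_apply, ContinuousLinearMap.one_apply,
        eq_sub_iff_add_eq, add_comm]
      exact hdec.symm
    rw [e]
    calc ‖proj Bᶜ ξ‖ ≤ ‖(proj Bᶜ : Op X)‖ * ‖ξ‖ := ContinuousLinearMap.le_opNorm _ _
      _ ≤ 1 * ‖ξ‖ := mul_le_mul_of_nonneg_right (proj_norm_le _) (norm_nonneg _)
      _ = ‖ξ‖ := one_mul _
  have hB2 : ‖proj B ξ‖ ≤ Real.sqrt (2 * R / M) * ‖ξ‖ := by
    have g : ‖proj B ξ‖ ^ 2 ≤ (Real.sqrt (2 * R / M) * ‖ξ‖) ^ 2 := by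
      rw [mul_pow, Real.sq_sqrt (by positivity), div_mul_eq_mul_div, le_div_iff₀ hMR, mul_comm]
      exact hoff
    exact le_of_sq_le_sq g (by positivity)
  have hQS : Q X i (S ξ) = Q X i (S (proj B ξ)) + ∑ j ∈ J, Q X i (S (proj (V j) ξ)) := by
    conv_lhs => rw [hdec]
    rw [map_add, map_add, map_sum, map_sum]
  rw [hQS]
  refine le_trans (norm_add_le _ _) ?_
  have k1 : ‖Q X i (S (proj B ξ))‖ ≤ ‖S‖ * (Real.sqrt (2 * R / M) * ‖ξ‖) := by
    calc ‖Q X i (S (proj B ξ))‖ ≤ ‖Q X i‖ * ‖S (proj B ξ)‖ := ContinuousLinearMap.le_opNorm _ _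
      _ ≤ 1 * ‖S (proj B ξ)‖ := mul_le_mul_of_nonneg_right (Q_norm_le X i) (norm_nonneg _)
      _ = ‖S (proj B ξ)‖ := one_mul _
      _ ≤ ‖S‖ * ‖proj B ξ‖ := ContinuousLinearMap.le_opNorm _ _
      _ ≤ _ := mul_le_mul_of_nonneg_left hB2 (norm_nonneg _)
  have k2 : ‖∑ j ∈ J, Q X i (S (proj (V j) ξ))‖ ≤ K * ‖ξ‖ :=
    le_trans hmain (mul_le_mul_of_nonneg_left hrest hK)
  calc ‖Q X i (S (proj B ξ))‖ + ‖∑ j ∈ J, Q X i (S (proj (V j) ξ))‖
      ≤ ‖S‖ * (Real.sqrt (2 * R / M) * ‖ξ‖) + K * ‖ξ‖ := add_le_add k1 k2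
    _ = (K + ‖S‖ * Real.sqrt (2 * R / M)) * ‖ξ‖ := by ring

end Pool.Agent.Work.MP_1ddc88_an
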