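import Pool.Agent.Work.MP_1ddc88_an.Stmts

/-!
# MP_1ddc88_an, block BC, item Main
-/

set_option autoImplicit false

open Filter Topology
open scoped ENNReal Classical

namespace Pool.Agent.Work.MP_1ddc88_an

noncomputable section

theorem pr_Main (h1 : St_Start) (h2 : St_Path) (h3 : St_End) : St_Main := by
  rintro X a ha ⟨n, x, hx, hh⟩
  have e1 := h1 X (n + 1) x hx
  have e2 := h2 X (n + 1) x (stab X n (u X a)) hh e1
  obtain ⟨i, hi1, hi2⟩ := (ha.and_eventually e2).exists
  exact h3 X n i a hi1 hi2

end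

end Pool.Agent.Work.MP_1ddc88_an
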