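import Pool.Agent.Work.MP_1ddc88_an.Stmts

/-! # MP_1ddc88_an, item Met: `dZ` is a metric -/

set_option autoImplicit false

open Filter Topology
open scoped ENNReal Classical

namespace Pool.Agent.Work.MP_1ddc88_an

namespace IMet

variable (X : Expander)

theorem dX_same (i : ℕ) (v w : Fin (X.N i)) : dX X ⟨i, v⟩ ⟨i, w⟩ = (X.G i).dist v w := by
  unfold dX
  rw [dif_pos rfl]

theorem dX_diff (i j : ℕ) (v : Fin (X.N i)) (w : Fin (X.N j)) (h : i ≠ j) :
    dX X ⟨i, v⟩ ⟨j, w⟩ =
      i + j + 1 + (X.G i).dist v (X.base i) + (X.G j).dist w (X.base j) := by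
  unfold dX
  rw [dif_neg h]

theorem dX_self (p : Pt X) : dX X p p = 0 := by
  obtain ⟨i, v⟩ := p
  rw [dX_same, SimpleGraph.dist_self]

theorem dX_eq (p q : Pt X) (h : dX X p q = 0) : p = q := by
  obtain ⟨i, v⟩ := p
  obtain ⟨j, w⟩ := q
  by_cases hij : i = j
  · subst hij
    rw [dX_same] at h
    have := ((X.conn i).dist_eq_zero_iff).1 h
    rw [this]
  · rw [dX_diff X i j v w hij] at h
    omega

theorem dX_comm (p q : Pt X) : dX X p q = dX X q p := by
  obtain ⟨i, v⟩ := p
  obtain ⟨j, w⟩ := q
  by_cases hij : i = j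
  · subst hij
    rw [dX_same, dX_same, SimpleGraph.dist_comm]
  · rw [dX_diff X i j v w hij, dX_diff X j i w v (Ne.symm hij)]
    omega

theorem tri (i : ℕ) (u v w : Fin (X.N i)) :
    (X.G i).dist u w ≤ (X.G i).dist u v + (X.G i).dist v w := (X.conn i).dist_triangle

theorem dX_tri (x y z : Pt X) : dX X x z ≤ dX X x y + dX X y z := by
  obtain ⟨i, u⟩ := x
  obtain ⟨j, v⟩ := y
  obtain ⟨k, w⟩ := z
  by_cases hij : i = j
  · subst hij
    by_cases hik : i = k
    · subst hik
      rw [dX_same, dX_same, dX_same]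
      exact tri X i u v w
    · rw [dX_same, dX_diff X i k u w hik, dX_diff X i k v w hik]
      have := tri X i u v (X.base i)
      omega
  · by_cases hjk : j = k
    · subst hjk
      rw [dX_same, dX_diff X i j u w hij, dX_diff X i j u v hij]
      have h1 := tri X j w v (X.base j)
      have h2 := (X.G j).dist_comm (u := w) (v := v)
      omega
    · by_cases hik : i = k
      · subst hik
        rw [dX_same, dX_diff X i j u v hij, dX_diff X j i v w hjk]
        have h1 := tri X i u (X.base i) w
        have h2 := (X.G i).dist_comm (u := w) (v := X.base i)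
        omega
      · rw [dX_diff X i j u v hij, dX_diff X j k v w hjk, dX_diff X i k u w hik]
        omega

end IMet

open IMet in
theorem pr_Met : St_Met := by
  intro X x y z
  refine ⟨?_, ?_, ?_, ?_⟩
  · unfold dZ
    rw [dX_self]
    omega
  · intro h
    unfold dZ at h
    have h1 : dX X x.1 y.1 = 0 := by omega
    have h2 : x.2 = y.2 := by omega
    exact Prod.ext (dX_eq X _ _ h1) h2
  · unfold dZ
    rw [dX_comm X x.1 y.1]
    omega
  · unfold dZ
    have := dX_tri X x.1 y.1 z.1
    omega

end Pool.Agent.Work.MP_1ddc88_an
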