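import Pool.Agent.Work.MP_1ddc88_an.Stmts

/-!
# MP_1ddc88_an, item Near
-/

set_option autoImplicit false

open Filter Topology
open scoped ENNReal Classical

namespace Pool.Agent.Work.MP_1ddc88_an

theorem pr_Near (h1 : St_Comm) (h2 : St_GhC) (h3 : St_Unit) (h4 : St_HM) : St_Near := by
  intro X n f g hg hfg
  obtain ⟨δ₀, hδ₀, hU⟩ := h3 X n
  obtain ⟨S, hS⟩ : ∃ S : ℝ, S = ∑ c, ∑ b, ‖g c b‖ := ⟨_, rfl⟩
  have hS0 : 0 ≤ S := by
    rw [hS]
    exact Finset.sum_nonneg fun c _ => Finset.sum_nonneg fun b _ => norm_nonneg _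
  have hgS : ∀ b, ∑ c, ‖g c b‖ ≤ S := by
    intro b
    rw [hS]
    refine Finset.sum_le_sum fun c _ => ?_
    exact Finset.single_le_sum (f := fun b => ‖g c b‖) (fun b _ => norm_nonneg _)
      (Finset.mem_univ b)
  have hδ : 0 < δ₀ / (2 * (1 + S)) := by positivity
  refine ⟨δ₀ / (2 * (1 + S)), hδ, fun f' hf' => ?_⟩
  have ht : ∀ a b, Tendsto (fun i => ∑ c, ‖f' a c‖ * ‖(1 - Q X i) * g c b * Q X i‖)
      atTop (𝓝 0) := by
    intro a b
    have h5 : Tendsto (fun i => ∑ c, ‖f' a c‖ * ‖(1 - Q X i) * g c b * Q X i‖)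
        atTop (𝓝 (∑ c, ‖f' a c‖ * 0)) :=
      tendsto_finsetSum _ fun c _ => (h1 X (g c b) (hg c b)).const_mul _
    simpa using h5
  have hev : ∀ᶠ i in atTop, ∀ a b,
      ∑ c, ‖f' a c‖ * ‖(1 - Q X i) * g c b * Q X i‖ < δ₀ / 2 := by
    rw [Filter.eventually_all]
    intro a
    rw [Filter.eventually_all]
    intro b
    exact (ht a b).eventually (gt_mem_nhds (by positivity))
  filter_upwards [hev] with i hi
  have hQ := Q_norm_le X i
  obtain ⟨E, hE⟩ : ∃ E : Mat X n, ∀ a b, E a b = Q X i * ((f' - f) * g) a b * Q X i -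
      ∑ c, Q X i * f' a c * ((1 - Q X i) * g c b * Q X i) := ⟨fun a b => _, fun _ _ => rfl⟩
  refine ⟨1 + E, hU _ ?_, ?_⟩
  · intro a b
    have e1 : (1 + E - 1) a b = E a b := by
      rw [add_sub_cancel_left]
    rw [e1, hE]
    have n1 : ‖Q X i * ((f' - f) * g) a b * Q X i‖ ≤ δ₀ / 2 := by
      have n2 : ‖((f' - f) * g) a b‖ ≤ δ₀ / 2 := by
        rw [Matrix.mul_apply]
        calc ‖∑ c, (f' - f) a c * g c b‖ ≤ ∑ c, ‖(f' - f) a c * g c b‖ := norm_sum_le _ _
          _ ≤ ∑ c, δ₀ / (2 * (1 + S)) * ‖g c b‖ := by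
              refine Finset.sum_le_sum fun c _ => ?_
              exact (norm_mul_le _ _).trans
                (mul_le_mul_of_nonneg_right (hf' a c) (norm_nonneg _))
          _ = δ₀ / (2 * (1 + S)) * ∑ c, ‖g c b‖ := by rw [Finset.mul_sum]
          _ ≤ δ₀ / (2 * (1 + S)) * (1 + S) :=
              mul_le_mul_of_nonneg_left (by linarith [hgS b]) hδ.le
          _ = δ₀ / 2 := by field_simp
      calc ‖Q X i * ((f' - f) * g) a b * Q X i‖
          ≤ ‖Q X i * ((f' - f) * g) a b‖ * ‖Q X i‖ := norm_mul_le _ _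
        _ ≤ ‖Q X i * ((f' - f) * g) a b‖ * 1 :=
            mul_le_mul_of_nonneg_left hQ (norm_nonneg _)
        _ ≤ ‖Q X i‖ * ‖((f' - f) * g) a b‖ := by
            rw [mul_one]
            exact norm_mul_le _ _
        _ ≤ 1 * ‖((f' - f) * g) a b‖ := mul_le_mul_of_nonneg_right hQ (norm_nonneg _)
        _ ≤ δ₀ / 2 := by rw [one_mul]; exact n2
    have n3 : ‖∑ c, Q X i * f' a c * ((1 - Q X i) * g c b * Q X i)‖ ≤ δ₀ / 2 := by
      refine le_trans ?_ (hi a b).le
      refine (norm_sum_le _ _).trans (Finset.sum_le_sum fun c _ => ?_)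
      refine (norm_mul_le _ _).trans (mul_le_mul_of_nonneg_right ?_ (norm_nonneg _))
      refine (norm_mul_le _ _).trans ?_
      calc ‖Q X i‖ * ‖f' a c‖ ≤ 1 * ‖f' a c‖ := mul_le_mul_of_nonneg_right hQ (norm_nonneg _)
        _ = ‖f' a c‖ := one_mul _
    refine (norm_sub_le _ _).trans ?_
    linarith
  · intro a b
    have e2 := (h4 X n i f' g).1 a b
    have e3 : (hat X i f' * hat X i g - (1 + E)) a b = Q X i * (f * g - 1) a b * Q X i := by
      have e4 : (hat X i f' * hat X i g - (1 + E)) a b =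
          (hat X i f' * hat X i g - 1) a b - E a b := by
        rw [← sub_sub]
        rfl
      have e5 : (f' * g - 1) a b = (f * g - 1) a b + ((f' - f) * g) a b := by
        have e6 : f' * g - 1 = (f * g - 1) + (f' - f) * g := by
          rw [sub_mul]
          abel
        rw [e6]
        rfl
      rw [e4, e2, hE, e5]
      have e7 : Q X i * ((f * g - 1) a b + ((f' - f) * g) a b) * Q X i =
          Q X i * (f * g - 1) a b * Q X i + Q X i * ((f' - f) * g) a b * Q X i := by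
        rw [mul_add, add_mul]
      rw [e7]
      abel
    rw [e3]
    exact h2 X _ (hfg a b) i

end Pool.Agent.Work.MP_1ddc88_an
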