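import Pool.Agent.Work.MP_1ddc88_an.Stmts

/-!
# MP_1ddc88_an: item Off (choice of the offset)
-/

set_option autoImplicit false

open Filter Topology
open scoped ENNReal Classical

namespace Pool.Agent.Work.MP_1ddc88_an

namespace IOff

theorem count_le (a M R : ℕ) :
    ((Finset.range M).filter fun s => (a + s) % M < 2 * R).card ≤ 2 * R := by
  have h : ((Finset.range M).filter fun s => (a + s) % M < 2 * R).card ≤
      (Finset.range (2 * R)).card := by
    refine Finset.card_le_card_of_injOn (fun s => (a + s) % M) ?_ ?_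
    · intro s hs
      have hs' := (Finset.mem_filter.mp hs).2
      exact Finset.mem_coe.mpr (Finset.mem_range.mpr hs')
    · intro s hs t ht hst
      have h1 : s < M := Finset.mem_range.mp (Finset.mem_filter.mp hs).1
      have h2 : t < M := Finset.mem_range.mp (Finset.mem_filter.mp ht).1
      have h3 : a + s ≡ a + t [MOD M] := hst
      exact (Nat.ModEq.add_left_cancel' a h3).eq_of_lt_of_lt h1 h2
  rw [Finset.card_range] at h
  exact h

theorem sum_le {ι : Type} (m : ι → ℕ) (M R : ℕ) (ξ : L2 ι) :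
    ∑ s ∈ Finset.range M, ‖proj {p | (m p + s) % M < 2 * R} ξ‖ ^ 2 ≤ 2 * R * ‖ξ‖ ^ 2 := by
  have hξ := l2_summable ξ
  have hsm : ∀ s ∈ Finset.range M, Summable fun p =>
      (if p ∈ {p | (m p + s) % M < 2 * R} then ‖ξ p‖ ^ 2 else 0) := by
    intro s _
    refine Summable.of_nonneg_of_le (fun p => ?_) (fun p => ?_) hξ
    · split_ifs
      · positivity
      · exact le_rfl
    · split_ifs
      · exact le_rfl
      · positivity
  simp only [proj_norm_sq]
  rw [← Summable.tsum_finsetSum hsm, l2_norm_sq, ← tsum_mul_left]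
  refine Summable.tsum_le_tsum (fun p => ?_) (summable_sum hsm) (hξ.mul_left _)
  have h1 : ∑ s ∈ Finset.range M,
      (if p ∈ {p | (m p + s) % M < 2 * R} then ‖ξ p‖ ^ 2 else 0) =
      ((Finset.range M).filter fun s => (m p + s) % M < 2 * R).card * ‖ξ p‖ ^ 2 := by
    simp only [Set.mem_ofPred_eq]
    rw [← Finset.sum_filter, Finset.sum_const, nsmul_eq_mul]
  rw [h1]
  refine mul_le_mul_of_nonneg_right ?_ (by positivity)
  have h2 := count_le (m p) M R
  exact_mod_cast h2

end IOff

theorem pr_Off : St_Off := by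
  intro ι m M R ξ hM
  have h := IOff.sum_le m M R ξ
  have h2 : ∑ s ∈ Finset.range M, (M : ℝ) * ‖proj {p | (m p + s) % M < 2 * R} ξ‖ ^ 2 ≤
      ∑ _s ∈ Finset.range M, 2 * R * ‖ξ‖ ^ 2 := by
    rw [← Finset.mul_sum, Finset.sum_const, Finset.card_range, nsmul_eq_mul]
    exact mul_le_mul_of_nonneg_left h (Nat.cast_nonneg M)
  obtain ⟨s, hs, hle⟩ := Finset.exists_le_of_sum_le
    ⟨0, Finset.mem_range.mpr hM⟩ h2
  exact ⟨s, Finset.mem_range.mp hs, hle⟩

end Pool.Agent.Work.MP_1ddc88_an
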