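import Mathlib
import Pool.Agent.Work.MP_1ddc88_an.Stmts

/-!
# MP_1ddc88_an, item PUa: sums of invertible and compact matrices
-/

set_option autoImplicit false

open Filter Topology
open scoped ENNReal

namespace Pool.Agent.Work.MP_1ddc88_an

namespace IPUa

/-- Matrices with compact entries. -/
def CJ (X : Expander) {n : ℕ} (M : Mat X n) : Prop := ∀ a b, IsCompactOperator (M a b)

theorem op_sum (X : Expander) {ι : Type} (s : Finset ι) (f : ι → Op X)
    (h : ∀ i ∈ s, IsCompactOperator (f i)) : IsCompactOperator ((∑ i ∈ s, f i : Op X)) :=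
  Submodule.sum_mem (compactOperator (RingHom.id ℂ) (Hs X) (Hs X)) h

theorem op_mul_left (X : Expander) (S T : Op X) (h : IsCompactOperator T) :
    IsCompactOperator ((S * T : Op X)) := h.clm_comp S

theorem op_mul_right (X : Expander) (S T : Op X) (h : IsCompactOperator T) :
    IsCompactOperator ((T * S : Op X)) := h.comp_clm S

theorem mul_left (X : Expander) {n : ℕ} (M N : Mat X n) (h : CJ X N) : CJ X (M * N) := by
  intro a b
  rw [Matrix.mul_apply]
  exact op_sum X _ _ fun c _ => op_mul_left X _ _ (h c b)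

theorem mul_right (X : Expander) {n : ℕ} (M N : Mat X n) (h : CJ X M) : CJ X (M * N) := by
  intro a b
  rw [Matrix.mul_apply]
  exact op_sum X _ _ fun c _ => op_mul_right X _ _ (h a c)

theorem sub (X : Expander) {n : ℕ} (M N : Mat X n) (hM : CJ X M) (hN : CJ X N) :
    CJ X (M - N) := by
  intro a b
  exact (hM a b).sub (hN a b)

end IPUa

open IPUa in
/-- Item PUa. -/
theorem pr_PUa : St_PUa := by
  rintro X n x y g ⟨_, ⟨u, rfl⟩, hc⟩ ⟨_, ⟨u', rfl⟩, hc'⟩ ⟨_, ⟨u'', rfl⟩, hc''⟩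
  have h1 : CJ X (x - (u : Mat X n)) := hc
  have h2 : CJ X (x * g - (u' : Mat X n)) := hc'
  have h3 : CJ X (y * g - (u'' : Mat X n)) := hc''
  have hb : CJ X ((↑u⁻¹ : Mat X n) * ((x * g - (u' : Mat X n)) - (x - (u : Mat X n)) * g)) :=
    mul_left X _ _ (sub X _ _ h2 (mul_right X _ _ h1))
  have hg : g = (↑(u⁻¹ * u') : Mat X n) +
      (↑u⁻¹ : Mat X n) * ((x * g - (u' : Mat X n)) - (x - (u : Mat X n)) * g) := by
    have h4 : (x * g - (u' : Mat X n)) - (x - (u : Mat X n)) * g = (u : Mat X n) * g - (u' : Mat X n) := by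
      rw [sub_mul]
      abel
    rw [h4, mul_sub, Units.val_mul, ← mul_assoc (↑u⁻¹ : Mat X n) (u : Mat X n) g, Units.inv_mul,
      one_mul]
    abel
  generalize (↑u⁻¹ : Mat X n) * ((x * g - (u' : Mat X n)) - (x - (u : Mat X n)) * g) = b at hb hg
  generalize u⁻¹ * u' = k at hg
  have h5 : y * (k : Mat X n) = (u'' : Mat X n) + ((y * g - (u'' : Mat X n)) - y * b) := by
    have h6 : y * g = y * (k : Mat X n) + y * b := by rw [← mul_add, ← hg]
    rw [h6]
    abel
  have h6 : y = (↑(u'' * k⁻¹) : Mat X n) + ((y * g - (u'' : Mat X n)) - y * b) * (↑k⁻¹ : Mat X n) := by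
    calc y = (y * (k : Mat X n)) * (↑k⁻¹ : Mat X n) := by
          rw [mul_assoc, Units.mul_inv, mul_one]
      _ = _ := by rw [h5, add_mul, Units.val_mul]
  refine ⟨↑(u'' * k⁻¹), Units.isUnit _, ?_⟩
  have h7 : y - (↑(u'' * k⁻¹) : Mat X n) = ((y * g - (u'' : Mat X n)) - y * b) * (↑k⁻¹ : Mat X n) := by
    rw [sub_eq_iff_eq_add']
    exact h6
  rw [h7]
  exact mul_right X _ _ (sub X _ _ h3 (mul_left X _ _ hb))

end Pool.Agent.Work.MP_1ddc88_an
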