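import Pool.Agent.Work.MP_1ddc88_an.Stmts

/-!
# MP_1ddc88_an, block BC, item PUo (helper73)
-/

set_option autoImplicit false

open Filter Topology
open scoped ENNReal Classical

namespace Pool.Agent.Work.MP_1ddc88_an

noncomputable section

namespace IPUo

variable {X : Expander} {n : ℕ}

theorem cpt_sum {ι : Type} (s : Finset ι) (f : ι → Op X) (h : ∀ c ∈ s, IsCompactOperator (f c)) :
    (∑ c ∈ s, f c) ∈ compactOperator (RingHom.id ℂ) (Hs X) (Hs X) :=
  Submodule.sum_mem _ h

theorem cpt_left (y c : Mat X n) (hc : ∀ a b, IsCompactOperator (c a b)) :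
    ∀ a b, IsCompactOperator ((y * c) a b) := by
  intro a b
  rw [Matrix.mul_apply]
  exact cpt_sum _ (fun d => y a d * c d b) fun d _ => (hc d b).clm_comp (y a d)

theorem cpt_right (y c : Mat X n) (hc : ∀ a b, IsCompactOperator (c a b)) :
    ∀ a b, IsCompactOperator ((c * y) a b) := by
  intro a b
  rw [Matrix.mul_apply]
  exact cpt_sum _ (fun d => c a d * y d b) fun d _ => (hc a d).comp_clm (y d b)

end IPUo

open IPUo

/-- Item PUo. -/
theorem pr_PUo (h1 : St_Riesz) : St_PUo := by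
  intro X n x v hx
  obtain ⟨A, hA, hc⟩ := hx
  obtain ⟨A, rfl⟩ := hA
  set c : Mat X n := x - (A : Mat X n) with hcdef
  have hxA : x = (A : Mat X n) + c := by rw [hcdef]; abel
  refine ⟨?_, ?_⟩
  · intro h
    have hk := cpt_left (↑A⁻¹ : Mat X n) c hc
    have hx1 : x = (A : Mat X n) * (1 + (↑A⁻¹ : Mat X n) * c) := by
      rw [mul_add, mul_one, ← mul_assoc, Units.mul_inv, one_mul]; exact hxA
    have h2 : (v * (A : Mat X n)) * (1 + (↑A⁻¹ : Mat X n) * c) = 1 := by
      rw [mul_assoc, ← hx1]; exact h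
    have h3 := (h1 X n _ (v * (A : Mat X n)) hk).1 h2
    calc x * v = (A : Mat X n) * ((1 + (↑A⁻¹ : Mat X n) * c) * (v * (A : Mat X n))) *
          (↑A⁻¹ : Mat X n) := by
          conv_lhs => rw [hx1]
          simp only [mul_assoc, Units.mul_inv, mul_one]
      _ = 1 := by rw [h3, mul_one, Units.mul_inv]
  · intro h
    have hk := cpt_right (↑A⁻¹ : Mat X n) c hc
    have hx1 : x = (1 + c * (↑A⁻¹ : Mat X n)) * (A : Mat X n) := by
      rw [add_mul, one_mul, mul_assoc, Units.inv_mul, mul_one]; exact hxA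
    have h2 : (1 + c * (↑A⁻¹ : Mat X n)) * ((A : Mat X n) * v) = 1 := by
      rw [← mul_assoc, ← hx1]; exact h
    have h3 := (h1 X n _ ((A : Mat X n) * v) hk).2 h2
    calc v * x = (↑A⁻¹ : Mat X n) * (((A : Mat X n) * v) * (1 + c * (↑A⁻¹ : Mat X n))) *
          (A : Mat X n) := by
          conv_lhs => rw [hx1]
          simp only [← mul_assoc, Units.inv_mul, one_mul]
      _ = 1 := by rw [h3, mul_one, Units.inv_mul]

end

end Pool.Agent.Work.MP_1ddc88_an
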