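import Pool.Agent.Work.MP_1ddc88_an.Stmts

/-!
# MP_1ddc88_an, item Path
-/

set_option autoImplicit false

open Filter Topology
open scoped ENNReal Classical

namespace Pool.Agent.Work.MP_1ddc88_an

theorem pr_Path (h1 : St_Near) (h2 : St_PUa) : St_Path := by
  intro X n x y hxy hx
  obtain ⟨f, hf, hf0, hf1, hinv⟩ := hxy
  have key : (∀ᶠ i in atTop, PU X (hat X i (f 0))) ↔ ∀ᶠ i in atTop, PU X (hat X i (f 1)) := by
    refine isPreconnected_Icc.induction₂ (s := Set.Icc (0 : ℝ) 1)
      (fun s t => (∀ᶠ i in atTop, PU X (hat X i (f s))) ↔ ∀ᶠ i in atTop, PU X (hat X i (f t)))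
      ?_ ?_ ?_ (Set.left_mem_Icc.2 zero_le_one) (Set.right_mem_Icc.2 zero_le_one)
    · intro t ht
      obtain ⟨-, g, hg, hfg, -⟩ := hinv t ht
      obtain ⟨δ, hδ, hN⟩ := h1 X n (f t) g hg hfg
      have hc : ∀ᶠ t' in 𝓝[Set.Icc (0 : ℝ) 1] t, ∀ a b, ‖(f t' - f t) a b‖ ≤ δ := by
        rw [Filter.eventually_all]
        intro a
        rw [Filter.eventually_all]
        intro b
        have hc1 : ContinuousOn (fun t => f t a b) (Set.Icc (0 : ℝ) 1) :=
          continuousOn_pi.1 (continuousOn_pi.1 hf a) b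
        have hc2 : Tendsto (fun t' => ‖f t' a b - f t a b‖) (𝓝[Set.Icc (0 : ℝ) 1] t)
            (𝓝 ‖f t a b - f t a b‖) := ((hc1 t ht).sub tendsto_const_nhds).norm
        rw [sub_self, norm_zero] at hc2
        filter_upwards [hc2.eventually (gt_mem_nhds hδ)] with t' h
        exact h.le
      filter_upwards [hc] with t' ht'
      have N1 := hN (f t') ht'
      have N0 := hN (f t) (fun a b => by
        rw [sub_self]
        simpa using hδ.le)
      constructor
      · intro hP
        filter_upwards [hP, N0, N1] with i p0 p1 p2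
        exact h2 X n _ _ _ p0 p1 p2
      · intro hP
        filter_upwards [hP, N0, N1] with i p0 p1 p2
        exact h2 X n _ _ _ p0 p2 p1
    · intro r s t _ _ _ hrs hst
      exact hrs.trans hst
    · intro s t _ _ hst
      exact hst.symm
  rw [hf0, hf1] at key
  exact key.1 hx

end Pool.Agent.Work.MP_1ddc88_an
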