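import Pool.Agent.Work.MP_1ddc88_an.Stmts

/-!
# MP_1ddc88_an, item Pyth: Pythagoras for vectors with disjoint supports
-/

set_option autoImplicit false

open Filter Topology
open scoped ENNReal Classical

namespace Pool.Agent.Work.MP_1ddc88_an

noncomputable section

namespace IPyth

theorem inner_zero {ι : Type} (W W' : Set ι) (ξ η : L2 ι) (h : Disjoint W W')
    (hξ : proj W ξ = ξ) (hη : proj W' η = η) : inner ℂ ξ η = 0 := by
  rw [lp.inner_eq_tsum]
  have hz : (fun p => inner ℂ (ξ p) (η p)) = fun _ => (0 : ℂ) := by
    funext p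
    by_cases hp : ξ p = 0
    · rw [hp, inner_zero_left]
    · have h1 : p ∈ W := (proj_eq_self_iff W ξ).1 hξ p hp
      have h2 : p ∉ W' := Set.disjoint_left.1 h h1
      have h3 : η p = 0 := by
        by_contra hne
        exact h2 ((proj_eq_self_iff W' η).1 hη p hne)
      rw [h3, inner_zero_right]
  rw [hz, tsum_zero]

end IPyth

open IPyth in
theorem pr_Pyth : St_Pyth := by
  intro ι J W η hW hη
  induction J using Finset.induction_on with
  | empty => simp
  | insert j J hj ih =>
    have ih' := ih (fun a ha b hb => hW a (Finset.mem_insert_of_mem ha) b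
      (Finset.mem_insert_of_mem hb)) (fun a ha => hη a (Finset.mem_insert_of_mem ha))
    rw [Finset.sum_insert hj, Finset.sum_insert hj, ← ih']
    have h0 : inner ℂ (η j) (∑ k ∈ J, η k) = 0 := by
      rw [inner_sum]
      refine Finset.sum_eq_zero fun k hk => ?_
      have hne : j ≠ k := fun h => hj (h ▸ hk)
      exact inner_zero (W j) (W k) (η j) (η k)
        (hW j (Finset.mem_insert_self j J) k (Finset.mem_insert_of_mem hk) hne)
        (hη j (Finset.mem_insert_self j J)) (hη k (Finset.mem_insert_of_mem hk))
    have h1 := norm_add_sq_eq_norm_sq_add_norm_sq_of_inner_eq_zero (η j) (∑ k ∈ J, η k) h0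
    rw [pow_two, h1]
    ring

end

end Pool.Agent.Work.MP_1ddc88_an
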