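import Pool.Agent.Work.MP_1ddc88_an.Stmts

/-!
# MP_1ddc88_an, block BC, item Riesz (helper73)
-/

set_option autoImplicit false

open Filter Topology
open scoped ENNReal Classical

namespace Pool.Agent.Work.MP_1ddc88_an

noncomputable section

namespace IRiesz

variable {H : Type} [NormedAddCommGroup H] [NormedSpace ℂ H] {n : ℕ}

/-- The action of matrices of operators on vectors. -/
def rho (x : Matrix (Fin n) (Fin n) (H →L[ℂ] H)) : (Fin n → H) →L[ℂ] (Fin n → H) :=
  ContinuousLinearMap.pi (fun a => ∑ b, (x a b).comp (ContinuousLinearMap.proj b))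

theorem rho_apply (x : Matrix (Fin n) (Fin n) (H →L[ℂ] H)) (v : Fin n → H) (a : Fin n) :
    rho x v a = ∑ b, x a b (v b) := by
  simp [rho]

theorem rho_mul (x y : Matrix (Fin n) (Fin n) (H →L[ℂ] H)) : rho (x * y) = rho x * rho y := by
  ext v a
  rw [ContinuousLinearMap.mul_def, ContinuousLinearMap.comp_apply, rho_apply, rho_apply]
  have h1 : ∀ b, (x * y) a b (v b) = ∑ c, x a c (y c b (v b)) := by
    intro b
    rw [Matrix.mul_apply]
    simp [ContinuousLinearMap.mul_def]
  simp only [h1, rho_apply, map_sum]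
  rw [Finset.sum_comm]

theorem rho_one : rho (1 : Matrix (Fin n) (Fin n) (H →L[ℂ] H)) = 1 := by
  ext v a
  rw [rho_apply]
  rw [Finset.sum_eq_single a]
  · simp
  · intro b _ hb
    rw [Matrix.one_apply_ne (Ne.symm hb)]
    simp
  · intro h
    exact absurd (Finset.mem_univ a) h

theorem rho_add (x y : Matrix (Fin n) (Fin n) (H →L[ℂ] H)) : rho (x + y) = rho x + rho y := by
  ext v a
  have h1 : (rho x + rho y) v a = rho x v a + rho y v a := by simp
  rw [h1, rho_apply, rho_apply, rho_apply, ← Finset.sum_add_distrib]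
  apply Finset.sum_congr rfl
  intro b _
  simp

theorem rho_inj {x y : Matrix (Fin n) (Fin n) (H →L[ℂ] H)} (h : rho x = rho y) : x = y := by
  ext a b ξ
  have h1 : ∀ z : Matrix (Fin n) (Fin n) (H →L[ℂ] H), rho z (Pi.single b ξ) a = z a b ξ := by
    intro z
    rw [rho_apply, Finset.sum_eq_single b]
    · rw [Pi.single_eq_same]
    · intro c _ hc
      rw [Pi.single_eq_of_ne hc, map_zero]
    · intro hb
      exact absurd (Finset.mem_univ b) hb
  rw [← h1 x, ← h1 y, h]

theorem rho_compact (x : Matrix (Fin n) (Fin n) (H →L[ℂ] H))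
    (hx : ∀ a b, IsCompactOperator (x a b)) : IsCompactOperator (rho x) := by
  have h1 : rho x = ∑ a, ∑ b, ((ContinuousLinearMap.single ℂ (fun _ : Fin n => H) a).comp
      ((x a b).comp (ContinuousLinearMap.proj b))) := by
    ext v c
    rw [rho_apply]
    simp only [ContinuousLinearMap.sum_apply, Finset.sum_apply, ContinuousLinearMap.comp_apply,
      ContinuousLinearMap.proj_apply, ContinuousLinearMap.single_apply]
    symm
    rw [Finset.sum_eq_single c]
    · apply Finset.sum_congr rfl
      intro b _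
      rw [Pi.single_eq_same]
    · intro a _ ha
      apply Finset.sum_eq_zero
      intro b _
      rw [Pi.single_eq_of_ne (Ne.symm ha)]
    · intro hc
      exact absurd (Finset.mem_univ c) hc
  rw [h1]
  have h2 : ∀ a ∈ (Finset.univ : Finset (Fin n)), (∑ b, ((ContinuousLinearMap.single ℂ
      (fun _ : Fin n => H) a).comp ((x a b).comp (ContinuousLinearMap.proj b)))) ∈
      compactOperator (RingHom.id ℂ) (Fin n → H) (Fin n → H) := by
    intro a _
    apply Submodule.sum_mem
    intro b _
    have h3 : IsCompactOperator ((x a b) ∘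
        (ContinuousLinearMap.proj b : (Fin n → H) →L[ℂ] H)) :=
      (hx a b).comp_clm (ContinuousLinearMap.proj b : (Fin n → H) →L[ℂ] H)
    exact h3.clm_comp (ContinuousLinearMap.single ℂ (fun _ : Fin n => H) a)
  exact Submodule.sum_mem _ h2

theorem one_side [CompleteSpace H] (κ L : Matrix (Fin n) (Fin n) (H →L[ℂ] H))
    (hκ : ∀ a b, IsCompactOperator (κ a b)) (h : L * (1 + κ) = 1) : (1 + κ) * L = 1 := by
  have hK := rho_compact κ hκ
  have h1 : rho L * (1 + rho κ) = 1 := by
    rw [← rho_one, ← rho_add, ← rho_mul, h]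
  have h2 : ¬ Module.End.HasEigenvalue ((rho κ : (Fin n → H) →L[ℂ] (Fin n → H)) :
      Module.End ℂ (Fin n → H)) (-1) := by
    intro he
    obtain ⟨v, hv⟩ := he.exists_hasEigenvector
    have hv1 : rho κ v = -v := by
      have := hv.apply_eq_smul
      simpa using this
    have hv2 : (1 + rho κ) v = 0 := by
      have : (1 + rho κ) v = v + rho κ v := by simp
      rw [this, hv1, add_neg_cancel]
    have hv3 : (rho L * (1 + rho κ)) v = v := by rw [h1]; rfl
    rw [ContinuousLinearMap.mul_def, ContinuousLinearMap.comp_apply, hv2, map_zero] at hv3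
    exact hv.2 hv3.symm
  have h3 := (hK.hasEigenvalue_or_mem_resolventSet (μ := (-1 : ℂ)) (by norm_num)).resolve_left h2
  have h4 : IsUnit (1 + rho κ) := by
    rw [spectrum.mem_resolventSet_iff] at h3
    have h5 : (algebraMap ℂ ((Fin n → H) →L[ℂ] (Fin n → H)) (-1) - rho κ) = -(1 + rho κ) := by
      rw [map_neg, map_one]; abel
    rw [h5, IsUnit.neg_iff] at h3
    exact h3
  have h6 : (1 + rho κ) * rho L = 1 := by
    obtain ⟨w, hw⟩ := h4
    have h7 : rho L = ↑w⁻¹ := by
      rw [← hw] at h1
      exact Units.eq_inv_of_mul_eq_one_right h1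
    rw [h7, ← hw, Units.mul_inv]
  apply rho_inj
  rw [rho_mul, rho_add, rho_one, h6]

end IRiesz

open IRiesz

/-- Item Riesz. -/
theorem pr_Riesz : St_Riesz := by
  intro X n κ L hκ
  refine ⟨one_side κ L hκ, ?_⟩
  intro h
  have hL : L = 1 + (-(κ * L)) := by
    have h1 : L + κ * L = 1 := by rw [add_mul, one_mul] at h; exact h
    rw [← h1]; abel
  have hκ' : ∀ a b, IsCompactOperator ((-(κ * L)) a b) := by
    intro a b
    have h1 : (-(κ * L)) a b = -(∑ c, κ a c * L c b) := by
      rw [Matrix.neg_apply, Matrix.mul_apply]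
    rw [h1]
    have h2 : (∑ c, κ a c * L c b) ∈ compactOperator (RingHom.id ℂ) (Hs X) (Hs X) := by
      apply Submodule.sum_mem
      intro c _
      exact (hκ a c).comp_clm (L c b)
    exact Submodule.neg_mem _ h2
  have h3 : (1 + κ) * (1 + (-(κ * L))) = 1 := by rw [← hL]; exact h
  have h4 := one_side (-(κ * L)) (1 + κ) hκ' h3
  rw [← hL] at h4
  exact h4

end

end Pool.Agent.Work.MP_1ddc88_an
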