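import Pool.Agent.Work.MP_1ddc88_an.Stmts

/-!
# MP_1ddc88_an, item ShF: the formula for the shifts
-/

set_option autoImplicit false

open Filter Topology
open scoped ENNReal Classical

namespace Pool.Agent.Work.MP_1ddc88_an

noncomputable section

namespace IShF

/-- a row with at most one entry different from zero -/
theorem one_row {ι : Type} (r : ι → Prop) {inst : DecidablePred r}
    (h : ∀ q q', r q → r q' → q = q') :
    Summable (fun q => ‖(if r q then (1 : ℂ) else 0)‖) ∧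
      ∑' q, ‖(if r q then (1 : ℂ) else 0)‖ ≤ 1 := by
  by_cases hex : ∃ q0, r q0
  · obtain ⟨q0, hq0⟩ := hex
    have hf : ∀ q, q ≠ q0 → ‖(if r q then (1 : ℂ) else 0)‖ = 0 := by
      intro q hq
      rw [if_neg (fun hr => hq (h q q0 hr hq0)), norm_zero]
    have hs := hasSum_single (f := fun q => ‖(if r q then (1 : ℂ) else 0)‖) q0 hf
    refine ⟨hs.summable, ?_⟩
    rw [hs.tsum_eq, if_pos hq0, norm_one]
  · have hf : (fun q => ‖(if r q then (1 : ℂ) else 0)‖) = fun _ => (0 : ℝ) := by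
      funext q
      rw [if_neg (fun hr => hex ⟨q, hr⟩), norm_zero]
    rw [hf]
    refine ⟨summable_zero, ?_⟩
    rw [tsum_zero]
    exact zero_le_one

theorem markov (X : Expander) (a : ℕ → ℤ) : IsMarkov (fun p q : Ix X =>
    if p.1.1 = q.1.1 ∧ (p.1.2 : ℤ) = q.1.2 + a q.1.1.1 ∧ p.2 = q.2 then (1 : ℂ) else 0) := by
  constructor
  · intro p
    refine one_row (fun q : Ix X =>
      p.1.1 = q.1.1 ∧ (p.1.2 : ℤ) = q.1.2 + a q.1.1.1 ∧ p.2 = q.2) ?_
    rintro ⟨⟨x, m⟩, k⟩ ⟨⟨x', m'⟩, k'⟩ ⟨h1, h2, h3⟩ ⟨h1', h2', h3'⟩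
    simp only at h1 h2 h3 h1' h2' h3'
    subst h1
    subst h1'
    subst h3
    subst h3'
    have : m = m' := by omega
    rw [this]
  · intro q
    refine one_row (fun p : Ix X =>
      p.1.1 = q.1.1 ∧ (p.1.2 : ℤ) = q.1.2 + a q.1.1.1 ∧ p.2 = q.2) ?_
    rintro ⟨⟨x, m⟩, k⟩ ⟨⟨x', m'⟩, k'⟩ ⟨h1, h2, h3⟩ ⟨h1', h2', h3'⟩
    simp only at h1 h2 h3 h1' h2' h3'
    subst h1
    subst h1'
    subst h3
    subst h3'
    have : m = m' := by omega
    rw [this]

end IShF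

open IShF in
theorem pr_ShF : St_ShF := by
  intro X a
  refine ⟨markov X a, ?_⟩
  intro ξ x m k
  unfold Sh
  rw [kerOp_apply (markov X a)]
  by_cases h : 0 ≤ (m : ℤ) - a x.1
  · rw [if_pos h, tsum_eq_single ((x, ((m : ℤ) - a x.1).toNat), k)]
    · have hc : x = x ∧ (m : ℤ) = ((((m : ℤ) - a x.1).toNat : ℕ) : ℤ) + a x.1 ∧ k = k := by
        refine ⟨rfl, ?_, rfl⟩
        rw [Int.toNat_of_nonneg h]
        ring
      rw [if_pos hc, one_mul]
    · rintro ⟨⟨y, m'⟩, k'⟩ hq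
      have hc : ¬ (x = y ∧ (m : ℤ) = (m' : ℤ) + a y.1 ∧ k = k') := by
        rintro ⟨h1, h2, h3⟩
        apply hq
        subst h1
        subst h3
        have : m' = ((m : ℤ) - a x.1).toNat := by omega
        rw [this]
      rw [if_neg hc, zero_mul]
  · rw [if_neg h]
    have hz : (fun q : Ix X => (if ((x, m), k).1.1 = q.1.1 ∧
        ((((x, m), k) : Ix X).1.2 : ℤ) = q.1.2 + a q.1.1.1 ∧ (((x, m), k) : Ix X).2 = q.2
          then (1 : ℂ) else 0) * ξ q) = fun _ => 0 := by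
      funext q
      have hc : ¬ (x = q.1.1 ∧ (m : ℤ) = (q.1.2 : ℤ) + a q.1.1.1 ∧ k = q.2) := by
        rintro ⟨h1, h2, -⟩
        apply h
        rw [h1]
        omega
      rw [if_neg hc, zero_mul]
    rw [hz, tsum_zero]

end

end Pool.Agent.Work.MP_1ddc88_an
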