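import Pool.Agent.Work.MP_1ddc88_an.Stmts

/-!
# MP_1ddc88_an, item ShP: the averaging projection and the shifts
-/

set_option autoImplicit false

open Filter Topology
open scoped ENNReal Classical

namespace Pool.Agent.Work.MP_1ddc88_an

namespace IShP

theorem N_ne (X : Expander) (i : ℕ) : (X.N i : ℂ) ≠ 0 := by
  have h : Nonempty (Fin (X.N i)) := (X.conn i).nonempty
  obtain ⟨v⟩ := h
  have h1 : X.N i ≠ 0 := by
    have := v.2
    omega
  exact_mod_cast h1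

theorem dX_self (h1 : St_Met) (X : Expander) (x : Pt X) : dX X x x = 0 := by
  have h := (h1 X (x, 0) (x, 0) (x, 0)).1
  unfold dZ at h
  simpa using h

end IShP

theorem pr_ShP (h1 : St_Met) (h2 : St_PavF) (h3 : St_ShF) : St_ShP := by
  intro X
  have hP := (h2 X).2
  have hS := fun a => (h3 X a).2
  refine ⟨?_, ?_, ?_, ?_, ?_, ?_, ?_⟩
  · apply op_ext
    intro ξ p
    show Pav X (Pav X ξ) p = Pav X ξ p
    rw [hP, hP ξ]
    by_cases h : p.2 = 0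
    · rw [if_pos h, if_pos h]
      have h4 : ∀ v : Fin (X.N p.1.1.1), Pav X ξ ((⟨p.1.1.1, v⟩, p.1.2), 0) =
          (X.N p.1.1.1 : ℂ)⁻¹ * ∑ w : Fin (X.N p.1.1.1), ξ ((⟨p.1.1.1, w⟩, p.1.2), 0) := by
        intro v
        rw [hP, if_pos rfl]
      rw [Finset.sum_congr rfl fun v _ => h4 v, Finset.sum_const, Finset.card_univ,
        Fintype.card_fin, nsmul_eq_mul, ← mul_assoc (X.N p.1.1.1 : ℂ),
        mul_inv_cancel₀ (IShP.N_ne X _), one_mul]
    · rw [if_neg h, if_neg h]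
  · intro a
    apply op_ext
    rintro ξ ⟨⟨x, m⟩, k⟩
    show Sh X a (Pav X ξ) ((x, m), k) = Pav X (Sh X a ξ) ((x, m), k)
    rw [hS, hP, hP]
    show (if 0 ≤ (m : ℤ) - a x.1 then (if k = 0 then (X.N x.1 : ℂ)⁻¹ *
        ∑ v : Fin (X.N x.1), ξ ((⟨x.1, v⟩, ((m : ℤ) - a x.1).toNat), 0) else 0) else 0) =
      if k = 0 then (X.N x.1 : ℂ)⁻¹ *
        ∑ v : Fin (X.N x.1), Sh X a ξ ((⟨x.1, v⟩, m), 0) else 0
    have h4 : ∀ v : Fin (X.N x.1), Sh X a ξ ((⟨x.1, v⟩, m), 0) =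
        if 0 ≤ (m : ℤ) - a x.1 then ξ ((⟨x.1, v⟩, ((m : ℤ) - a x.1).toNat), 0) else 0 :=
      fun v => hS a ξ ⟨x.1, v⟩ m 0
    rw [Finset.sum_congr rfl fun v _ => h4 v]
    by_cases h : 0 ≤ (m : ℤ) - a x.1
    · simp only [if_pos h]
    · simp only [if_neg h, Finset.sum_const_zero, mul_zero, ite_self]
  · apply op_ext
    rintro ξ ⟨⟨x, m⟩, k⟩
    rw [hS]
    show (if 0 ≤ (m : ℤ) - 0 then ξ ((x, ((m : ℤ) - 0).toNat), k) else 0) = ξ ((x, m), k)
    rw [sub_zero, if_pos (Int.natCast_nonneg m), Int.toNat_natCast]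
  · intro a C hC
    rintro ξ ⟨⟨x, m⟩, k⟩ hne
    rw [hS] at hne
    have h0 : 0 ≤ (m : ℤ) - a x.1 := by
      by_contra h
      exact hne (if_neg h)
    rw [if_pos h0] at hne
    refine ⟨((x, ((m : ℤ) - a x.1).toNat), k), hne, ?_⟩
    have h4 := hC x.1
    show dZ X (x, m) (x, ((m : ℤ) - a x.1).toNat) ≤ C
    unfold dZ
    show dX X x x + ((m - ((m : ℤ) - a x.1).toNat) + (((m : ℤ) - a x.1).toNat - m)) ≤ C
    rw [IShP.dX_self h1, zero_add]
    rw [abs_le] at h4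
    omega
  · intro ξ p hne
    refine ⟨p, hne, ?_⟩
    rw [(h1 X p.1 p.1 p.1).1]
  · intro a i
    apply op_ext
    rintro ξ ⟨⟨x, m⟩, k⟩
    show Sh X a (Q X i ξ) ((x, m), k) = Q X i (Sh X a ξ) ((x, m), k)
    rw [hS, Q_apply, Q_apply, hS]
    show (if 0 ≤ (m : ℤ) - a x.1 then
        (if x.1 = i then ξ ((x, ((m : ℤ) - a x.1).toNat), k) else 0) else 0) =
      if x.1 = i then
        (if 0 ≤ (m : ℤ) - a x.1 then ξ ((x, ((m : ℤ) - a x.1).toNat), k) else 0) else 0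
    by_cases h : 0 ≤ (m : ℤ) - a x.1
    · simp only [if_pos h]
    · simp only [if_neg h, ite_self]
  · intro i
    apply op_ext
    rintro ξ ⟨⟨x, m⟩, k⟩
    show Pav X (Q X i ξ) ((x, m), k) = Q X i (Pav X ξ) ((x, m), k)
    rw [hP, Q_apply, hP]
    show (if k = 0 then (X.N x.1 : ℂ)⁻¹ *
        ∑ v : Fin (X.N x.1), Q X i ξ ((⟨x.1, v⟩, m), 0) else 0) =
      if x.1 = i then (if k = 0 then (X.N x.1 : ℂ)⁻¹ *
        ∑ v : Fin (X.N x.1), ξ ((⟨x.1, v⟩, m), 0) else 0) else 0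
    have h4 : ∀ v : Fin (X.N x.1), Q X i ξ ((⟨x.1, v⟩, m), 0) =
        if x.1 = i then ξ ((⟨x.1, v⟩, m), 0) else 0 := by
      intro v
      rw [Q_apply]
    rw [Finset.sum_congr rfl fun v _ => h4 v]
    by_cases h : x.1 = i
    · simp only [if_pos h]
    · simp only [if_neg h, Finset.sum_const_zero, mul_zero, ite_self]

end Pool.Agent.Work.MP_1ddc88_an
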