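import Pool.Agent.Work.MP_1ddc88_an.Stmts

/-!
# MP_1ddc88_an, item Slice: the averaging estimate on one graph
-/

set_option autoImplicit false

open Filter Topology
open scoped ENNReal Classical

namespace Pool.Agent.Work.MP_1ddc88_an

noncomputable section

namespace ISlice

variable {V : Type} [Fintype V] (A : V → V → Prop)

/-- the Laplacian -/
def Lp (g : V → ℝ) (v : V) : ℝ := ∑ w, if A v w then g v - g w else 0

/-- the Dirichlet form -/
def EE (g h : V → ℝ) : ℝ := ∑ v, ∑ w, if A v w then (g v - g w) * (h v - h w) else 0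

variable {A}

theorem lap_sum (hA : ∀ v w, A v w → A w v) (g h : V → ℝ) :
    ∑ v, Lp A g v * h v = EE A g h / 2 := by
  have h1 : ∑ v, Lp A g v * h v = ∑ v, ∑ w, if A v w then (g v - g w) * h v else 0 := by
    refine Finset.sum_congr rfl fun v _ => ?_
    unfold Lp
    rw [Finset.sum_mul]
    refine Finset.sum_congr rfl fun w _ => ?_
    split_ifs <;> simp
  have h2 : ∑ v, ∑ w, (if A v w then (g v - g w) * h v else 0) =
      -∑ v, ∑ w, if A v w then (g v - g w) * h w else 0 := by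
    rw [Finset.sum_comm, ← Finset.sum_neg_distrib]
    refine Finset.sum_congr rfl fun v _ => ?_
    rw [← Finset.sum_neg_distrib]
    refine Finset.sum_congr rfl fun w _ => ?_
    by_cases h : A v w
    · rw [if_pos h, if_pos (hA v w h)]
      ring
    · rw [if_neg h, if_neg (fun h' => h (hA w v h'))]
      simp
  have h3 : EE A g h = (∑ v, ∑ w, if A v w then (g v - g w) * h v else 0) -
      ∑ v, ∑ w, if A v w then (g v - g w) * h w else 0 := by
    unfold EE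
    rw [← Finset.sum_sub_distrib]
    refine Finset.sum_congr rfl fun v _ => ?_
    rw [← Finset.sum_sub_distrib]
    refine Finset.sum_congr rfl fun w _ => ?_
    split_ifs <;> ring
  rw [h1, h3]
  linarith

theorem deg_sum {D : ℕ} (hdeg : ∀ v, {w | A v w}.ncard ≤ D) (g : V → ℝ) :
    ∑ v, ∑ w, (if A v w then g v ^ 2 else 0) ≤ D * ∑ v, g v ^ 2 := by
  rw [Finset.mul_sum]
  refine Finset.sum_le_sum fun v _ => ?_
  rw [← Finset.sum_filter, Finset.sum_const, nsmul_eq_mul]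
  refine mul_le_mul_of_nonneg_right ?_ (sq_nonneg _)
  have h1 : {w | A v w}.ncard = (Finset.univ.filter (fun w => A v w)).card := by
    rw [← Set.ncard_coe_finset]
    congr 1
    ext w
    simp
  rw [← h1]
  exact_mod_cast hdeg v

theorem EE_le (hA : ∀ v w, A v w → A w v) {D : ℕ} (hdeg : ∀ v, {w | A v w}.ncard ≤ D)
    (g : V → ℝ) : EE A g g ≤ 4 * D * ∑ v, g v ^ 2 := by
  have h1 := deg_sum hdeg g
  have h2 : ∑ v, ∑ w, (if A v w then g w ^ 2 else 0) = ∑ v, ∑ w, (if A v w then g v ^ 2 else 0) := by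
    rw [Finset.sum_comm]
    refine Finset.sum_congr rfl fun v _ => Finset.sum_congr rfl fun w _ => ?_
    by_cases h : A v w
    · rw [if_pos h, if_pos (hA v w h)]
    · rw [if_neg h, if_neg (fun h' => h (hA w v h'))]
  have h3 : EE A g g ≤ ∑ v, ∑ w, (2 * (if A v w then g v ^ 2 else 0) +
      2 * (if A v w then g w ^ 2 else 0)) := by
    unfold EE
    refine Finset.sum_le_sum fun v _ => Finset.sum_le_sum fun w _ => ?_
    split_ifs
    · nlinarith [sq_nonneg (g v + g w)]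
    · simp
  have h4 : ∑ v, ∑ w, (2 * (if A v w then g v ^ 2 else 0) +
      2 * (if A v w then g w ^ 2 else 0)) =
      2 * ∑ v, ∑ w, (if A v w then g v ^ 2 else 0) +
      2 * ∑ v, ∑ w, (if A v w then g w ^ 2 else 0) := by
    rw [Finset.mul_sum, Finset.mul_sum, ← Finset.sum_add_distrib]
    refine Finset.sum_congr rfl fun v _ => ?_
    rw [Finset.mul_sum, Finset.mul_sum, ← Finset.sum_add_distrib]
  rw [h4, h2] at h3
  linarith

theorem EE_add (g h : V → ℝ) (t : ℝ) : EE A (fun v => g v + t * h v) (fun v => g v + t * h v) =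
    EE A g g + 2 * t * EE A g h + t ^ 2 * EE A h h := by
  unfold EE
  rw [Finset.mul_sum, Finset.mul_sum, ← Finset.sum_add_distrib, ← Finset.sum_add_distrib]
  refine Finset.sum_congr rfl fun v _ => ?_
  rw [Finset.mul_sum, Finset.mul_sum, ← Finset.sum_add_distrib, ← Finset.sum_add_distrib]
  refine Finset.sum_congr rfl fun w _ => ?_
  split_ifs <;> ring

/-- the form of the averaging operator -/
def BB (A : V → V → Prop) (L : ℝ) (g h : V → ℝ) : ℝ := ∑ v, g v * h v - EE A g h / (2 * L)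

theorem BB_nonneg (hA : ∀ v w, A v w → A w v) {D : ℕ} (hdeg : ∀ v, {w | A v w}.ncard ≤ D)
    (g : V → ℝ) : 0 ≤ BB A (2 * ((D : ℝ) + 1)) g g := by
  have h1 := EE_le hA hdeg g
  unfold BB
  have h2 : 0 ≤ ∑ v, g v ^ 2 := Finset.sum_nonneg fun v _ => sq_nonneg _
  have h3 : ∑ v, g v * g v = ∑ v, g v ^ 2 := Finset.sum_congr rfl fun v _ => by ring
  rw [h3, sub_nonneg, div_le_iff₀ (by positivity)]
  nlinarith

theorem BB_cs (hA : ∀ v w, A v w → A w v) {D : ℕ} (hdeg : ∀ v, {w | A v w}.ncard ≤ D)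
    (g h : V → ℝ) : BB A (2 * ((D : ℝ) + 1)) g h ^ 2 ≤
      BB A (2 * ((D : ℝ) + 1)) g g * BB A (2 * ((D : ℝ) + 1)) h h := by
  have h1 : ∀ t : ℝ, 0 ≤ BB A (2 * ((D : ℝ) + 1)) h h * (t * t) +
      (2 * BB A (2 * ((D : ℝ) + 1)) g h) * t + BB A (2 * ((D : ℝ) + 1)) g g := by
    intro t
    have h2 := BB_nonneg hA hdeg (fun v => g v + t * h v)
    have h3 : BB A (2 * ((D : ℝ) + 1)) (fun v => g v + t * h v) (fun v => g v + t * h v) =
        BB A (2 * ((D : ℝ) + 1)) h h * (t * t) +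
      (2 * BB A (2 * ((D : ℝ) + 1)) g h) * t + BB A (2 * ((D : ℝ) + 1)) g g := by
      unfold BB
      rw [EE_add]
      have h4 : ∑ v, (g v + t * h v) * (g v + t * h v) =
          ∑ v, g v * g v + 2 * t * ∑ v, g v * h v + t ^ 2 * ∑ v, h v * h v := by
        rw [Finset.mul_sum, Finset.mul_sum, ← Finset.sum_add_distrib, ← Finset.sum_add_distrib]
        exact Finset.sum_congr rfl fun v _ => by ring
      rw [h4]
      ring
    rw [← h3]
    exact h2
  have h5 := discrim_le_zero h1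
  unfold discrim at h5
  nlinarith

/-- the averaging operator on functions of sum zero -/
theorem real_zero (hA : ∀ v w, A v w → A w v) {D : ℕ} {c : ℝ}
    (hdeg : ∀ v, {w | A v w}.ncard ≤ D)
    (hgap : ∀ f : V → ℝ, ∑ v, f v = 0 →
      c * ∑ v, f v ^ 2 ≤ ∑ v, ∑ w, if A v w then (f v - f w) ^ 2 else 0)
    (g : V → ℝ) (hg : ∑ v, g v = 0) :
    ∑ v, (g v - (2 * ((D : ℝ) + 1))⁻¹ * Lp A g v) ^ 2 ≤
      (1 - c / (4 * (D + 1))) ^ 2 * ∑ v, g v ^ 2 := by
  have hL : (0 : ℝ) < 2 * ((D : ℝ) + 1) := by positivity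
  -- the upper bound
  have hup : ∀ f : V → ℝ, ∑ v, f v = 0 → BB A (2 * ((D : ℝ) + 1)) f f ≤
      (1 - c / (4 * (D + 1))) * ∑ v, f v ^ 2 := by
    intro f hf
    have h1 := hgap f hf
    have h2 : ∑ v, f v * f v = ∑ v, f v ^ 2 := Finset.sum_congr rfl fun v _ => by ring
    have h3 : EE A f f = ∑ v, ∑ w, if A v w then (f v - f w) ^ 2 else 0 := by
      unfold EE
      exact Finset.sum_congr rfl fun v _ => Finset.sum_congr rfl fun w _ => by
        split_ifs
        · ring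
        · rfl
    unfold BB
    rw [h2, h3]
    have h4 : c / (4 * ((D : ℝ) + 1)) * ∑ v, f v ^ 2 ≤
        (∑ v, ∑ w, if A v w then (f v - f w) ^ 2 else 0) / (2 * (2 * ((D : ℝ) + 1))) := by
      rw [div_mul_eq_mul_div, show 2 * (2 * ((D : ℝ) + 1)) = 4 * ((D : ℝ) + 1) by ring]
      exact div_le_div_of_nonneg_right h1 (by positivity)
    linarith
  set M : V → ℝ := fun v => g v - (2 * ((D : ℝ) + 1))⁻¹ * Lp A g v with hM
  have hBM : ∀ h : V → ℝ, BB A (2 * ((D : ℝ) + 1)) g h = ∑ v, M v * h v := by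
    intro h
    unfold BB
    have h1 := lap_sum hA g h
    have h2 : ∑ v, M v * h v = ∑ v, g v * h v - (2 * ((D : ℝ) + 1))⁻¹ * ∑ v, Lp A g v * h v := by
      rw [Finset.mul_sum, ← Finset.sum_sub_distrib]
      exact Finset.sum_congr rfl fun v _ => by rw [hM]; ring
    rw [h2, h1]
    field_simp
  have hM0 : ∑ v, M v = 0 := by
    have h1 := hBM (fun _ => 1)
    have h2 : ∑ v, M v * 1 = ∑ v, M v := Finset.sum_congr rfl fun v _ => by ring
    rw [h2] at h1
    rw [← h1]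
    unfold BB EE
    simp [hg]
  have h1 := BB_cs hA hdeg g M
  rw [hBM M] at h1
  have h2 : ∑ v, M v * M v = ∑ v, M v ^ 2 := Finset.sum_congr rfl fun v _ => by ring
  rw [h2] at h1
  have h3 := hup g hg
  have h4 := hup M hM0
  have h5 := BB_nonneg hA hdeg g
  have h6 := BB_nonneg hA hdeg M
  have h7 : 0 ≤ ∑ v, M v ^ 2 := Finset.sum_nonneg fun v _ => sq_nonneg _
  have h8 : (∑ v, M v ^ 2) ^ 2 ≤ ((1 - c / (4 * (D + 1))) * ∑ v, g v ^ 2) *
      ((1 - c / (4 * (D + 1))) * ∑ v, M v ^ 2) :=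
    h1.trans (mul_le_mul h3 h4 h6 (h5.trans h3))
  rcases h7.eq_or_lt with h9 | h9
  · rw [← h9]
    have : 0 ≤ ∑ v, g v ^ 2 := Finset.sum_nonneg fun v _ => sq_nonneg _
    positivity
  · have h10 : (∑ v, M v ^ 2) * ∑ v, M v ^ 2 ≤
        ((1 - c / (4 * (D + 1))) ^ 2 * ∑ v, g v ^ 2) * ∑ v, M v ^ 2 := by
      calc (∑ v, M v ^ 2) * ∑ v, M v ^ 2 = (∑ v, M v ^ 2) ^ 2 := by ring
        _ ≤ _ := h8
        _ = _ := by ring
    exact le_of_mul_le_mul_right h10 h9

/-- the averaging operator, real functions -/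
theorem real_all [Nonempty V] (hA : ∀ v w, A v w → A w v) {D : ℕ} {c : ℝ}
    (hdeg : ∀ v, {w | A v w}.ncard ≤ D)
    (hgap : ∀ f : V → ℝ, ∑ v, f v = 0 →
      c * ∑ v, f v ^ 2 ≤ ∑ v, ∑ w, if A v w then (f v - f w) ^ 2 else 0)
    (g : V → ℝ) :
    ∑ v, (g v - (2 * ((D : ℝ) + 1))⁻¹ * Lp A g v - (Fintype.card V : ℝ)⁻¹ * ∑ w, g w) ^ 2 ≤
      (1 - c / (4 * (D + 1))) ^ 2 * ∑ v, g v ^ 2 := by
  obtain ⟨a, ha⟩ : ∃ a : ℝ, a = (Fintype.card V : ℝ)⁻¹ * ∑ w, g w := ⟨_, rfl⟩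
  have hN : (0 : ℝ) < Fintype.card V := by exact_mod_cast Fintype.card_pos
  have hNa : (Fintype.card V : ℝ) * a = ∑ w, g w := by
    rw [ha]
    field_simp
  rw [← ha]
  have h0 : ∑ v, (g v - a) = 0 := by
    rw [Finset.sum_sub_distrib, Finset.sum_const, nsmul_eq_mul, Finset.card_univ, hNa, sub_self]
  have h1 := real_zero hA hdeg hgap (fun v => g v - a) h0
  have h2 : ∀ v, Lp A (fun v => g v - a) v = Lp A g v := by
    intro v
    unfold Lp
    refine Finset.sum_congr rfl fun w _ => ?_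
    split_ifs
    · ring
    · rfl
  simp only [h2] at h1
  have h3 : ∑ v, (g v - a) ^ 2 ≤ ∑ v, g v ^ 2 := by
    have h4 : ∑ v, (g v - a) ^ 2 = ∑ v, g v ^ 2 - 2 * a * ∑ v, g v + (Fintype.card V : ℝ) * a ^ 2 := by
      have h5 : (Fintype.card V : ℝ) * a ^ 2 = ∑ _v : V, a ^ 2 := by
        rw [Finset.sum_const, nsmul_eq_mul, Finset.card_univ]
      rw [h5, Finset.mul_sum, ← Finset.sum_sub_distrib, ← Finset.sum_add_distrib]
      exact Finset.sum_congr rfl fun v _ => by ring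
    rw [h4, ← hNa]
    nlinarith [mul_nonneg hN.le (sq_nonneg a)]
  calc ∑ v, (g v - (2 * ((D : ℝ) + 1))⁻¹ * Lp A g v - a) ^ 2
      = ∑ v, (g v - a - (2 * ((D : ℝ) + 1))⁻¹ * Lp A g v) ^ 2 :=
        Finset.sum_congr rfl fun v _ => by ring
    _ ≤ (1 - c / (4 * (D + 1))) ^ 2 * ∑ v, (g v - a) ^ 2 := h1
    _ ≤ (1 - c / (4 * (D + 1))) ^ 2 * ∑ v, g v ^ 2 :=
        mul_le_mul_of_nonneg_left h3 (sq_nonneg _)

end ISlice

open ISlice in
/-- item Slice -/
theorem pr_Slice : St_Slice := by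
  intro X i f
  have : Nonempty (Fin (X.N i)) := (X.conn i).nonempty
  have hA : ∀ v w, (X.G i).Adj v w → (X.G i).Adj w v := fun v w h => h.symm
  have hre := real_all hA (X.deg i) (X.gap i) (fun v => (f v).re)
  have him := real_all hA (X.deg i) (X.gap i) (fun v => (f v).im)
  rw [Fintype.card_fin] at hre him
  have e1 : ∀ z : ℂ, ‖z‖ ^ 2 = z.re ^ 2 + z.im ^ 2 := by
    intro z
    rw [← Complex.normSq_eq_norm_sq, Complex.normSq_apply]
    ring
  have e2 : ∑ v, ‖f v‖ ^ 2 = ∑ v, (f v).re ^ 2 + ∑ v, (f v).im ^ 2 := by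
    rw [← Finset.sum_add_distrib]
    exact Finset.sum_congr rfl fun v _ => e1 _
  have hLr : ∀ z : ℂ, ((2 * (X.D + 1) : ℂ)⁻¹ * z).re = (2 * ((X.D : ℝ) + 1))⁻¹ * z.re := by
    intro z
    have : ((2 * (X.D + 1) : ℂ)⁻¹) = (((2 * ((X.D : ℝ) + 1))⁻¹ : ℝ) : ℂ) := by
      push_cast
      rfl
    rw [this, Complex.re_ofReal_mul]
  have hLi : ∀ z : ℂ, ((2 * (X.D + 1) : ℂ)⁻¹ * z).im = (2 * ((X.D : ℝ) + 1))⁻¹ * z.im := by
    intro z
    have : ((2 * (X.D + 1) : ℂ)⁻¹) = (((2 * ((X.D : ℝ) + 1))⁻¹ : ℝ) : ℂ) := by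
      push_cast
      rfl
    rw [this, Complex.im_ofReal_mul]
  have hNr : ∀ z : ℂ, ((X.N i : ℂ)⁻¹ * z).re = ((X.N i : ℝ))⁻¹ * z.re := by
    intro z
    have : ((X.N i : ℂ)⁻¹) = ((((X.N i : ℝ))⁻¹ : ℝ) : ℂ) := by
      push_cast
      rfl
    rw [this, Complex.re_ofReal_mul]
  have hNi : ∀ z : ℂ, ((X.N i : ℂ)⁻¹ * z).im = ((X.N i : ℝ))⁻¹ * z.im := by
    intro z
    have : ((X.N i : ℂ)⁻¹) = ((((X.N i : ℝ))⁻¹ : ℝ) : ℂ) := by
      push_cast
      rfl
    rw [this, Complex.im_ofReal_mul]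
  have sr : ∀ v, (∑ w, if (X.G i).Adj v w then f v - f w else 0).re =
      Lp (X.G i).Adj (fun v => (f v).re) v := by
    intro v
    unfold Lp
    rw [Complex.re_sum]
    exact Finset.sum_congr rfl fun w _ => by split_ifs <;> simp
  have si : ∀ v, (∑ w, if (X.G i).Adj v w then f v - f w else 0).im =
      Lp (X.G i).Adj (fun v => (f v).im) v := by
    intro v
    unfold Lp
    rw [Complex.im_sum]
    exact Finset.sum_congr rfl fun w _ => by split_ifs <;> simp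
  rw [e2, mul_add ((1 - X.c / (4 * ((X.D : ℝ) + 1))) ^ 2)]
  refine le_trans (le_of_eq ?_) (add_le_add hre him)
  rw [← Finset.sum_add_distrib]
  refine Finset.sum_congr rfl fun v _ => ?_
  rw [e1, Complex.sub_re, Complex.sub_re, Complex.sub_im, Complex.sub_im, hLr, hLi, hNr, hNi, sr, si,
    Complex.re_sum, Complex.im_sum]

end

end Pool.Agent.Work.MP_1ddc88_an
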