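import Pool.Agent.Work.MP_1ddc88_an.Stmts

/-!
# MP_1ddc88_an, item Start
-/

set_option autoImplicit false

open Filter Topology
open scoped ENNReal Classical

namespace Pool.Agent.Work.MP_1ddc88_an

namespace IStart

theorem aux (h1 : St_Comm) (h2 : St_CpQ) (h3 : St_Unit) (h4 : St_HM) (X : Expander) (n : ℕ)
    (x g : Mat X n) (hg : ∀ a b, g a b ∈ RoePlus X)
    (hxg : ∀ a b, IsCompactOperator ((x * g - 1) a b)) :
    ∀ᶠ i in atTop, IsUnit (hat X i x * hat X i g) := by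
  obtain ⟨δ₀, hδ₀, hU⟩ := h3 X n
  have ht : ∀ a b, Tendsto (fun i => ‖Q X i * (x * g - 1) a b‖ +
      ∑ c, ‖x a c‖ * ‖(1 - Q X i) * g c b * Q X i‖) atTop (𝓝 0) := by
    intro a b
    have h5 : Tendsto (fun i => ‖Q X i * (x * g - 1) a b‖ +
        ∑ c, ‖x a c‖ * ‖(1 - Q X i) * g c b * Q X i‖) atTop (𝓝 (0 + ∑ c, ‖x a c‖ * 0)) :=
      (h2 X _ (hxg a b)).add
        (tendsto_finsetSum _ fun c _ => (h1 X (g c b) (hg c b)).const_mul _)
    simpa using h5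
  have hev : ∀ᶠ i in atTop, ∀ a b, ‖Q X i * (x * g - 1) a b‖ +
      ∑ c, ‖x a c‖ * ‖(1 - Q X i) * g c b * Q X i‖ < δ₀ := by
    rw [Filter.eventually_all]
    intro a
    rw [Filter.eventually_all]
    intro b
    exact (ht a b).eventually (gt_mem_nhds (by positivity))
  filter_upwards [hev] with i hi
  have hQ := Q_norm_le X i
  refine hU _ fun a b => ?_
  rw [(h4 X n i x g).1 a b]
  have n1 : ‖Q X i * (x * g - 1) a b * Q X i‖ ≤ ‖Q X i * (x * g - 1) a b‖ := by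
    refine (norm_mul_le _ _).trans ?_
    calc ‖Q X i * (x * g - 1) a b‖ * ‖Q X i‖ ≤ ‖Q X i * (x * g - 1) a b‖ * 1 :=
          mul_le_mul_of_nonneg_left hQ (norm_nonneg _)
      _ = _ := mul_one _
  have n3 : ‖∑ c, Q X i * x a c * ((1 - Q X i) * g c b * Q X i)‖ ≤
      ∑ c, ‖x a c‖ * ‖(1 - Q X i) * g c b * Q X i‖ := by
    refine (norm_sum_le _ _).trans (Finset.sum_le_sum fun c _ => ?_)
    refine (norm_mul_le _ _).trans (mul_le_mul_of_nonneg_right ?_ (norm_nonneg _))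
    refine (norm_mul_le _ _).trans ?_
    calc ‖Q X i‖ * ‖x a c‖ ≤ 1 * ‖x a c‖ := mul_le_mul_of_nonneg_right hQ (norm_nonneg _)
      _ = ‖x a c‖ := one_mul _
  refine (norm_sub_le _ _).trans ?_
  linarith [hi a b]

end IStart

theorem pr_Start (h1 : St_Comm) (h2 : St_CpQ) (h3 : St_Unit) (h4 : St_HM) : St_Start := by
  intro X n x hx
  obtain ⟨hxR, g, hgR, hxg, hgx⟩ := hx
  filter_upwards [IStart.aux h1 h2 h3 h4 X n x g hgR hxg,
    IStart.aux h1 h2 h3 h4 X n g x hxR hgx] with i hi1 hi2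
  refine ⟨hat X i x, ?_, fun a b => ?_⟩
  · obtain ⟨u, hu⟩ := hi1
    obtain ⟨v, hv⟩ := hi2
    have e1 : hat X i x * (hat X i g * (↑u⁻¹ : Mat X n)) = 1 := by
      rw [← mul_assoc, ← hu, Units.mul_inv]
    have e2 : ((↑v⁻¹ : Mat X n) * hat X i g) * hat X i x = 1 := by
      rw [mul_assoc, ← hv, Units.inv_mul]
    have e3 : (↑v⁻¹ : Mat X n) * hat X i g = hat X i g * (↑u⁻¹ : Mat X n) :=
      left_inv_eq_right_inv e2 e1
    refine ⟨⟨hat X i x, hat X i g * (↑u⁻¹ : Mat X n), e1, ?_⟩, rfl⟩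
    rw [← e3]
    exact e2
  · rw [sub_self]
    exact isCompactOperator_zero

end Pool.Agent.Work.MP_1ddc88_an
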