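import Mathlib
import Pool.Agent.Work.MP_1ddc88_an.Stmts

/-!
# MP_1ddc88_an, item UB
-/

set_option autoImplicit false

open Filter Topology
open scoped ENNReal Classical

namespace Pool.Agent.Work.MP_1ddc88_an

namespace IUB

theorem ba {A : Type} [Ring A] (P S S' : A) (hP : P * P = P) (hS : S * P = P * S) :
    (1 - P + S' * P) * (1 - P + S * P) = 1 - P + S' * S * P := by
  have e1 : P * (S * P) = S * P := by rw [← mul_assoc, ← hS, mul_assoc, hP]
  have e2 : S' * P * P = S' * P := by rw [mul_assoc, hP]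
  have e3 : S' * P * (S * P) = S' * S * P := by rw [mul_assoc, e1, mul_assoc]
  have : (1 - P + S' * P) * (1 - P + S * P) =
      1 - P - P + P * P + (S * P - P * (S * P)) + (S' * P - S' * P * P) +
        S' * P * (S * P) := by noncomm_ring
  rw [this, hP, e1, e2, e3]
  abel

theorem comm {A : Type} [Ring A] (P S Q : A) (hSQ : S * Q = Q * S) (hPQ : P * Q = Q * P) :
    (1 - P + S * P) * Q = Q * (1 - P + S * P) := by
  have e1 : S * P * Q = Q * (S * P) := by
    rw [mul_assoc, hPQ, ← mul_assoc, hSQ, mul_assoc]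
  have : (1 - P + S * P) * Q = Q - P * Q + S * P * Q := by noncomm_ring
  rw [this, e1, hPQ]
  noncomm_ring

theorem vu {A : Type} [Ring A] (P S S' Q : A) (hP : P * P = P) (hS : S * P = P * S)
    (hSQ : S * Q = Q * S) (hS'Q : S' * Q = Q * S') (hPQ : P * Q = Q * P) (hQ : Q * Q = Q) :
    (Q * (1 - P + S' * P) * Q + (1 - Q)) * (Q * (1 - P + S * P) * Q + (1 - Q)) =
      1 - P * Q + S' * S * (P * Q) := by
  have hA := comm P S Q hSQ hPQ
  have hB := comm P S' Q hS'Q hPQ
  have hBA := ba P S S' hP hS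
  set A1 := 1 - P + S * P with hA1
  set B1 := 1 - P + S' * P with hB1
  have e1 : Q * A1 * Q = A1 * Q := by rw [← hA, mul_assoc, hQ]
  have e2 : Q * B1 * Q = B1 * Q := by rw [← hB, mul_assoc, hQ]
  rw [e1, e2]
  have e3 : B1 * Q * (A1 * Q) = B1 * A1 * Q := by
    rw [mul_assoc, ← mul_assoc Q, ← hA, mul_assoc A1, hQ, mul_assoc]
  have e4 : B1 * Q * (1 - Q) = 0 := by
    rw [mul_sub, mul_one, mul_assoc, hQ, sub_self]
  have e5 : (1 - Q) * (A1 * Q) = 0 := by
    rw [hA, ← mul_assoc, sub_mul, one_mul, hQ, sub_self, zero_mul]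
  have e6 : (1 - Q) * (1 - Q) = 1 - Q := by
    have : (1 - Q) * (1 - Q) = 1 - Q - Q + Q * Q := by noncomm_ring
    rw [this, hQ]
    abel
  rw [add_mul, mul_add, mul_add, e3, e4, e5, e6, hBA]
  noncomm_ring

end IUB

open IUB in
theorem pr_UB (h1 : St_PavF) (h2 : St_ShF) (h3 : St_ShP) : St_UB := by
  intro X a i hai
  obtain ⟨hP, hSP, -, -, -, hSQ, hPQ⟩ := h3 X
  have hQ := Q_idem X i
  have hu : ∀ b : ℕ → ℤ, u X b = 1 - Pav X + Sh X b * Pav X := fun b => rfl
  have hSSQ : Sh X (fun j => -a j) * Sh X a * Q X i = Q X i := by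
    apply op_ext
    rintro ξ ⟨⟨x, m⟩, k⟩
    have e1 : (Sh X (fun j => -a j) * Sh X a * Q X i) ξ ((x, m), k) =
        Sh X (fun j => -a j) (Sh X a (Q X i ξ)) ((x, m), k) := rfl
    rw [e1, (h2 X (fun j => -a j)).2]
    by_cases hx : x.1 = i
    · rw [if_pos (by rw [hx]; omega), (h2 X a).2, if_pos (by rw [hx]; omega)]
      have e9 : ((((m : ℤ) - -a x.1).toNat : ℤ) - a x.1).toNat = m := by
        rw [hx]
        omega
      rw [e9]
    · have hcm := congrArg (fun T : Op X => T ξ) (hSQ (fun j => -a j) i)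
      have h0 : Sh X (fun j => -a j) (Sh X a (Q X i ξ)) ((x, m), k) = 0 := by
        have e2 : Sh X a (Q X i ξ) = Q X i (Sh X a ξ) :=
          congrArg (fun T : Op X => T ξ) (hSQ a i)
        have e3 : Sh X (fun j => -a j) (Q X i (Sh X a ξ)) =
            Q X i (Sh X (fun j => -a j) (Sh X a ξ)) :=
          congrArg (fun T : Op X => T (Sh X a ξ)) (hSQ (fun j => -a j) i)
        rw [e2, e3, Q_apply, if_neg hx]
      rw [(h2 X (fun j => -a j)).2] at h0
      rw [h0, Q_apply, if_neg hx]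
  constructor
  · rw [hu, hu, vu (Pav X) (Sh X a) (Sh X (fun j => -a j)) (Q X i) hP (hSP a) (hSQ a i)
      (hSQ _ i) (hPQ i) hQ]
    have e : Sh X (fun j => -a j) * Sh X a * (Pav X * Q X i) = Pav X * Q X i := by
      have e1 : Sh X (fun j => -a j) * Sh X a * (Pav X * Q X i) =
          Sh X (fun j => -a j) * Sh X a * Q X i * Pav X := by
        rw [hPQ, mul_assoc (Sh X (fun j => -a j) * Sh X a)]
      rw [e1, hSSQ, hPQ]
    rw [e]
    abel
  · rw [hu, hu, vu (Pav X) (Sh X (fun j => -a j)) (Sh X a) (Q X i) hP (hSP _) (hSQ _ i)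
      (hSQ _ i) (hPQ i) hQ]
    intro hcon
    have hcon2 : Sh X a * Sh X (fun j => -a j) * (Pav X * Q X i) = Pav X * Q X i := by
      have : Sh X a * Sh X (fun j => -a j) * (Pav X * Q X i) =
          (1 - Pav X * Q X i + Sh X a * Sh X (fun j => -a j) * (Pav X * Q X i)) - 1 +
            Pav X * Q X i := by abel
      rw [this, hcon]
      abel
    have v : Fin (X.N i) := X.base i
    let p0 : Ix X := ((⟨i, v⟩, 0), 0)
    let δ : Hs X := lp.single 2 p0 (1 : ℂ)
    have hδ : ∀ p : Ix X, δ p = if p = p0 then 1 else 0 := by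
      intro p
      show (lp.single 2 p0 (1 : ℂ) : Hs X) p = _
      rw [lp.single_apply, Pi.single_apply]
    have hval := congrArg (fun T : Op X => (T δ) p0) hcon2
    have hl : (Sh X a * Sh X (fun j => -a j) * (Pav X * Q X i)) δ p0 = 0 := by
      have e1 : (Sh X a * Sh X (fun j => -a j) * (Pav X * Q X i)) δ p0 =
          Sh X a (Sh X (fun j => -a j) (Pav X (Q X i δ))) ((⟨i, v⟩, 0), 0) := rfl
      rw [e1, (h2 X a).2, if_neg]
      show ¬ (0 ≤ ((0 : ℕ) : ℤ) - a i)
      push_cast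
      omega
    have hr : (Pav X * Q X i) δ p0 = (X.N i : ℂ)⁻¹ := by
      have e1 : (Pav X * Q X i) δ p0 = Pav X (Q X i δ) p0 := rfl
      rw [e1, (h1 X).2, if_pos rfl]
      show (X.N i : ℂ)⁻¹ * ∑ w : Fin (X.N i), Q X i δ ((⟨i, w⟩, 0), 0) = _
      have e2 : ∑ w : Fin (X.N i), Q X i δ ((⟨i, w⟩, 0), 0) = 1 := by
        rw [Finset.sum_eq_single v]
        · rw [Q_apply, if_pos rfl, hδ, if_pos rfl]
        · intro w _ hw
          rw [Q_apply, if_pos rfl, hδ, if_neg]
          intro he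
          apply hw
          have h5 : (⟨i, w⟩ : Pt X) = ⟨i, v⟩ := congrArg (fun p : Ix X => p.1.1) he
          exact eq_of_heq (Sigma.mk.inj h5).2
        · intro hn
          exact absurd (Finset.mem_univ v) hn
      rw [e2, mul_one]
    have hval' : (Sh X a * Sh X (fun j => -a j) * (Pav X * Q X i)) δ p0 =
        (Pav X * Q X i) δ p0 := hval
    rw [hl, hr] at hval'
    have hN : (X.N i : ℂ) ≠ 0 := by
      have : 0 < X.N i := lt_of_le_of_lt (Nat.zero_le _) v.isLt
      exact_mod_cast this.ne'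
    exact inv_ne_zero hN hval'.symm

end Pool.Agent.Work.MP_1ddc88_an
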