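import Pool.Agent.Work.MP_1ddc88_an.Stmts

/-!
# MP_1ddc88_an, item UR
-/

set_option autoImplicit false

open Filter Topology
open scoped ENNReal Classical

namespace Pool.Agent.Work.MP_1ddc88_an

noncomputable section

theorem IUR.eq (X : Expander) (a : ℕ → ℤ) : u X a - 1 = (Sh X a - 1) * Pav X := by
  have h : u X a = 1 - Pav X + Sh X a * Pav X := rfl
  rw [h, sub_mul, one_mul]
  abel

theorem pr_UR (h1 : St_ShP) (h2 : St_FPC) (h3 : St_PavRoe) : St_UR := by
  intro X a C ha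
  obtain ⟨_, _, hz, hsh, hone, _, _⟩ := h1 X
  have hR : u X a - 1 ∈ Roe X := by
    rw [IUR.eq]
    exact h3 X (max C 0) _ (h2 X C 0 (Sh X a) 1 (hsh a C ha) hone).2.2.1
  refine ⟨hR, ⟨1, ?_⟩, ?_⟩
  · rw [one_smul]
    exact hR
  · have h := IUR.eq X (fun _ => 0)
    rw [hz, sub_self, zero_mul] at h
    exact sub_eq_zero.1 h

end

end Pool.Agent.Work.MP_1ddc88_an
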