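import Pool.Agent.Work.MP_1ddc88_an.Stmts

/-!
# MP_1ddc88_an, block BC, item Win (helper30)
-/

set_option autoImplicit false

open Filter Topology
open scoped ENNReal Classical

namespace Pool.Agent.Work.MP_1ddc88_an

noncomputable section

namespace IWin

theorem proj_fin (X : Expander) (F : Finset (Z X)) :
    proj {p : Ix X | p.1 ∈ F} = ∑ z ∈ F, proj (cell X z) := by
  induction F using Finset.induction_on with
  | empty =>
    rw [Finset.sum_empty]
    have h : {p : Ix X | p.1 ∈ (∅ : Finset (Z X))} = (∅ : Set (Ix X)) := by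
      ext p
      simp
    rw [h, proj_empty]
  | insert a s ha ih =>
    rw [Finset.sum_insert ha, ← ih]
    have h : {p : Ix X | p.1 ∈ insert a s} = cell X a ∪ {p : Ix X | p.1 ∈ s} := by
      ext p
      rw [Set.mem_union, Set.mem_setOf_eq, Finset.mem_insert]
      exact Iff.rfl
    rw [h]
    apply proj_union
    rw [Set.disjoint_left]
    intro p hp hp'
    have h1 : p.1 = a := hp
    have h2 : p.1 ∈ s := hp'
    rw [h1] at h2
    exact ha h2

end IWin

theorem pr_Win : St_Win := by
  intro X T F G θ hθ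
  rw [IWin.proj_fin X F, IWin.proj_fin X G, Finset.sum_mul, Finset.sum_mul_sum]
  refine (norm_sum_le _ _).trans ?_
  calc ∑ z ∈ F, ‖∑ w ∈ G, proj (cell X z) * T * proj (cell X w)‖
      ≤ ∑ _z ∈ F, (G.card : ℝ) * θ := by
        refine Finset.sum_le_sum fun z hz => (norm_sum_le _ _).trans ?_
        calc ∑ w ∈ G, ‖proj (cell X z) * T * proj (cell X w)‖ ≤ ∑ _w ∈ G, θ :=
              Finset.sum_le_sum fun w hw => hθ z hz w hw
          _ = (G.card : ℝ) * θ := by rw [Finset.sum_const, nsmul_eq_mul]
    _ = F.card * G.card * θ := by rw [Finset.sum_const, nsmul_eq_mul, mul_assoc]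

end

end Pool.Agent.Work.MP_1ddc88_an
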