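import Pool.Agent.Work.MP_1ddc88_an.I_AF
import Pool.Agent.Work.MP_1ddc88_an.I_AN
import Pool.Agent.Work.MP_1ddc88_an.I_AP
import Pool.Agent.Work.MP_1ddc88_an.I_AlgG
import Pool.Agent.Work.MP_1ddc88_an.I_AlgK
import Pool.Agent.Work.MP_1ddc88_an.I_AlgR
import Pool.Agent.Work.MP_1ddc88_an.I_Comm
import Pool.Agent.Work.MP_1ddc88_an.I_Conv
import Pool.Agent.Work.MP_1ddc88_an.I_CpQ
import Pool.Agent.Work.MP_1ddc88_an.I_EExp
import Pool.Agent.Work.MP_1ddc88_an.I_EGr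
import Pool.Agent.Work.MP_1ddc88_an.I_EGrp
import Pool.Agent.Work.MP_1ddc88_an.I_EHeis
import Pool.Agent.Work.MP_1ddc88_an.I_EPair
import Pool.Agent.Work.MP_1ddc88_an.I_ESpec
import Pool.Agent.Work.MP_1ddc88_an.I_ETri
import Pool.Agent.Work.MP_1ddc88_an.I_End
import Pool.Agent.Work.MP_1ddc88_an.I_FPC
import Pool.Agent.Work.MP_1ddc88_an.I_Far
import Pool.Agent.Work.MP_1ddc88_an.I_Fib
import Pool.Agent.Work.MP_1ddc88_an.I_Geo
import Pool.Agent.Work.MP_1ddc88_an.I_GhC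
import Pool.Agent.Work.MP_1ddc88_an.I_HM
import Pool.Agent.Work.MP_1ddc88_an.I_LC
import Pool.Agent.Work.MP_1ddc88_an.I_Loc
import Pool.Agent.Work.MP_1ddc88_an.I_Main
import Pool.Agent.Work.MP_1ddc88_an.I_Met
import Pool.Agent.Work.MP_1ddc88_an.I_Near
import Pool.Agent.Work.MP_1ddc88_an.I_Off
import Pool.Agent.Work.MP_1ddc88_an.I_PUa
import Pool.Agent.Work.MP_1ddc88_an.I_PUo
import Pool.Agent.Work.MP_1ddc88_an.I_Path
import Pool.Agent.Work.MP_1ddc88_an.I_PavF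
import Pool.Agent.Work.MP_1ddc88_an.I_PavRoe
import Pool.Agent.Work.MP_1ddc88_an.I_Pyth
import Pool.Agent.Work.MP_1ddc88_an.I_Riesz
import Pool.Agent.Work.MP_1ddc88_an.I_ShF
import Pool.Agent.Work.MP_1ddc88_an.I_ShP
import Pool.Agent.Work.MP_1ddc88_an.I_Slice
import Pool.Agent.Work.MP_1ddc88_an.I_Start
import Pool.Agent.Work.MP_1ddc88_an.I_UB
import Pool.Agent.Work.MP_1ddc88_an.I_UG
import Pool.Agent.Work.MP_1ddc88_an.I_UR
import Pool.Agent.Work.MP_1ddc88_an.I_Unit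
import Pool.Agent.Work.MP_1ddc88_an.I_Win
import Pool.Agent.Work.MP_f3c012_al.Df.I_AV
import Pool.Agent.Work.MP_f3c012_al.Df.I_HE

/-!
# MP_1ddc88_an, block BC: all items without hypotheses
-/

set_option autoImplicit false

namespace Pool.Agent.Work.MP_1ddc88_an

theorem all_LC : St_LC := pr_LC pr_Geo
theorem all_FPC : St_FPC := pr_FPC pr_Met
theorem all_ShP : St_ShP := pr_ShP pr_Met pr_PavF pr_ShF
theorem all_AP : St_AP := pr_AP pr_Met pr_PavF pr_AF
theorem all_AN : St_AN := pr_AN pr_Slice pr_Fib pr_PavF pr_AF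
theorem all_PavRoe : St_PavRoe := pr_PavRoe all_ShP all_FPC all_LC all_AP all_AN
theorem all_UR : St_UR := pr_UR all_ShP all_FPC all_PavRoe
theorem all_UG : St_UG := pr_UG pr_PavF pr_ShF all_ShP all_FPC all_PavRoe
theorem all_UB : St_UB := pr_UB pr_PavF pr_ShF all_ShP
theorem all_Loc : St_Loc := pr_Loc pr_Off pr_Pyth pr_Win
theorem all_Far : St_Far := pr_Far all_Loc
theorem all_GhC : St_GhC := pr_GhC all_Far
theorem all_AlgR : St_AlgR := pr_AlgR pr_Met all_FPC all_LC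
theorem all_AlgG : St_AlgG := pr_AlgG pr_Met pr_Geo all_AlgR
theorem all_PUo : St_PUo := pr_PUo pr_Riesz
theorem all_Near : St_Near := pr_Near pr_Comm all_GhC pr_Unit pr_HM
theorem all_Start : St_Start := pr_Start pr_Comm pr_CpQ pr_Unit pr_HM
theorem all_Path : St_Path := pr_Path all_Near pr_PUa
theorem all_End : St_End := pr_End all_UB all_PUo
theorem all_Main : St_Main := pr_Main all_Start all_Path all_End
theorem all_Conv : St_Conv := pr_Conv pr_PavF pr_ShF all_ShP all_UR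

theorem all_EHeis : St_EHeis :=
  pr_EHeis Pool.Agent.Work.MP_f3c012_al.Df.pr_AV
    (Pool.Agent.Work.MP_f3c012_al.Df.pr_HE Pool.Agent.Work.MP_f3c012_al.Df.pr_AV) pr_EPair
theorem all_ESpec : St_ESpec :=
  pr_ESpec Pool.Agent.Work.MP_f3c012_al.Df.pr_AV all_EHeis pr_ETri
theorem all_EGr : St_EGr := pr_EGr all_ESpec pr_EGrp
theorem all_EExp : St_EExp := pr_EExp all_EGr

end Pool.Agent.Work.MP_1ddc88_an
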