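import Pool.Agent.Work.MP_1ddc88_an.Defs

/-!
# MP_1ddc88_an: basic lemmas on `proj`
-/

set_option autoImplicit false

open Filter Topology
open scoped ENNReal Classical

namespace Pool.Agent.Work.MP_1ddc88_an

noncomputable section

theorem proj_markov {ι : Type} (S : Set ι) :
    IsMarkov (fun p q : ι => if p = q ∧ p ∈ S then (1 : ℂ) else 0) := by
  constructor
  · intro p
    have hf : ∀ q, q ≠ p → ‖(if p = q ∧ p ∈ S then (1 : ℂ) else 0)‖ = 0 := by
      intro q hq
      rw [if_neg (fun h => hq h.1.symm)]; simp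
    have hs := hasSum_single (f := fun q => ‖(if p = q ∧ p ∈ S then (1 : ℂ) else 0)‖) p hf
    refine ⟨hs.summable, ?_⟩
    rw [hs.tsum_eq]
    split_ifs <;> simp
  · intro q
    have hf : ∀ p, p ≠ q → ‖(if p = q ∧ p ∈ S then (1 : ℂ) else 0)‖ = 0 := by
      intro p hp
      rw [if_neg (fun h => hp h.1)]; simp
    have hs := hasSum_single (f := fun p => ‖(if p = q ∧ p ∈ S then (1 : ℂ) else 0)‖) q hf
    refine ⟨hs.summable, ?_⟩
    rw [hs.tsum_eq]
    split_ifs <;> simp

theorem proj_apply {ι : Type} (S : Set ι) (ξ : L2 ι) (p : ι) :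
    proj S ξ p = if p ∈ S then ξ p else 0 := by
  unfold proj
  rw [kerOp_apply (proj_markov S)]
  rw [tsum_eq_single p]
  · by_cases h : p ∈ S <;> simp [h]
  · intro q hq
    rw [if_neg (fun h => hq h.1.symm)]; simp

theorem op_ext {ι : Type} {S T : L2 ι →L[ℂ] L2 ι} (h : ∀ ξ p, S ξ p = T ξ p) : S = T := by
  ext ξ p
  exact h ξ p

theorem proj_norm_le {ι : Type} (S : Set ι) : ‖proj S‖ ≤ 1 := kerOp_norm_le _

theorem proj_comp {ι : Type} (S T : Set ι) : proj S ∘L proj T = proj (S ∩ T) := by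
  apply op_ext
  intro ξ p
  rw [ContinuousLinearMap.comp_apply, proj_apply, proj_apply, proj_apply]
  by_cases h1 : p ∈ S <;> by_cases h2 : p ∈ T <;> simp [h1, h2]

theorem proj_mul {ι : Type} (S T : Set ι) : proj S * proj T = proj (S ∩ T) := proj_comp S T

theorem proj_univ {ι : Type} : proj (Set.univ : Set ι) = 1 := by
  apply op_ext
  intro ξ p
  rw [proj_apply]
  simp

theorem proj_empty {ι : Type} : proj (∅ : Set ι) = 0 := by
  apply op_ext
  intro ξ p
  rw [proj_apply]
  simp

theorem one_sub_proj {ι : Type} (S : Set ι) : 1 - proj S = proj Sᶜ := by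
  apply op_ext
  intro ξ p
  have : (1 - proj S) ξ p = ξ p - proj S ξ p := by
    simp
  rw [this, proj_apply, proj_apply]
  by_cases h : p ∈ S <;> simp [h]

theorem proj_union {ι : Type} (S T : Set ι) (h : Disjoint S T) :
    proj (S ∪ T) = proj S + proj T := by
  apply op_ext
  intro ξ p
  have : (proj S + proj T) ξ p = proj S ξ p + proj T ξ p := by simp
  rw [this, proj_apply, proj_apply, proj_apply]
  by_cases h1 : p ∈ S
  · have h2 : p ∉ T := fun h2 => (Set.disjoint_left.mp h) h1 h2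
    simp [h1, h2]
  · by_cases h2 : p ∈ T <;> simp [h1, h2]

theorem proj_idem {ι : Type} (S : Set ι) : proj S * proj S = proj S := by
  rw [proj_mul, Set.inter_self]

/-- `‖proj S ξ‖² = ∑ over S`. -/
theorem proj_norm_sq {ι : Type} (S : Set ι) (ξ : L2 ι) :
    ‖proj S ξ‖ ^ 2 = ∑' p, if p ∈ S then ‖ξ p‖ ^ 2 else 0 := by
  rw [l2_norm_sq]
  congr 1
  funext p
  rw [proj_apply]
  split_ifs <;> simp

/-- A vector is fixed by `proj S` if and only if it is supported in `S`. -/
theorem proj_eq_self_iff {ι : Type} (S : Set ι) (ξ : L2 ι) :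
    proj S ξ = ξ ↔ ∀ p, ξ p ≠ 0 → p ∈ S := by
  constructor
  · intro h p hp
    by_contra hS
    apply hp
    rw [← h, proj_apply, if_neg hS]
  · intro h
    ext p
    rw [proj_apply]
    split_ifs with hS
    · rfl
    · by_contra hne
      exact hS (h p (fun h0 => hne h0.symm))

theorem Q_idem (X : Expander) (i : ℕ) : Q X i * Q X i = Q X i := proj_idem _

theorem Q_apply (X : Expander) (i : ℕ) (ξ : Hs X) (p : Ix X) :
    Q X i ξ p = if p.1.1.1 = i then ξ p else 0 := by
  unfold Q
  rw [proj_apply]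
  by_cases h : p.1.1.1 = i
  · rw [if_pos h, if_pos (by exact h)]
  · rw [if_neg h, if_neg (by exact h)]

theorem Q_norm_le (X : Expander) (i : ℕ) : ‖Q X i‖ ≤ 1 := proj_norm_le _

end

end Pool.Agent.Work.MP_1ddc88_an
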