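import Mathlib

/-!
# MP_1ddc88_an: expanders and the space `Z = X × ℕ`
-/

set_option autoImplicit false

open Filter Topology
open scoped Classical

namespace Pool.Agent.Work.MP_1ddc88_an

noncomputable section

/-- An expander: finite connected graphs `G i` on `Fin (N i)`, all degrees at most `D`, `N i → ∞`,
with one Poincaré constant `c > 0`:
`c ∑_v f(v)² ≤ ∑_(v adjacent to w) (f v - f w)²` for all `f` of sum zero. -/
structure Expander where
  N : ℕ → ℕ
  G : (i : ℕ) → SimpleGraph (Fin (N i))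
  D : ℕ
  c : ℝ
  conn : ∀ i, (G i).Connected
  deg : ∀ i v, {w | (G i).Adj v w}.ncard ≤ D
  big : Tendsto N atTop atTop
  c_pos : 0 < c
  gap : ∀ (i : ℕ) (f : Fin (N i) → ℝ), ∑ v, f v = 0 →
    c * ∑ v, f v ^ 2 ≤ ∑ v, ∑ w, if (G i).Adj v w then (f v - f w) ^ 2 else 0

variable (X : Expander)

/-- A base point of the `i`-th graph. -/
def Expander.base (i : ℕ) : Fin (X.N i) := (X.conn i).nonempty.some

/-- The vertices of all the graphs. -/
abbrev Pt := (i : ℕ) × Fin (X.N i)

/-- The coarse disjoint union metric: the graph metric on each `G i`, and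
`d(x, y) = i + j + 1 + |x| + |y|` for `x ∈ G i`, `y ∈ G j`, `i ≠ j`, where `|x|` is the distance
to the base point. -/
def dX (p q : Pt X) : ℕ :=
  if h : p.1 = q.1 then (X.G q.1).dist (h ▸ p.2) q.2
  else p.1 + q.1 + 1 + (X.G p.1).dist p.2 (X.base p.1) + (X.G q.1).dist q.2 (X.base q.1)

/-- The space `Z = X × ℕ`. -/
abbrev Z := Pt X × ℕ

/-- The metric of `Z`: the sum metric of the product. -/
def dZ (z w : Z X) : ℕ := dX X z.1 w.1 + ((z.2 - w.2) + (w.2 - z.2))

end

end Pool.Agent.Work.MP_1ddc88_an
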