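import Pool.Agent.Work.MP_1ddc88_an.Ker
import Pool.Agent.Work.MP_1ddc88_an.Exp

/-!
# MP_1ddc88_an: definitions

Roe algebra of `Z = X × ℕ`, ghost operators, the operators `u a`.
-/

set_option autoImplicit false

open Filter Topology
open scoped ENNReal Classical

namespace Pool.Agent.Work.MP_1ddc88_an

noncomputable section

variable (X : Expander)

/-- `Z × ℕ`: the index set of the basis of `ℓ²(Z) ⊗ ℓ²(ℕ)`. -/
abbrev Ix := Z X × ℕ

/-- The Hilbert space `ℓ²(Z) ⊗ ℓ²(ℕ) = ℓ²(Z × ℕ)`. -/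
abbrev Hs := L2 (Ix X)

/-- Bounded operators on `ℓ²(Z) ⊗ ℓ²(ℕ)`. -/
abbrev Op := Hs X →L[ℂ] Hs X

/-- The projection of `ℓ²(ι)` onto the vectors supported in `S`. -/
def proj {ι : Type} (S : Set ι) : L2 ι →L[ℂ] L2 ι :=
  kerOp (fun p q => if p = q ∧ p ∈ S then 1 else 0)

/-- `δ_z ⊗ ℓ²(ℕ)`. -/
def cell (z : Z X) : Set (Ix X) := {p | p.1 = z}

/-- Propagation at most `R`: the support of `T ξ` is in the `R`-neighbourhood of that of `ξ`. -/
def FinProp (R : ℕ) (T : Op X) : Prop :=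
  ∀ (ξ : Hs X) (p : Ix X), T ξ p ≠ 0 → ∃ q, ξ q ≠ 0 ∧ dZ X p.1 q.1 ≤ R

/-- Locally compact operators. -/
def LocComp (T : Op X) : Prop :=
  ∀ z : Z X, IsCompactOperator (T ∘L proj (cell X z)) ∧ IsCompactOperator (proj (cell X z) ∘L T)

/-- The Roe algebra `C*(Z)`: norm closure of the locally compact operators of finite propagation. -/
def Roe : Set (Op X) := closure {T | (∃ R, FinProp X R T) ∧ LocComp X T}

/-- `C*(Z) + ℂ`. -/
def RoePlus : Set (Op X) := {T | ∃ c : ℂ, T - c • (1 : Op X) ∈ Roe X}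

/-- The ghost operators of `C*(Z)`: the blocks `T_(z,w)` tend to zero in norm at infinity. -/
def Ghost : Set (Op X) :=
  {T | T ∈ Roe X ∧ ∀ ε > (0 : ℝ), ∃ F : Finset (Z X), ∀ z w, z ∉ F ∨ w ∉ F →
    ‖proj (cell X z) ∘L T ∘L proj (cell X w)‖ ≤ ε}

/-- The compact operators. -/
def Cpt : Set (Op X) := {T | IsCompactOperator T}

/-- `n × n` matrices of operators. -/
abbrev Mat (n : ℕ) := Matrix (Fin n) (Fin n) (Op X)

/-- The matrix `x` over `C*(Z) + ℂ` is invertible modulo the set `I` of operators. -/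
def InvMod (I : Set (Op X)) {n : ℕ} (x : Mat X n) : Prop :=
  (∀ a b, x a b ∈ RoePlus X) ∧
  ∃ g : Mat X n, (∀ a b, g a b ∈ RoePlus X) ∧
    (∀ a b, (x * g - 1) a b ∈ I) ∧ (∀ a b, (g * x - 1) a b ∈ I)

/-- `x` and `y` are joined by a norm continuous path of matrices over `C*(Z) + ℂ` which are
invertible modulo `I`. -/
def Homot (I : Set (Op X)) {n : ℕ} (x y : Mat X n) : Prop :=
  ∃ f : ℝ → Mat X n, ContinuousOn f (Set.Icc 0 1) ∧ f 0 = x ∧ f 1 = y ∧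
    ∀ t ∈ Set.Icc (0 : ℝ) 1, InvMod X I (f t)

/-- The projection `P ⊗ 1 ⊗ q`: `P` is the sum of the projections onto the constant functions of
the `ℓ²(G i)`, and `q` is the projection onto the first basis vector of `ℓ²(ℕ)`. -/
def Pav : Op X :=
  kerOp (fun p q => if p.1.1.1 = q.1.1.1 ∧ p.1.2 = q.1.2 ∧ p.2 = 0 ∧ q.2 = 0
    then ((X.N q.1.1.1 : ℂ))⁻¹ else 0)

/-- The shift by `a i` on `G i × ℕ`: `(Sh a ξ)(x, m, k) = ξ(x, m - a i, k)` if `m - a i ≥ 0`,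
and `0` otherwise. -/
def Sh (a : ℕ → ℤ) : Op X :=
  kerOp (fun p q => if p.1.1 = q.1.1 ∧ (p.1.2 : ℤ) = q.1.2 + a q.1.1.1 ∧ p.2 = q.2
    then 1 else 0)

/-- `u a = 1 - P ⊗ 1 ⊗ q + (Sh a)(P ⊗ 1 ⊗ q)`. -/
def u (a : ℕ → ℤ) : Op X := 1 - Pav X + Sh X a ∘L Pav X

/-- The matrix `diag(T, 1, ..., 1)` of size `n + 1`. -/
def stab (n : ℕ) (T : Op X) : Mat X (n + 1) :=
  Matrix.diagonal (fun i => if i = 0 then T else 1)

/-- The projection onto the block `G i × ℕ`. -/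
def Q (i : ℕ) : Op X := proj {p | p.1.1.1 = i}

end

end Pool.Agent.Work.MP_1ddc88_an
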