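import Pool.Agent.Work.MP_1ddc88_an.SDefs
import Pool.Agent.Work.MP_1ddc88_an.Stmts

/-!
# MP_1ddc88_an: the definitions of `SDefs.lean` and those of `Defs.lean` agree
-/

set_option autoImplicit false

open Filter Topology
open scoped ENNReal Classical

namespace Pool.Agent.Work.MP_1ddc88_an

noncomputable section

theorem isMat_kerOp {ι : Type} {K : ι → ι → ℂ} (h : IsMarkov K) : S.IsMat K (kerOp K) :=
  fun ξ p => kerOp_apply h ξ p

theorem isMat_matOp {ι : Type} {K : ι → ι → ℂ} (h : IsMarkov K) : S.IsMat K (S.matOp K) := by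
  have hex : ∃ T, S.IsMat K T := ⟨_, isMat_kerOp h⟩
  unfold S.matOp
  rw [dif_pos hex]
  exact hex.choose_spec

theorem matOp_eq {ι : Type} {K : ι → ι → ℂ} (h : IsMarkov K) :
    (S.matOp K : L2 ι →L[ℂ] L2 ι) = kerOp K := by
  apply op_ext
  intro ξ p
  exact (isMat_matOp h ξ p).trans (kerOp_apply h ξ p).symm

theorem sproj_eq {ι : Type} (A : Set ι) : (S.proj A : L2 ι →L[ℂ] L2 ι) = proj A :=
  matOp_eq (proj_markov A)

variable (X : Expander)

theorem spz_eq (z : Z X) : (S.pz z : Op X) = proj (cell X z) := sproj_eq _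

theorem sLocComp_iff (T : Op X) : S.LocComp (Y := Z X) T ↔ LocComp X T := by
  constructor
  · intro h z
    have h' := h z
    have e := spz_eq X z
    exact ⟨by rw [← e]; exact h'.1, by rw [← e]; exact h'.2⟩
  · intro h z
    have h' := h z
    rw [← spz_eq X z] at h'
    exact h'

theorem sRoe_eq' (d : Z X → Z X → ℕ) :
    (S.Roe d : Set (Op X)) = closure {T : Op X | (∃ R, S.FinProp d R T) ∧ LocComp X T} := by
  show closure {T : Op X | (∃ R, S.FinProp d R T) ∧ S.LocComp (Y := Z X) T} = _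
  congr 1
  ext T
  exact and_congr Iff.rfl (sLocComp_iff X T)

theorem sRoe_eq : (S.Roe (dZ X) : Set (Op X)) = Roe X := sRoe_eq' X (dZ X)

theorem sRoePlus_eq : (S.RoePlus (dZ X) : Set (Op X)) = RoePlus X := by
  unfold RoePlus
  rw [← sRoe_eq X]
  rfl

theorem sGhost_eq' (d : Z X → Z X → ℕ) :
    (S.Ghost d : Set (Op X)) = {T : Op X | T ∈ (S.Roe d : Set (Op X)) ∧ ∀ ε > (0 : ℝ),
      ∃ F : Finset (Z X), ∀ z w, z ∉ F ∨ w ∉ F →
        ‖proj (cell X z) ∘L T ∘L proj (cell X w)‖ ≤ ε} := by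
  have e : ∀ z : Z X, proj (cell X z) = (S.pz z : Op X) := fun z => (spz_eq X z).symm
  ext T
  simp only [e]
  rfl

theorem sGhost_eq : (S.Ghost (dZ X) : Set (Op X)) = Ghost X := by
  rw [sGhost_eq', sRoe_eq]
  rfl

theorem sInvMod_iff (I : Set (Op X)) {n : ℕ} (x : Mat X n) :
    S.InvMod (dZ X) I x ↔ InvMod X I x := by
  show ((∀ a b, x a b ∈ (S.RoePlus (dZ X) : Set (Op X))) ∧
    ∃ g : Mat X n, (∀ a b, g a b ∈ (S.RoePlus (dZ X) : Set (Op X))) ∧
      (∀ a b, (x * g - 1) a b ∈ I) ∧ (∀ a b, (g * x - 1) a b ∈ I)) ↔ InvMod X I x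
  rw [sRoePlus_eq]
  rfl

theorem sHomot_iff (I : Set (Op X)) {n : ℕ} (x y : Mat X n) :
    S.Homot (dZ X) I x y ↔ Homot X I x y := by
  constructor
  · rintro ⟨f, h1, h2, h3, h4⟩
    exact ⟨f, h1, h2, h3, fun t ht => (sInvMod_iff X I (f t)).mp (h4 t ht)⟩
  · rintro ⟨f, h1, h2, h3, h4⟩
    exact ⟨f, h1, h2, h3, fun t ht => (sInvMod_iff X I (f t)).mpr (h4 t ht)⟩

theorem sstab_eq (n : ℕ) (T : Op X) : (S.stab (Y := Z X) n T : Mat X (n + 1)) = stab X n T := rfl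

theorem su_eq (h1 : St_PavF) (h2 : St_ShF) (a : ℕ → ℤ) : (S.u X a : Op X) = u X a := by
  have e1 : (S.matOp (S.kP X) : Op X) = Pav X := matOp_eq (h1 X).1
  have e2 : (S.matOp (S.kS X a) : Op X) = Sh X a := matOp_eq (h2 X a).1
  unfold u
  rw [← e1, ← e2]
  rfl

end

end Pool.Agent.Work.MP_1ddc88_an
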