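import Pool.Agent.Work.MP_1ddc88_an.AllA
import Pool.Agent.Work.MP_1ddc88_an.Tr

/-!
# MP_1ddc88_an: the facts of block BC for the definitions of `SDefs.lean`
-/

set_option autoImplicit false

open Filter Topology
open scoped ENNReal Classical

namespace Pool.Agent.Work.MP_1ddc88_an

noncomputable section

variable (X : Expander)

theorem fin_bddGeo : S.BddGeo (dZ X) := ⟨pr_Met X, pr_Geo X⟩

theorem fin_ideals : S.Ideals (dZ X) := by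
  refine ⟨?_, ?_, ?_⟩
  · show ∀ S₁ T : Op X, S₁ ∈ (S.Roe (dZ X) : Set (Op X)) → T ∈ (S.Roe (dZ X) : Set (Op X)) →
      S₁ + T ∈ (S.Roe (dZ X) : Set (Op X)) ∧ S₁ * T ∈ (S.Roe (dZ X) : Set (Op X)) ∧
      ∀ c : ℂ, c • S₁ ∈ (S.Roe (dZ X) : Set (Op X))
    rw [sRoe_eq]
    intro S₁ T h1 h2
    exact ⟨(all_AlgR X S₁ T h1 h2).1, (all_AlgR X S₁ T h1 h2).2.1, (all_AlgR X S₁ T h1 h2).2.2.1⟩
  · show ∀ S₁ T T' : Op X, S₁ ∈ (S.RoePlus (dZ X) : Set (Op X)) →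
      T ∈ (S.Ghost (dZ X) : Set (Op X)) → T' ∈ (S.Ghost (dZ X) : Set (Op X)) →
      T + T' ∈ (S.Ghost (dZ X) : Set (Op X)) ∧ S₁ * T ∈ (S.Ghost (dZ X) : Set (Op X)) ∧
      T * S₁ ∈ (S.Ghost (dZ X) : Set (Op X))
    rw [sRoePlus_eq, sGhost_eq]
    exact all_AlgG X
  · show (Cpt X : Set (Op X)) ⊆ (S.Ghost (dZ X) : Set (Op X))
    rw [sGhost_eq]
    exact pr_AlgK X

theorem fin_u (a b : ℕ → ℤ) (C : ℕ) (ha : ∀ i, |a i| ≤ (C : ℤ)) (hb : ∀ i, |b i| ≤ (C : ℤ)) :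
    S.u X a ∈ S.RoePlus (dZ X) ∧
    S.u X a * S.u X b - S.u X (fun i => a i + b i) ∈ S.Ghost (dZ X) := by
  constructor
  · show (S.u X a : Op X) ∈ (S.RoePlus (dZ X) : Set (Op X))
    rw [su_eq X pr_PavF pr_ShF, sRoePlus_eq]
    exact (all_UR X a C ha).2.1
  · show (S.u X a : Op X) * (S.u X b : Op X) - (S.u X (fun i => a i + b i) : Op X) ∈
      (S.Ghost (dZ X) : Set (Op X))
    rw [su_eq X pr_PavF pr_ShF, su_eq X pr_PavF pr_ShF, su_eq X pr_PavF pr_ShF, sGhost_eq]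
    exact all_UG X a b C ha hb

theorem fin_u0 : S.u X (fun _ => 0) = 1 := by
  show (S.u X (fun _ => 0) : Op X) = 1
  rw [su_eq X pr_PavF pr_ShF]
  exact (all_UR X (fun _ => 0) 0 (fun i => by simp)).2.2

theorem fin_not (a : ℕ → ℤ) (hne : ¬ ∀ᶠ i in atTop, a i = 0) :
    ¬ ∃ (n : ℕ) (x : S.Mat (Z X) (n + 1)), S.InvMod (dZ X) (S.Cpt (Z X)) x ∧
      S.Homot (dZ X) (S.Ghost (dZ X)) x (S.stab n (S.u X a)) := by
  rintro ⟨n, x, h1, h2⟩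
  apply all_Main X a (by simpa [Filter.Frequently, Filter.not_eventually] using hne)
  refine ⟨n, x, (sInvMod_iff X (Cpt X) x).mp h1, ?_⟩
  have h3 := (sHomot_iff X (S.Ghost (dZ X)) x (S.stab n (S.u X a))).mp h2
  have e : (S.stab (Y := Z X) n (S.u X a) : Mat X (n + 1)) = stab X n (u X a) := by
    rw [← su_eq X pr_PavF pr_ShF]
    rfl
  have h4 : Homot X (S.Ghost (dZ X) : Set (Op X)) x (stab X n (u X a)) := by
    rw [← e]
    exact h3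
  rw [sGhost_eq] at h4
  exact h4

theorem fin_yes (a : ℕ → ℤ) (C : ℕ) (ha : ∀ i, |a i| ≤ (C : ℤ)) (h : ∀ᶠ i in atTop, a i = 0) :
    ∃ (n : ℕ) (x : S.Mat (Z X) (n + 1)), S.InvMod (dZ X) (S.Cpt (Z X)) x ∧
      S.Homot (dZ X) (S.Ghost (dZ X)) x (S.stab n (S.u X a)) := by
  have hI := all_Conv X a C ha h
  have e : (S.stab (Y := Z X) 0 (S.u X a) : Mat X (0 + 1)) = stab X 0 (u X a) := by
    rw [← su_eq X pr_PavF pr_ShF]
    rfl
  have hI' : S.InvMod (dZ X) (S.Cpt (Z X)) (S.stab 0 (S.u X a)) := by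
    refine (sInvMod_iff X (Cpt X) _).mpr ?_
    show InvMod X (Cpt X) (S.stab (Y := Z X) 0 (S.u X a) : Mat X (0 + 1))
    rw [e]
    exact hI
  refine ⟨0, S.stab 0 (S.u X a), hI', fun _ => S.stab 0 (S.u X a), continuousOn_const, rfl, rfl,
    fun t _ => ?_⟩
  obtain ⟨h1, g, hg, h2, h3⟩ := hI'
  exact ⟨h1, g, hg, fun a b => (fin_ideals X).2.2 (h2 a b), fun a b => (fin_ideals X).2.2 (h3 a b)⟩

end

end Pool.Agent.Work.MP_1ddc88_an
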