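import Pool.Agent.Work.MP_1ddc88_an.Exp

/-!
# MP_1ddc88_an: Roe algebra, ghost operators, `K_1` modulo an ideal

`Y` is a set with a distance function `d : Y → Y → ℕ`; operators act on `ℓ²(Y) ⊗ ℓ²(ℕ) = ℓ²(Y × ℕ)`.
-/

set_option autoImplicit false

open Filter Topology
open scoped ENNReal Classical

namespace Pool.Agent.Work.MP_1ddc88_an.S

noncomputable section

/-- The Hilbert space `ℓ²(ι)`. -/
def L2 (ι : Type) : Type := lp (fun _ : ι => ℂ) 2

/-- The norm of `ℓ²(ι)` (that of Mathlib's space `lp`). -/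
instance instNormL2 (ι : Type) : NormedAddCommGroup (L2 ι) :=
  (lp.normedAddCommGroup : NormedAddCommGroup (lp (fun _ : ι => ℂ) 2))

/-- `ℓ²(ι)` is a complex normed space. -/
instance instSpaceL2 (ι : Type) : NormedSpace ℂ (L2 ι) :=
  (lp.instNormedSpace : NormedSpace ℂ (lp (fun _ : ι => ℂ) 2))

/-- A vector of `ℓ²(ι)` as an element of Mathlib's space `lp`. -/
def toLp {ι : Type} (ξ : L2 ι) : lp (fun _ : ι => ℂ) 2 := ξ

/-- The coordinates of a vector. -/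
def co {ι : Type} (ξ : L2 ι) (p : ι) : ℂ := toLp ξ p

/-- The bounded operators on `ℓ²(ι)`. -/
def Bd (ι : Type) : Type := L2 ι →L[ℂ] L2 ι

/-- Bounded operators with composition and the operator norm. -/
instance instRingBd (ι : Type) : NormedRing (Bd ι) :=
  (ContinuousLinearMap.toNormedRing : NormedRing (L2 ι →L[ℂ] L2 ι))

/-- Bounded operators are a complex normed algebra. -/
instance instAlgBd (ι : Type) : NormedAlgebra ℂ (Bd ι) :=
  (ContinuousLinearMap.toNormedAlgebra : NormedAlgebra ℂ (L2 ι →L[ℂ] L2 ι))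

/-- An operator as a continuous linear map. -/
def toCLM {ι : Type} (T : Bd ι) : L2 ι →L[ℂ] L2 ι := T

/-- The value of the operator `T` at `ξ`. -/
def ap {ι : Type} (T : Bd ι) (ξ : L2 ι) : L2 ι := toCLM T ξ

/-- `T` is the operator with the matrix `K`: `(T ξ)(p) = ∑ q, K p q ξ(q)`. -/
def IsMat {ι : Type} (K : ι → ι → ℂ) (T : Bd ι) : Prop :=
  ∀ ξ p, co (ap T ξ) p = ∑' q, K p q * co ξ q

/-- The bounded operator with the matrix `K` (`0` if there is none). -/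
def matOp {ι : Type} (K : ι → ι → ℂ) : Bd ι :=
  if h : ∃ T, IsMat K T then h.choose else 0

/-- The projection of `ℓ²(ι)` onto the vectors supported in `S`. -/
def proj {ι : Type} (S : Set ι) : Bd ι :=
  matOp (fun p q => if p = q ∧ p ∈ S then 1 else 0)

variable {Y : Type}

/-- Bounded operators on `ℓ²(Y) ⊗ ℓ²(ℕ) = ℓ²(Y × ℕ)`. -/
abbrev Op (Y : Type) := Bd (Y × ℕ)

/-- The projection onto `δ_z ⊗ ℓ²(ℕ)`. -/
def pz (z : Y) : Op Y := proj {p | p.1 = z}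

/-- Propagation at most `R`: the support of `T ξ` is in the `R`-neighbourhood of that of `ξ`. -/
def FinProp (d : Y → Y → ℕ) (R : ℕ) (T : Op Y) : Prop :=
  ∀ ξ p, co (ap T ξ) p ≠ 0 → ∃ q, co ξ q ≠ 0 ∧ d p.1 q.1 ≤ R

/-- The compact operators. -/
def Cpt (Y : Type) : Set (Op Y) := {T | IsCompactOperator (ap T)}

/-- Locally compact operators. -/
def LocComp (T : Op Y) : Prop := ∀ z : Y, T * pz z ∈ Cpt Y ∧ pz z * T ∈ Cpt Y

/-- The Roe algebra `C*(Y)`: norm closure of the locally compact operators of finite propagation. -/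
def Roe (d : Y → Y → ℕ) : Set (Op Y) := closure {T | (∃ R, FinProp d R T) ∧ LocComp T}

/-- `C*(Y) + ℂ`. -/
def RoePlus (d : Y → Y → ℕ) : Set (Op Y) := {T | ∃ c : ℂ, T - c • 1 ∈ Roe d}

/-- The ghost operators of `C*(Y)`: the blocks `T_(z,w)` tend to zero in norm at infinity. -/
def Ghost (d : Y → Y → ℕ) : Set (Op Y) :=
  {T | T ∈ Roe d ∧ ∀ ε > (0 : ℝ), ∃ F : Finset Y, ∀ z w, z ∉ F ∨ w ∉ F →
    ‖pz z * T * pz w‖ ≤ ε}

/-- `n × n` matrices of operators. -/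
abbrev Mat (Y : Type) (n : ℕ) := Matrix (Fin n) (Fin n) (Op Y)

/-- The matrix `x` over `C*(Y) + ℂ` is invertible modulo the set `I` of operators. -/
def InvMod (d : Y → Y → ℕ) (I : Set (Op Y)) {n : ℕ} (x : Mat Y n) : Prop :=
  (∀ a b, x a b ∈ RoePlus d) ∧
  ∃ g : Mat Y n, (∀ a b, g a b ∈ RoePlus d) ∧
    (∀ a b, (x * g - 1) a b ∈ I) ∧ (∀ a b, (g * x - 1) a b ∈ I)

/-- `x` and `y` are joined by a norm continuous path of matrices over `C*(Y) + ℂ` which are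
invertible modulo `I`. -/
def Homot (d : Y → Y → ℕ) (I : Set (Op Y)) {n : ℕ} (x y : Mat Y n) : Prop :=
  ∃ f : ℝ → Mat Y n, ContinuousOn f (Set.Icc 0 1) ∧ f 0 = x ∧ f 1 = y ∧
    ∀ t ∈ Set.Icc (0 : ℝ) 1, InvMod d I (f t)

/-- The matrix `diag(T, 1, ..., 1)` of size `n + 1`. -/
def stab (n : ℕ) (T : Op Y) : Mat Y (n + 1) :=
  Matrix.diagonal (fun i => if i = 0 then T else 1)

/-- `d` is a metric of bounded geometry. -/
def BddGeo (d : Y → Y → ℕ) : Prop :=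
  (∀ x y z : Y, d x x = 0 ∧ (d x y = 0 → x = y) ∧ d x y = d y x ∧ d x z ≤ d x y + d y z) ∧
  ∀ R : ℕ, ∃ B : ℕ, ∀ z : Y, {w | d z w ≤ R}.Finite ∧ {w | d z w ≤ R}.ncard ≤ B

/-- `C*(Y)` is an algebra, the ghost operators are an ideal of `C*(Y) + ℂ` which contains the compact
operators. -/
def Ideals (d : Y → Y → ℕ) : Prop :=
  (∀ S T : Op Y, S ∈ Roe d → T ∈ Roe d → S + T ∈ Roe d ∧ S * T ∈ Roe d ∧ ∀ c : ℂ, c • S ∈ Roe d) ∧
  (∀ S T T' : Op Y, S ∈ RoePlus d → T ∈ Ghost d → T' ∈ Ghost d →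
    T + T' ∈ Ghost d ∧ S * T ∈ Ghost d ∧ T * S ∈ Ghost d) ∧ Cpt Y ⊆ Ghost d

/-! ## The operators on `Z = X × ℕ` -/

variable (X : Expander)

/-- The matrix of the projection `P ⊗ 1 ⊗ q`: `P` is the sum of the projections onto the constant
functions of the `ℓ²(G i)`, and `q` is the projection onto the first basis vector of `ℓ²(ℕ)`. -/
def kP (p q : Z X × ℕ) : ℂ :=
  if p.1.1.1 = q.1.1.1 ∧ p.1.2 = q.1.2 ∧ p.2 = 0 ∧ q.2 = 0 then ((X.N q.1.1.1 : ℂ))⁻¹ else 0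

/-- The matrix of the shift by `a i` on `G i × ℕ`: `(S_a ξ)(x, m, k) = ξ(x, m - a i, k)` if
`m - a i ≥ 0`, and `0` otherwise. -/
def kS (a : ℕ → ℤ) (p q : Z X × ℕ) : ℂ :=
  if p.1.1 = q.1.1 ∧ (p.1.2 : ℤ) = q.1.2 + a q.1.1.1 ∧ p.2 = q.2 then 1 else 0

/-- `u a = 1 - P ⊗ 1 ⊗ q + S_a (P ⊗ 1 ⊗ q)`. -/
def u (a : ℕ → ℤ) : Op (Z X) := 1 - matOp (kP X) + matOp (kS X a) * matOp (kP X)

end

end Pool.Agent.Work.MP_1ddc88_an.S
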