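import Pool.Agent.Work.MP_1ddc88_an.Stmts

/-!
# MP_1ddc88_an, item AF: the kernel `kA` and its operator
-/

set_option autoImplicit false

open Filter Topology
open scoped ENNReal Classical

namespace Pool.Agent.Work.MP_1ddc88_an

noncomputable section

namespace IAF

/-- the fibre of `(i, m)` -/
def em (X : Expander) (i m : ℕ) (w : Fin (X.N i)) : Ix X := ((⟨i, w⟩, m), 0)

theorem em_inj (X : Expander) (i m : ℕ) : Function.Injective (em X i m) := by
  intro v w h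
  have h1 : (⟨i, v⟩ : Pt X) = ⟨i, w⟩ := congrArg (fun q : Ix X => q.1.1) h
  exact eq_of_heq (Sigma.mk.inj_iff.1 h1).2

theorem adj_iff (X : Expander) (i : ℕ) (v w : Fin (X.N i)) :
    (∃ (i' : ℕ) (v' w' : Fin (X.N i')), (X.G i').Adj v' w' ∧ (⟨i, v⟩ : Pt X) = ⟨i', v'⟩ ∧
      (⟨i, w⟩ : Pt X) = ⟨i', w'⟩) ↔ (X.G i).Adj v w := by
  constructor
  · rintro ⟨i', v', w', h, h1, h2⟩
    obtain ⟨rfl, h1⟩ := Sigma.mk.inj_iff.1 h1
    obtain ⟨_, h2⟩ := Sigma.mk.inj_iff.1 h2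
    rw [eq_of_heq h1, eq_of_heq h2]
    exact h
  · intro h
    exact ⟨i, v, w, h, rfl, rfl⟩

/-- entries in the fibre -/
theorem kA_em (X : Expander) (i m : ℕ) (v w : Fin (X.N i)) :
    kA X (em X i m v) (em X i m w) =
      (if v = w then 1 - (2 * (X.D + 1) : ℂ)⁻¹ * ({w | (X.G i).Adj v w}.ncard : ℂ) else 0) +
      (if (X.G i).Adj v w then (2 * (X.D + 1) : ℂ)⁻¹ else 0) := by
  have h1 : em X i m v = em X i m w ↔ v = w := (em_inj X i m).eq_iff
  have h2 : (∃ (i' : ℕ) (v' w' : Fin (X.N i')), (X.G i').Adj v' w' ∧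
      (em X i m v).1.1 = ⟨i', v'⟩ ∧ (em X i m w).1.1 = ⟨i', w'⟩) ↔ (X.G i).Adj v w :=
    adj_iff X i v w
  unfold kA
  rw [if_pos (show (em X i m v).2 = 0 ∧ (em X i m w).2 = 0 ∧
    (em X i m v).1.2 = (em X i m w).1.2 from ⟨rfl, rfl, rfl⟩)]
  congr 1
  · by_cases h : v = w
    · rw [if_pos h, if_pos (h1.2 h)]
      rfl
    · rw [if_neg h, if_neg (fun h' => h (h1.1 h'))]
  · by_cases h : (X.G i).Adj v w
    · rw [if_pos h, if_pos (h2.2 h)]
    · rw [if_neg h, if_neg (fun h' => h (h2.1 h'))]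

/-- the row of a point outside of level 0 vanishes -/
theorem kA_ne (X : Expander) (p q : Ix X) (h : p.2 ≠ 0) : kA X p q = 0 := by
  unfold kA
  rw [if_neg (fun h' => h h'.1)]

/-- outside the fibre the row vanishes -/
theorem kA_out (X : Expander) (i m : ℕ) (v : Fin (X.N i)) (q : Ix X)
    (h : q ∉ Set.range (em X i m)) : kA X (em X i m v) q = 0 := by
  obtain ⟨⟨⟨j, w⟩, m'⟩, k'⟩ := q
  by_contra hne
  apply h
  unfold kA at hne
  split_ifs at hne with h0 h1 h2 h2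
  · exact ⟨v, h1⟩
  · exact ⟨v, h1⟩
  · obtain ⟨i', v', w', -, e1, e2⟩ := h2
    have e1' : (⟨i, v⟩ : Pt X) = ⟨i', v'⟩ := e1
    have e2' : (⟨j, w⟩ : Pt X) = ⟨i', w'⟩ := e2
    obtain ⟨rfl, -⟩ := Sigma.mk.inj_iff.1 e1'
    obtain ⟨rfl, -⟩ := Sigma.mk.inj_iff.1 e2'
    obtain ⟨-, hk, hm⟩ := h0
    have hk' : k' = 0 := hk
    have hm' : m = m' := hm
    subst hk'
    subst hm'
    exact ⟨w, rfl⟩
  · exact absurd (add_zero (0 : ℂ)) hne
  · exact absurd rfl hne

theorem kA_symm (X : Expander) (p q : Ix X) : kA X p q = kA X q p := by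
  unfold kA
  by_cases h : p.2 = 0 ∧ q.2 = 0 ∧ p.1.2 = q.1.2
  · have hh : q.2 = 0 ∧ p.2 = 0 ∧ q.1.2 = p.1.2 := ⟨h.2.1, h.1, h.2.2.symm⟩
    rw [if_pos h, if_pos hh]
    congr 1
    · by_cases h1 : p = q
      · rw [if_pos h1, if_pos h1.symm, h1]
      · rw [if_neg h1, if_neg (fun h' => h1 h'.symm)]
    · have h2 : (∃ (i : ℕ) (v w : Fin (X.N i)), (X.G i).Adj v w ∧ p.1.1 = ⟨i, v⟩ ∧
          q.1.1 = ⟨i, w⟩) ↔ ∃ (i : ℕ) (v w : Fin (X.N i)), (X.G i).Adj v w ∧ q.1.1 = ⟨i, v⟩ ∧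
          p.1.1 = ⟨i, w⟩ := by
        constructor
        · rintro ⟨i, v, w, a, b, c⟩
          exact ⟨i, w, v, a.symm, c, b⟩
        · rintro ⟨i, v, w, a, b, c⟩
          exact ⟨i, w, v, a.symm, c, b⟩
      by_cases h3 : (∃ (i : ℕ) (v w : Fin (X.N i)), (X.G i).Adj v w ∧ p.1.1 = ⟨i, v⟩ ∧
          q.1.1 = ⟨i, w⟩)
      · rw [if_pos h3, if_pos (h2.1 h3)]
      · rw [if_neg h3, if_neg (fun h' => h3 (h2.2 h'))]
  · rw [if_neg h, if_neg (fun h' => h ⟨h'.2.1, h'.1, h'.2.2.symm⟩)]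

theorem row_hasSum (X : Expander) (i m : ℕ) {E : Type} [AddCommMonoid E] [TopologicalSpace E]
    (f : Ix X → E) (hf : ∀ q, q ∉ Set.range (em X i m) → f q = 0) :
    HasSum f (∑ w, f (em X i m w)) := by
  have h := hasSum_fintype (fun w => f (em X i m w))
  exact ((em_inj X i m).hasSum_iff hf).1 h

theorem card_eq (X : Expander) (i : ℕ) (v : Fin (X.N i)) :
    {w | (X.G i).Adj v w}.ncard = (Finset.univ.filter fun w => (X.G i).Adj v w).card := by
  rw [← Set.ncard_coe_finset]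
  congr 1
  ext w
  simp

theorem row_le (X : Expander) (i m : ℕ) (v : Fin (X.N i)) :
    ∑ w, ‖kA X (em X i m v) (em X i m w)‖ ≤ 1 := by
  set n : ℕ := {w | (X.G i).Adj v w}.ncard with hn
  have hnD : (n : ℝ) ≤ X.D := by exact_mod_cast X.deg i v
  have hD : (0 : ℝ) ≤ X.D := Nat.cast_nonneg _
  set c : ℝ := (2 * ((X.D : ℝ) + 1))⁻¹ with hc
  have hc0 : 0 < c := by positivity
  have hcC : (2 * (X.D + 1) : ℂ)⁻¹ = (c : ℂ) := by
    rw [hc]
    push_cast
    rfl
  have hcn : c * n ≤ 1 := by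
    rw [hc, inv_mul_le_iff₀ (by positivity)]
    linarith
  calc ∑ w, ‖kA X (em X i m v) (em X i m w)‖
      ≤ ∑ w, ((if v = w then 1 - c * n else 0) + (if (X.G i).Adj v w then c else 0)) := by
        refine Finset.sum_le_sum fun w _ => ?_
        rw [kA_em, hcC, ← hn]
        refine (norm_add_le _ _).trans (add_le_add ?_ ?_)
        · split_ifs
          · rw [show (1 : ℂ) - (c : ℂ) * (n : ℂ) = ((1 - c * n : ℝ) : ℂ) by push_cast; ring,
              Complex.norm_real, Real.norm_eq_abs, abs_of_nonneg (by linarith)]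
          · rw [norm_zero]
        · split_ifs
          · rw [Complex.norm_real, Real.norm_eq_abs, abs_of_pos hc0]
          · rw [norm_zero]
    _ = (1 - c * n) + n * c := by
        rw [Finset.sum_add_distrib, Finset.sum_ite_eq, if_pos (Finset.mem_univ _),
          ← Finset.sum_filter, Finset.sum_const, nsmul_eq_mul, hn, card_eq]
    _ = 1 := by ring
    _ ≤ 1 := le_rfl

theorem row (X : Expander) (p : Ix X) :
    Summable (fun q => ‖kA X p q‖) ∧ ∑' q, ‖kA X p q‖ ≤ 1 := by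
  obtain ⟨⟨⟨i, v⟩, m⟩, k⟩ := p
  rcases Nat.eq_zero_or_pos k with rfl | hk
  · have h := row_hasSum X i m (fun q => ‖kA X (em X i m v) q‖)
      (fun q hq => by simp only [kA_out X i m v q hq, norm_zero])
    refine ⟨h.summable, ?_⟩
    have h2 : ∑' q, ‖kA X (em X i m v) q‖ ≤ 1 := by
      rw [h.tsum_eq]
      exact row_le X i m v
    exact h2
  · have h0 : ∀ q, ‖kA X ((⟨i, v⟩, m), k) q‖ = 0 := fun q => by
      rw [kA_ne X _ q (show k ≠ 0 by omega), norm_zero]
    simp only [h0]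
    refine ⟨summable_zero, ?_⟩
    rw [tsum_zero]
    exact zero_le_one

theorem markov (X : Expander) : IsMarkov (kA X) := by
  refine ⟨row X, fun q => ?_⟩
  have h := row X q
  simp only [kA_symm X q] at h
  exact h

end IAF

open IAF in
/-- item AF -/
theorem pr_AF : St_AF := by
  intro X
  refine ⟨markov X, fun ξ i v m k => ?_⟩
  rw [kerOp_apply (markov X)]
  by_cases hk : k = 0
  · subst hk
    rw [if_pos rfl]
    have h := row_hasSum X i m (fun q => kA X (em X i m v) q * ξ q)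
      (fun q hq => by simp only [kA_out X i m v q hq, zero_mul])
    have h2 : ∑' q, kA X ((⟨i, v⟩, m), 0) q * ξ q =
        ∑ w, kA X (em X i m v) (em X i m w) * ξ (em X i m w) := h.tsum_eq
    rw [h2]
    simp only [kA_em, add_mul, Finset.sum_add_distrib, ite_mul, zero_mul]
    rw [Finset.sum_ite_eq, if_pos (Finset.mem_univ _), card_eq]
    have h3 : ∑ w, (if (X.G i).Adj v w then ξ ((⟨i, v⟩, m), 0) - ξ ((⟨i, w⟩, m), 0) else 0) =
        ((Finset.univ.filter fun w => (X.G i).Adj v w).card : ℂ) * ξ (em X i m v) -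
          ∑ w, (if (X.G i).Adj v w then ξ (em X i m w) else 0) := by
      rw [← Finset.sum_filter, ← Finset.sum_filter, Finset.sum_sub_distrib, Finset.sum_const,
        nsmul_eq_mul]
      rfl
    have h4 : ∑ w, (if (X.G i).Adj v w then (2 * (X.D + 1) : ℂ)⁻¹ * ξ (em X i m w) else 0) =
        (2 * (X.D + 1) : ℂ)⁻¹ * ∑ w, (if (X.G i).Adj v w then ξ (em X i m w) else 0) := by
      rw [Finset.mul_sum]
      refine Finset.sum_congr rfl fun w _ => ?_
      split_ifs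
      · rfl
      · rw [mul_zero]
    rw [h3, h4]
    change _ = ξ (em X i m v) - _
    ring
  · rw [if_neg hk]
    have h0 : ∀ q, kA X ((⟨i, v⟩, m), k) q * ξ q = 0 := fun q => by
      rw [kA_ne X _ q hk, zero_mul]
    simp only [h0]
    exact tsum_zero

end

end Pool.Agent.Work.MP_1ddc88_an
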