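import Pool.Agent.Work.MP_1ddc88_an.StmtsE

/-!
# MP_1ddc88_an, item EGr
-/

set_option autoImplicit false

open Filter Topology
open scoped RealInnerProductSpace Classical

namespace Pool.Agent.Work.MP_1ddc88_an

namespace IEGr

/-- The Cayley graph of `x`, transported to `Fin (card G)`. -/
def cay {G : Type} [Group G] {N : ℕ} (e : G ≃ Fin N) (x : Fin 3 → G) (hx : ∀ i, x i ^ 5 = 1) :
    SimpleGraph (Fin N) where
  Adj v w := v ≠ w ∧ ∃ i : Fin 3, ∃ k : Fin 5, e.symm w = e.symm v * x i ^ (k : ℕ)
  symm := by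
    constructor
    rintro v w ⟨hne, i, k, hk⟩
    refine ⟨hne.symm, i, ?_⟩
    have hk0 : (k : ℕ) ≠ 0 := by
      intro h0
      rw [h0, pow_zero, mul_one] at hk
      exact hne (e.symm.injective hk).symm
    have hk5 : (k : ℕ) < 5 := k.isLt
    refine ⟨⟨5 - (k : ℕ), by omega⟩, ?_⟩
    rw [hk, mul_assoc, ← pow_add]
    have : (k : ℕ) + (5 - (k : ℕ)) = 5 := by omega
    simp only [this, hx, mul_one]
  loopless := ⟨fun v hv => hv.1 rfl⟩

end IEGr

theorem pr_EGr (h1 : St_ESpec) (h2 : St_EGrp) : St_EGr := by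
  intro M
  obtain ⟨G, _, _, x, hM, hx⟩ := h2 M
  obtain ⟨N, hN⟩ : ∃ N, N = Fintype.card G := ⟨_, rfl⟩
  obtain ⟨e⟩ : Nonempty (G ≃ Fin N) := ⟨hN ▸ Fintype.equivFin G⟩
  have key : ∀ (g : G) (i : Fin 3) (k : ℕ), k < 5 → g * x i ^ k ≠ g →
      (IEGr.cay e x hx.pow).Adj (e g) (e (g * x i ^ k)) := by
    intro g i k hk hne
    refine ⟨fun h => hne (e.injective h).symm, i, ⟨k, hk⟩, ?_⟩
    simp
  refine ⟨N, IEGr.cay e x hx.pow, by rw [hN]; exact hM, ?_, ?_, ?_⟩
  · have : Nonempty (Fin N) := ⟨e 1⟩
    refine SimpleGraph.Connected.mk ?_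
    let H : Subgroup G :=
      { carrier := {h | ∀ g, (IEGr.cay e x hx.pow).Reachable (e g) (e (g * h))}
        one_mem' := by
          intro g
          rw [mul_one]
        mul_mem' := by
          intro a b ha hb g
          have := (ha g).trans (hb (g * a))
          rwa [mul_assoc] at this
        inv_mem' := by
          intro a ha g
          have := ha (g * a⁻¹)
          rw [inv_mul_cancel_right] at this
          exact this.symm }
    have hH : Subgroup.closure (Set.range x) ≤ H := by
      rw [Subgroup.closure_le]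
      rintro _ ⟨i, rfl⟩ g
      by_cases hgi : g * x i = g
      · rw [hgi]
      · have := key g i 1 (by norm_num) (by rw [pow_one]; exact hgi)
        rw [pow_one] at this
        exact this.reachable
    rw [hx.gen] at hH
    intro v w
    have h3 : (e.symm v)⁻¹ * e.symm w ∈ H := hH (Subgroup.mem_top _)
    have h4 := h3 (e.symm v)
    rw [mul_inv_cancel_left] at h4
    simpa using h4
  · intro v
    have hsub : {w | (IEGr.cay e x hx.pow).Adj v w} ⊆
        (((Finset.univ : Finset (Fin 3 × Fin 5)).image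
          (fun p => e (e.symm v * x p.1 ^ (p.2 : ℕ))) : Finset (Fin N)) : Set (Fin N)) := by
      rintro w ⟨_, i, k, hk⟩
      simp only [Finset.coe_image, Finset.coe_univ, Set.image_univ, Set.mem_range]
      exact ⟨(i, k), by rw [← hk]; simp⟩
    calc {w | (IEGr.cay e x hx.pow).Adj v w}.ncard
        ≤ Set.ncard (((Finset.univ : Finset (Fin 3 × Fin 5)).image
          (fun p => e (e.symm v * x p.1 ^ (p.2 : ℕ))) : Finset (Fin N)) : Set (Fin N)) :=
          Set.ncard_le_ncard hsub (Finset.finite_toSet _)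
      _ = ((Finset.univ : Finset (Fin 3 × Fin 5)).image
          (fun p => e (e.symm v * x p.1 ^ (p.2 : ℕ)))).card := Set.ncard_coe_finset _
      _ ≤ (Finset.univ : Finset (Fin 3 × Fin 5)).card := Finset.card_image_le
      _ = 15 := by simp
  · intro f hf
    have e1 : ∑ g, f (e g) = 0 := by
      rw [← hf]
      exact Equiv.sum_comp e f
    have h3 := h1 G x hx (fun g => f (e g)) e1
    have e2 : ∑ g, f (e g) ^ 2 = ∑ v, f v ^ 2 := Equiv.sum_comp e (fun v => f v ^ 2)
    obtain ⟨D, hD⟩ : ∃ D : Fin N → ℝ, ∀ v, D v =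
        ∑ w, if (IEGr.cay e x hx.pow).Adj v w then (f v - f w) ^ 2 else 0 := ⟨_, fun v => rfl⟩
    have hD0 : ∀ v, 0 ≤ D v := by
      intro v
      rw [hD]
      apply Finset.sum_nonneg
      intro w _
      split_ifs
      · positivity
      · exact le_rfl
    have h4 : ∀ (i : Fin 3) (k : ℕ), k < 5 → ∀ g, (f (e g) - f (e (g * x i ^ k))) ^ 2 ≤
        D (e g) := by
      intro i k hk g
      by_cases hgi : g * x i ^ k = g
      · rw [hgi, sub_self]
        simpa using hD0 (e g)
      · have h5 := key g i k hk hgi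
        rw [hD]
        have h6 := Finset.single_le_sum (f := fun w =>
          if (IEGr.cay e x hx.pow).Adj (e g) w then (f (e g) - f w) ^ 2 else 0)
          (s := Finset.univ) (fun w _ => by
            split_ifs
            · positivity
            · exact le_rfl) (Finset.mem_univ (e (g * x i ^ k)))
        rwa [if_pos h5] at h6
    have h5 : ∑ i : Fin 3, ∑ k ∈ Finset.range 5, ∑ g, (f (e g) - f (e (g * x i ^ k))) ^ 2 ≤
        ∑ i : Fin 3, ∑ k ∈ Finset.range 5, ∑ g, D (e g) := by
      apply Finset.sum_le_sum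
      intro i _
      apply Finset.sum_le_sum
      intro k hk
      apply Finset.sum_le_sum
      intro g _
      exact h4 i k (Finset.mem_range.1 hk) g
    have h6 : ∑ g, D (e g) = ∑ v, D v := Equiv.sum_comp e D
    have h7 : ∑ v, ∑ w, (if (IEGr.cay e x hx.pow).Adj v w then (f v - f w) ^ 2 else 0) =
        ∑ v, D v := Finset.sum_congr rfl (fun v _ => (hD v).symm)
    rw [h7]
    rw [h6] at h5
    simp only [Finset.sum_const, Finset.card_univ, Finset.card_range, Fintype.card_fin,
      nsmul_eq_mul] at h5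
    rw [e2] at h3
    push_cast at h5
    have h8 := h3.trans h5
    linarith

end Pool.Agent.Work.MP_1ddc88_an
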