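import Pool.Agent.Work.MP_1ddc88_an.Stmts

/-!
# MP_1ddc88_an, block BC, item GhC: the blocks of a ghost operator are compact
-/

set_option autoImplicit false

open Filter Topology
open scoped ENNReal Classical

namespace Pool.Agent.Work.MP_1ddc88_an

noncomputable section

namespace IGhC

/-- `T * proj (cell z)` is compact for `T` in the Roe algebra. -/
theorem cell_cpt (X : Expander) (T : Op X) (hT : T ∈ Roe X) (z : Z X) :
    IsCompactOperator (T * proj (cell X z) : Op X) := by
  have hcl : IsClosed {S : Op X | IsCompactOperator (S * proj (cell X z) : Op X)} := by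
    have h1 : IsClosed {S : Op X | IsCompactOperator (S : Hs X → Hs X)} :=
      isClosed_setOfPred_isCompactOperator
    have h2 : Continuous fun S : Op X => (S * proj (cell X z) : Op X) :=
      continuous_id.mul continuous_const
    exact h1.preimage h2
  have hsub : {S : Op X | (∃ R, FinProp X R S) ∧ LocComp X S} ⊆
      {S : Op X | IsCompactOperator (S * proj (cell X z) : Op X)} := by
    rintro S ⟨-, hS⟩
    exact (hS z).1
  exact closure_minimal hsub hcl hT

/-- finitely many cells -/
theorem fin_cpt (X : Expander) (T : Op X) (hT : T ∈ Roe X) (F : Finset (Z X)) :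
    IsCompactOperator (T * proj {p : Ix X | p.1 ∈ F} : Op X) := by
  induction F using Finset.induction_on with
  | empty =>
    have h1 : {p : Ix X | p.1 ∈ (∅ : Finset (Z X))} = (∅ : Set (Ix X)) := by
      ext p
      simp
    rw [h1, proj_empty, mul_zero]
    exact isCompactOperator_zero
  | insert z F hz ih =>
    have h1 : {p : Ix X | p.1 ∈ insert z F} = cell X z ∪ {p : Ix X | p.1 ∈ F} := by
      ext p
      simp only [Finset.mem_insert, Set.mem_ofPred_eq, Set.mem_union, cell]
    have h2 : Disjoint (cell X z) {p : Ix X | p.1 ∈ F} := by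
      rw [Set.disjoint_left]
      intro p hp hp'
      have hp1 : p.1 = z := hp
      have hp2 : p.1 ∈ F := hp'
      rw [hp1] at hp2
      exact hz hp2
    rw [h1, proj_union _ _ h2, mul_add]
    exact (cell_cpt X T hT z).add ih

/-- the levels `m < n` of the block `i` -/
theorem low_cpt (X : Expander) (T : Op X) (hT : T ∈ Roe X) (i n : ℕ) :
    IsCompactOperator (T * proj {p : Ix X | p.1.1.1 = i ∧ p.1.2 < n} : Op X) := by
  obtain ⟨F, hF⟩ : ∃ F : Finset (Z X), F = (Finset.univ ×ˢ Finset.range n).image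
    (fun vm : Fin (X.N i) × ℕ => ((⟨i, vm.1⟩, vm.2) : Z X)) := ⟨_, rfl⟩
  have h1 : {p : Ix X | p.1.1.1 = i ∧ p.1.2 < n} = {p : Ix X | p.1 ∈ F} := by
    ext ⟨⟨⟨j, v⟩, m⟩, k⟩
    rw [hF]
    simp only [Set.mem_ofPred_eq, Finset.mem_image, Finset.mem_product, Finset.mem_univ, true_and,
      Finset.mem_range]
    constructor
    · rintro ⟨h1, h2⟩
      subst h1
      exact ⟨(v, m), h2, rfl⟩
    · rintro ⟨⟨v', m'⟩, h1, h2⟩
      rw [Prod.mk.injEq, Sigma.mk.injEq] at h2
      obtain ⟨⟨h3, -⟩, h4⟩ := h2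
      exact ⟨h3.symm, by rw [← h4]; exact h1⟩
  rw [h1]
  exact fin_cpt X T hT F

theorem split (X : Expander) (i n : ℕ) : Q X i =
    proj {p : Ix X | p.1.1.1 = i ∧ p.1.2 < n} + proj {p : Ix X | p.1.1.1 = i ∧ n ≤ p.1.2} := by
  rw [← proj_union]
  · unfold Q
    congr 1
    ext p
    simp only [Set.mem_ofPred_eq, Set.mem_union]
    constructor
    · intro h
      rcases lt_or_ge p.1.2 n with h1 | h1
      · exact Or.inl ⟨h, h1⟩
      · exact Or.inr ⟨h, h1⟩
    · rintro (h | h)
      · exact h.1
      · exact h.1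
  · rw [Set.disjoint_left]
    rintro p ⟨-, h1⟩ ⟨-, h2⟩
    exact absurd h1 (not_lt.2 h2)

end IGhC

/-- GhC. -/
theorem pr_GhC (h1 : St_Far) : St_GhC := by
  intro X T hT i
  have hfar := h1 X T hT i
  refine isCompactOperator_of_tendsto (l := atTop)
    (F := fun n : ℕ => Q X i * T * proj {p : Ix X | p.1.1.1 = i ∧ p.1.2 < n}) ?_ ?_
  · rw [tendsto_iff_norm_sub_tendsto_zero]
    refine hfar.congr fun n => ?_
    have h2 : Q X i * T * Q X i = Q X i * T * proj {p : Ix X | p.1.1.1 = i ∧ p.1.2 < n} +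
        Q X i * T * proj {p : Ix X | p.1.1.1 = i ∧ n ≤ p.1.2} := by
      rw [← mul_add, ← IGhC.split X i n]
    rw [h2, sub_add_cancel_left, norm_neg]
  · refine Eventually.of_forall fun n => ?_
    have h3 := (IGhC.low_cpt X T hT.1 i n).clm_comp (Q X i)
    rw [mul_assoc]
    exact h3

end

end Pool.Agent.Work.MP_1ddc88_an
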