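import Mathlib
import Pool.Agent.Work.MP_1ddc88_an.Stmts

/-!
# MP_1ddc88_an, item PavF: the kernel of the averaging projection
-/

set_option autoImplicit false

open Filter Topology
open scoped ENNReal

namespace Pool.Agent.Work.MP_1ddc88_an

namespace IPavF

theorem hs {M : Type} [AddCommMonoid M] [TopologicalSpace M] (X : Expander) (i m : ℕ)
    (f : Ix X → M) (hf : ∀ q : Ix X, f q ≠ 0 → q.1.1.1 = i ∧ q.1.2 = m ∧ q.2 = 0) :
    HasSum f (∑ v : Fin (X.N i), f ((⟨i, v⟩, m), 0)) := by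
  classical
  let φ : Fin (X.N i) ↪ Ix X := ⟨fun v => ((⟨i, v⟩, m), 0), by
    intro v w h
    have h1 : (⟨i, v⟩ : Pt X) = ⟨i, w⟩ := congrArg (fun q : Ix X => q.1.1) h
    exact eq_of_heq (Sigma.mk.inj h1).2⟩
  have h1 : HasSum f (∑ b ∈ Finset.univ.map φ, f b) := by
    apply hasSum_sum_of_ne_finset_zero
    intro q hq
    by_contra hne
    obtain ⟨h1, h2, h3⟩ := hf q hne
    apply hq
    obtain ⟨⟨⟨j, w⟩, m'⟩, k⟩ := q
    simp only at h1 h2 h3
    subst h1 h2 h3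
    exact Finset.mem_map.2 ⟨w, Finset.mem_univ _, rfl⟩
  rwa [Finset.sum_map] at h1

theorem norm_sum (X : Expander) (i : ℕ) (v : Fin (X.N i)) :
    ∑ _v : Fin (X.N i), ‖((X.N i : ℂ))⁻¹‖ = 1 := by
  have h0 : 0 < X.N i := v.pos
  have h1 : (X.N i : ℝ) ≠ 0 := by exact_mod_cast h0.ne'
  rw [Finset.sum_const, Finset.card_univ, Fintype.card_fin, nsmul_eq_mul, norm_inv,
    Complex.norm_natCast, mul_inv_cancel₀ h1]

theorem markov (X : Expander) : IsMarkov (fun p q : Ix X =>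
    if p.1.1.1 = q.1.1.1 ∧ p.1.2 = q.1.2 ∧ p.2 = 0 ∧ q.2 = 0
      then ((X.N q.1.1.1 : ℂ))⁻¹ else 0) := by
  constructor
  · rintro ⟨⟨⟨i, v⟩, m⟩, k⟩
    have h1 := hs X i m (fun q : Ix X => ‖if (i = q.1.1.1 ∧ m = q.1.2 ∧ k = 0 ∧ q.2 = 0)
      then ((X.N q.1.1.1 : ℂ))⁻¹ else 0‖) (by
        intro q hq
        by_cases hc : i = q.1.1.1 ∧ m = q.1.2 ∧ k = 0 ∧ q.2 = 0
        · exact ⟨hc.1.symm, hc.2.1.symm, hc.2.2.2⟩
        · rw [if_neg hc, norm_zero] at hq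
          exact absurd rfl hq)
    refine ⟨h1.summable, h1.tsum_eq.trans_le ?_⟩
    by_cases hk : k = 0
    · subst hk
      simp only [true_and, and_self, if_true]
      exact (norm_sum X i v).le
    · simp [hk]
  · rintro ⟨⟨⟨i, v⟩, m⟩, k⟩
    have h1 := hs X i m (fun p : Ix X => ‖if (p.1.1.1 = i ∧ p.1.2 = m ∧ p.2 = 0 ∧ k = 0)
      then ((X.N i : ℂ))⁻¹ else 0‖) (by
        intro p hp
        by_cases hc : p.1.1.1 = i ∧ p.1.2 = m ∧ p.2 = 0 ∧ k = 0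
        · exact ⟨hc.1, hc.2.1, hc.2.2.1⟩
        · rw [if_neg hc, norm_zero] at hp
          exact absurd rfl hp)
    refine ⟨h1.summable, h1.tsum_eq.trans_le ?_⟩
    by_cases hk : k = 0
    · subst hk
      simp only [and_self, if_true]
      exact (norm_sum X i v).le
    · simp [hk]

end IPavF

open IPavF in
/-- Item PavF. -/
theorem pr_PavF : St_PavF := by
  intro X
  refine ⟨markov X, ?_⟩
  rintro ξ ⟨⟨⟨i, v⟩, m⟩, k⟩
  unfold Pav
  rw [kerOp_apply (markov X)]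
  have h1 := hs X i m (fun q : Ix X => (if (i = q.1.1.1 ∧ m = q.1.2 ∧ k = 0 ∧ q.2 = 0)
    then ((X.N q.1.1.1 : ℂ))⁻¹ else 0) * ξ q) (by
      intro q hq
      by_cases hc : i = q.1.1.1 ∧ m = q.1.2 ∧ k = 0 ∧ q.2 = 0
      · exact ⟨hc.1.symm, hc.2.1.symm, hc.2.2.2⟩
      · rw [if_neg hc, zero_mul] at hq
        exact absurd rfl hq)
  refine h1.tsum_eq.trans ?_
  by_cases hk : k = 0
  · subst hk
    simp only [true_and, and_self, if_true]
    rw [Finset.mul_sum]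
  · simp [hk]

end Pool.Agent.Work.MP_1ddc88_an
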