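import Pool.Agent.Work.MP_1ddc88_an.Stmts

/-!
# MP_1ddc88_an, block BC, item Unit (helper73)
-/

set_option autoImplicit false

open Filter Topology
open scoped ENNReal Classical

namespace Pool.Agent.Work.MP_1ddc88_an

noncomputable section

namespace IUnit

theorem isUnit_gen {R : Type} [NormedRing R] [CompleteSpace R] (x : R) (h : ‖1 - x‖ < 1) :
    IsUnit x := by
  have h2 : IsUnit (1 - (1 - x)) := isUnit_one_sub_of_norm_lt_one h
  rwa [sub_sub_cancel] at h2

end IUnit

/-- Item Unit. -/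
theorem pr_Unit : St_Unit := by
  intro X n
  let _ : NormedRing (Matrix (Fin n) (Fin n) (Op X)) := Matrix.linftyOpNormedRing
  refine ⟨1 / (2 * (n : ℝ) + 2), by positivity, ?_⟩
  intro x hx
  have h : ‖(1 : Matrix (Fin n) (Fin n) (Op X)) - x‖ < 1 := by
    have h0 : ‖(1 : Matrix (Fin n) (Fin n) (Op X)) - x‖ = ‖x - 1‖ := norm_sub_rev _ _
    have h1 : ‖x - 1‖ = ((Finset.univ : Finset (Fin n)).sup
        fun i : Fin n => ∑ j : Fin n, ‖(x - 1) i j‖₊ : NNReal) :=
      Matrix.linfty_opNorm_def (x - 1)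
    rw [h0, h1]
    have h2 : ((Finset.univ : Finset (Fin n)).sup
        fun i : Fin n => ∑ j : Fin n, ‖(x - 1) i j‖₊) < (1 : NNReal) := by
      rw [Finset.sup_lt_iff (by simp)]
      intro i _
      rw [← NNReal.coe_lt_coe]
      push_cast
      calc ∑ j, ‖(x - 1) i j‖ ≤ ∑ _j : Fin n, 1 / (2 * (n : ℝ) + 2) :=
            Finset.sum_le_sum fun j _ => hx i j
        _ = n * (1 / (2 * (n : ℝ) + 2)) := by simp
        _ < 1 := by
            rw [mul_one_div, div_lt_one (by positivity)]
            have : (0 : ℝ) ≤ n := Nat.cast_nonneg n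
            linarith
    exact_mod_cast h2
  exact @IUnit.isUnit_gen (Matrix (Fin n) (Fin n) (Op X)) Matrix.linftyOpNormedRing
    (inferInstanceAs (CompleteSpace (Fin n → Fin n → Op X))) x h

end

end Pool.Agent.Work.MP_1ddc88_an
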