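import Mathlib

/-!
# MP_1ddc88_an: bounded operators on `ℓ²(ι)` given by a kernel with row and column sums at most 1
-/

set_option autoImplicit false

open scoped ENNReal

namespace Pool.Agent.Work.MP_1ddc88_an

noncomputable section

/-- The Hilbert space `ℓ²(ι)`. -/
abbrev L2 (ι : Type) := lp (fun _ : ι => ℂ) 2

/-- Kernels with absolutely summable rows and columns of sum at most one. -/
def IsMarkov {ι : Type} (K : ι → ι → ℂ) : Prop :=
  (∀ p, Summable (fun q => ‖K p q‖) ∧ ∑' q, ‖K p q‖ ≤ 1) ∧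
  (∀ q, Summable (fun p => ‖K p q‖) ∧ ∑' p, ‖K p q‖ ≤ 1)

theorem l2_summable {ι : Type} (ξ : L2 ι) : Summable (fun p => ‖ξ p‖ ^ 2) := by
  have := (lp.memℓp ξ).summable (by norm_num : 0 < (2 : ℝ≥0∞).toReal)
  simpa using this

theorem l2_norm_sq {ι : Type} (ξ : L2 ι) : ‖ξ‖ ^ 2 = ∑' p, ‖ξ p‖ ^ 2 := by
  have := lp.norm_rpow_eq_tsum (p := 2) (by norm_num : 0 < (2 : ℝ≥0∞).toReal) ξ
  simpa using this

theorem row_sq {ι : Type} {K : ι → ι → ℂ} (h : IsMarkov K) (ξ : ι → ℂ)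
    (hξ : Summable (fun p => ‖ξ p‖ ^ 2)) (p : ι) :
    Summable (fun q => ‖K p q * ξ q‖) ∧
    Summable (fun q => ‖K p q‖ * ‖ξ q‖ ^ 2) ∧
    ‖∑' q, K p q * ξ q‖ ^ 2 ≤ ∑' q, ‖K p q‖ * ‖ξ q‖ ^ 2 := by
  obtain ⟨hs, h1⟩ := h.1 p
  have hb : ∀ q, ‖K p q‖ ≤ 1 := fun q =>
    (hs.le_tsum q (fun _ _ => norm_nonneg _)).trans h1
  have hs2 : Summable (fun q => ‖K p q‖ * ‖ξ q‖ ^ 2) :=
    Summable.of_nonneg_of_le (fun q => by positivity)
      (fun q => by
        have : ‖K p q‖ * ‖ξ q‖ ^ 2 ≤ 1 * ‖ξ q‖ ^ 2 := by gcongr; exact hb q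
        simpa using this) hξ
  have hs3 : Summable (fun q => ‖K p q * ξ q‖) := by
    refine Summable.of_nonneg_of_le (fun q => norm_nonneg _) (fun q => ?_)
      ((hs.add hs2).div_const 2)
    rw [norm_mul]
    have h0 := norm_nonneg (K p q)
    nlinarith [sq_nonneg (‖ξ q‖ - 1), mul_nonneg h0 (sq_nonneg (‖ξ q‖ - 1))]
  refine ⟨hs3, hs2, ?_⟩
  have hle : ‖∑' q, K p q * ξ q‖ ≤ ∑' q, ‖K p q‖ * ‖ξ q‖ := by
    have := norm_tsum_le_tsum_norm hs3
    simpa [norm_mul] using this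
  have hs3' : Summable (fun q => ‖K p q‖ * ‖ξ q‖) := by simpa [norm_mul] using hs3
  -- Cauchy-Schwarz: for all t, 0 ≤ ∑ |K| (|ξ| - t)^2
  set A := ∑' q, ‖K p q‖ * ‖ξ q‖ with hA
  set B := ∑' q, ‖K p q‖ * ‖ξ q‖ ^ 2 with hB
  have key : 0 ≤ B - 2 * A * A + A * A * ∑' q, ‖K p q‖ := by
    have : ∑' q, ‖K p q‖ * (‖ξ q‖ - A) ^ 2 = B - 2 * A * A + A * A * ∑' q, ‖K p q‖ := by
      have e : (fun q => ‖K p q‖ * (‖ξ q‖ - A) ^ 2) =
          fun q => (‖K p q‖ * ‖ξ q‖ ^ 2 - 2 * A * (‖K p q‖ * ‖ξ q‖)) + A * A * ‖K p q‖ := by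
        funext q; ring
      rw [e, Summable.tsum_add (hs2.sub (hs3'.mul_left _)) (hs.mul_left _),
        Summable.tsum_sub hs2 (hs3'.mul_left _), tsum_mul_left, tsum_mul_left]
    rw [← this]
    exact tsum_nonneg fun q => by positivity
  have hA0 : 0 ≤ A := tsum_nonneg fun q => by positivity
  have : A ^ 2 ≤ B := by nlinarith [mul_nonneg hA0 hA0]
  calc ‖∑' q, K p q * ξ q‖ ^ 2 ≤ A ^ 2 := by gcongr
    _ ≤ B := this

theorem ker_sq {ι : Type} {K : ι → ι → ℂ} (h : IsMarkov K) (ξ : ι → ℂ)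
    (hξ : Summable (fun p => ‖ξ p‖ ^ 2)) :
    Summable (fun p => ‖∑' q, K p q * ξ q‖ ^ 2) ∧
    ∑' p, ‖∑' q, K p q * ξ q‖ ^ 2 ≤ ∑' p, ‖ξ p‖ ^ 2 := by
  have hcol : ∀ q, Summable (fun p => ‖K p q‖ * ‖ξ q‖ ^ 2) := fun q => (h.2 q).1.mul_right _
  have hcol' : ∀ q, ∑' p, ‖K p q‖ * ‖ξ q‖ ^ 2 ≤ ‖ξ q‖ ^ 2 := fun q => by
    rw [tsum_mul_right]
    have := (h.2 q).2
    have h0 : 0 ≤ ‖ξ q‖ ^ 2 := by positivity
    nlinarith
  have hS : Summable (fun x : ι × ι => ‖K x.2 x.1‖ * ‖ξ x.1‖ ^ 2) := by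
    rw [summable_prod_of_nonneg (fun x => by positivity)]
    refine ⟨fun q => hcol q, ?_⟩
    exact Summable.of_nonneg_of_le (fun q => tsum_nonneg fun p => by positivity)
      (fun q => hcol' q) hξ
  have hS' : Summable (fun x : ι × ι => ‖K x.1 x.2‖ * ‖ξ x.2‖ ^ 2) := by
    have := hS.prod_symm
    simpa using this
  have hrow := hS'.prod
  have hle : ∀ p, ‖∑' q, K p q * ξ q‖ ^ 2 ≤ ∑' q, ‖K p q‖ * ‖ξ q‖ ^ 2 :=
    fun p => (row_sq h ξ hξ p).2.2
  have hsum : Summable (fun p => ‖∑' q, K p q * ξ q‖ ^ 2) :=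
    Summable.of_nonneg_of_le (fun p => by positivity) hle hrow
  refine ⟨hsum, ?_⟩
  calc ∑' p, ‖∑' q, K p q * ξ q‖ ^ 2 ≤ ∑' p, ∑' q, ‖K p q‖ * ‖ξ q‖ ^ 2 :=
        hsum.tsum_le_tsum hle hrow
    _ = ∑' q, ∑' p, ‖K p q‖ * ‖ξ q‖ ^ 2 := by
        rw [← Summable.tsum_prod hS', ← Summable.tsum_prod (f := fun x : ι × ι =>
          ‖K x.2 x.1‖ * ‖ξ x.1‖ ^ 2) hS]
        exact (Equiv.prodComm ι ι).tsum_eq (fun x : ι × ι => ‖K x.2 x.1‖ * ‖ξ x.1‖ ^ 2)
    _ ≤ ∑' q, ‖ξ q‖ ^ 2 := by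
        refine Summable.tsum_le_tsum hcol' ?_ hξ
        exact Summable.of_nonneg_of_le (fun q => tsum_nonneg fun p => by positivity)
          (fun q => hcol' q) hξ

/-- The operator on `ℓ²(ι)` with the matrix `K`: `(K ξ)(p) = ∑ q, K p q ξ(q)`
(it is 0 by convention if `K` does not have row and column sums at most one). -/
def kerOp {ι : Type} (K : ι → ι → ℂ) : L2 ι →L[ℂ] L2 ι := by
  classical
  exact if h : IsMarkov K then
    LinearMap.mkContinuous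
      { toFun := fun ξ => ⟨fun p => ∑' q, K p q * ξ q, by
          refine memℓp_gen ?_
          have := (ker_sq h ξ (l2_summable ξ)).1
          simpa using this⟩
        map_add' := fun ξ η => by
          ext p
          have h1 := (row_sq h ξ (l2_summable ξ) p).1.of_norm
          have h2 := (row_sq h η (l2_summable η) p).1.of_norm
          simp only [lp.coeFn_add, Pi.add_apply, mul_add]
          exact h1.tsum_add h2
        map_smul' := fun c ξ => by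
          ext p
          simp only [lp.coeFn_smul, Pi.smul_apply, smul_eq_mul, RingHom.id_apply]
          rw [← tsum_mul_left]
          congr 1
          funext q
          ring } 1 (fun ξ => by
        have h2 := (ker_sq h ξ (l2_summable ξ)).2
        have h3 : ‖(⟨fun p => ∑' q, K p q * ξ q, by
          refine memℓp_gen ?_
          have := (ker_sq h ξ (l2_summable ξ)).1
          simpa using this⟩ : L2 ι)‖ ^ 2 ≤ ‖ξ‖ ^ 2 := by
          rw [l2_norm_sq, l2_norm_sq]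
          exact h2
        have := abs_le_of_sq_le_sq' h3 (norm_nonneg _)
        simpa using this.2)
  else 0

theorem kerOp_apply {ι : Type} {K : ι → ι → ℂ} (h : IsMarkov K) (ξ : L2 ι) (p : ι) :
    kerOp K ξ p = ∑' q, K p q * ξ q := by
  unfold kerOp
  rw [dif_pos h]
  rfl

theorem kerOp_norm_le {ι : Type} (K : ι → ι → ℂ) : ‖kerOp K‖ ≤ 1 := by
  unfold kerOp
  split_ifs with h
  · exact LinearMap.mkContinuous_norm_le _ zero_le_one _
  · simp

end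

end Pool.Agent.Work.MP_1ddc88_an
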