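import Pool.Agent.Work.MP_1ddc88_an.Stmts

/-!
# MP_1ddc88_an, block BC: statements of the items, addition

See `Stmts.lean` for the rules.
-/

set_option autoImplicit false

open Filter Topology
open scoped ENNReal Classical

namespace Pool.Agent.Work.MP_1ddc88_an

noncomputable section

/-- Conv (MEDIUM).  Let `a i = 0` for `i ≥ i₀`, `|a| ≤ C`, `b = -a`.  As in UG,
`u a * u b - u (a + b) = (Sh a Sh b - Sh (a + b)) Pav`, here `u (a + b) = u 0 = 1` and
`Sh (a + b) = 1`.  By the formulas `W = (Sh a Sh b - 1) Pav` satisfies `W ξ ((x, m), k) = 0` unless `k = 0` and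
`m < a x.1` (so `m < C`, `x.1 < i₀`): so `W = proj F * W` with the finite set
`F = {((⟨i, v⟩, m), 0) | i < i₀, m < C}`, and `W` is compact (finite rank; `proj F` is compact for finite
`F`).  The same for `u b * u a - 1`.  So `stab 0 (u a)` (a `1 × 1` matrix) is invertible modulo the
compact operators with inverse `stab 0 (u b)`; entries in `RoePlus` by UR.
USES PavF ShF ShP UR. -/
def St_Conv : Prop := ∀ (X : Expander) (a : ℕ → ℤ) (C : ℕ), (∀ i, |a i| ≤ (C : ℤ)) →
  (∀ᶠ i in atTop, a i = 0) → InvMod X (Cpt X) (stab X 0 (u X a))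

end

end Pool.Agent.Work.MP_1ddc88_an
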